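import Pool.Agent.K4H66.OL.E
import Pool.Agent.W182.KO.Fin2

set_option autoImplicit false

/-! The kernel whose Fourier multiplier is a smooth cut-off. -/

namespace Pool.Agent.K4H66.HL

open Complex MeasureTheory Filter Topology Set Pool.Agent.TH535.SM Pool.Agent.K4H66.OL
open scoped ComplexConjugate FourierTransform ContDiff ENNReal

noncomputable section

/-- the kernel -/
def kp (φ : ℝ → ℂ) (L y : ℝ) : ℂ := ((L / (2 * Real.pi) : ℝ) : ℂ) * W182.KO.P φ (L * y * I)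

/-- test functions -/
structure TS (φ : ℝ → ℂ) : Prop where
  cd : ContDiff ℝ ∞ φ
  cs : HasCompactSupport φ

variable {φ : ℝ → ℂ}

lemma TS.tf (h : TS φ) : ∃ X : ℝ, 0 ≤ X ∧ W182.KO.TF X φ := W182.KO.exists_TF h.cd h.cs

lemma kp_cont (h : TS φ) (L : ℝ) : Continuous (kp φ L) := by
  obtain ⟨X, -, hX⟩ := h.tf
  unfold kp
  exact continuous_const.mul ((W182.KO.P_diff hX).continuous.comp (by fun_prop))

lemma kp_bd (h : TS φ) (N : ℕ) : ∃ C : ℝ, 0 ≤ C ∧ ∀ L y : ℝ, 0 ≤ L →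
    ‖kp φ L y‖ ≤ C * (L / (1 + |L * y|) ^ N) := by
  obtain ⟨X, -, hX⟩ := h.tf
  obtain ⟨C, hC, hb⟩ := W182.KO.P_bound hX N
  refine ⟨C, hC, fun L y hL => ?_⟩
  have h1 := hb (L * y * I) (by simp)
  have e1 : ((L : ℂ) * y * I).re = 0 := by simp
  have e2 : ‖(L : ℂ) * y * I‖ = |L * y| := by
    rw [norm_mul, Complex.norm_I, mul_one, ← Complex.ofReal_mul, Complex.norm_real, Real.norm_eq_abs]
  rw [e1, mul_zero, Real.exp_zero, mul_one, e2] at h1
  have hp : 0 < (1 + |L * y|) ^ N := by positivity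
  have h2 : ‖W182.KO.P φ (L * y * I)‖ ≤ C / (1 + |L * y|) ^ N := by
    rw [le_div_iff₀ hp]; exact h1
  unfold kp
  rw [norm_mul, Complex.norm_real, Real.norm_of_nonneg (by positivity)]
  have h3 : L / (2 * Real.pi) ≤ L := div_le_self hL (by have := Real.pi_gt_three; linarith)
  calc L / (2 * Real.pi) * ‖W182.KO.P φ (L * y * I)‖ ≤ L * (C / (1 + |L * y|) ^ N) := by gcongr
    _ = _ := by ring

/-- the moments of the kernel -/
lemma kp_mom (h : TS φ) (n : ℕ) : ∃ C : ℝ, 0 ≤ C ∧ ∀ L : ℝ, 0 < L →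
    Integrable (fun y => ‖kp φ L y‖ * |y| ^ n) ∧ ∫ y, ‖kp φ L y‖ * |y| ^ n ≤ C / L ^ n := by
  obtain ⟨C, hC, hb⟩ := kp_bd h (n + 2)
  set J : ℝ := ∫ y : ℝ, ((1 + |y|) ^ 2)⁻¹ with hJ
  have hJ0 : 0 ≤ J := integral_nonneg fun y => by positivity
  refine ⟨C * J, by positivity, fun L hL => ?_⟩
  have hpt : ∀ y : ℝ, ‖kp φ L y‖ * |y| ^ n ≤ C * L / L ^ n * ((1 + |L * y|) ^ 2)⁻¹ := by
    intro y
    have h1 := hb L y hL.le
    have h2 : |y| ^ n = |L * y| ^ n / L ^ n := by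
      rw [abs_mul, abs_of_pos hL, mul_pow]
      field_simp
    have h3 : |L * y| ^ n ≤ (1 + |L * y|) ^ n := by gcongr; linarith
    calc ‖kp φ L y‖ * |y| ^ n ≤ C * (L / (1 + |L * y|) ^ (n + 2)) * ((1 + |L * y|) ^ n / L ^ n) := by
          rw [h2]; gcongr
      _ = _ := by
          have : (1 + |L * y|) ≠ 0 := by positivity
          field_simp
          ring
  have hi : Integrable (fun y : ℝ => ((1 + |L * y|) ^ 2)⁻¹) :=
    (inv_sq_int.comp_mul_left' hL.ne')
  have hi2 : Integrable (fun y => ‖kp φ L y‖ * |y| ^ n) :=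
    (hi.const_mul (C * L / L ^ n)).mono' (((kp_cont h L).norm).mul (by fun_prop)).aestronglyMeasurable
      (Eventually.of_forall fun y => by rw [Real.norm_of_nonneg (by positivity)]; exact hpt y)
  refine ⟨hi2, ?_⟩
  calc ∫ y, ‖kp φ L y‖ * |y| ^ n ≤ ∫ y, C * L / L ^ n * ((1 + |L * y|) ^ 2)⁻¹ :=
        integral_mono hi2 (hi.const_mul _) hpt
    _ = C * L / L ^ n * (L⁻¹ * J) := by
        rw [integral_const_mul]
        congr 1
        have := Measure.integral_comp_mul_left (fun y : ℝ => ((1 + |y|) ^ 2)⁻¹) L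
        rw [this, abs_of_pos (inv_pos.2 hL), smul_eq_mul]
    _ = _ := by field_simp

lemma kp_int (h : TS φ) {L : ℝ} (hL : 0 < L) : Integrable (kp φ L) := by
  obtain ⟨C, -, hC⟩ := kp_mom h 0
  have := (hC L hL).1
  simp only [pow_zero, mul_one] at this
  exact (integrable_norm_iff (kp_cont h L).aestronglyMeasurable).1 this

/-- the multiplier -/
lemma kp_mult (h : TS φ) {L : ℝ} (hL : 0 < L) (x : ℝ) :
    ∫ y, kp φ L y * cexp (-(x * L * y) * I) = φ x := by
  obtain ⟨X, -, hX⟩ := h.tf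
  have h1 := W182.KO.P_inv hX (σ := 0) le_rfl hL x
  simp only [ofReal_zero, zero_add, mul_zero, Complex.exp_zero, mul_one] at h1
  have hp := Real.pi_pos
  have e : ∀ y : ℝ, kp φ L y * cexp (-(x * L * y) * I) =
      ((L / (2 * Real.pi) : ℝ) : ℂ) * (W182.KO.P φ (L * y * I) * cexp (-(x * L * y) * I)) := by
    intro y; unfold kp; ring
  simp_rw [e]
  rw [integral_const_mul, h1, ← mul_assoc, ← Complex.ofReal_mul]
  rw [show L / (2 * Real.pi) * (2 * Real.pi / L) = 1 by field_simp]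
  simp

/-- reflected test function -/
def rf (k : ℕ) (φ : ℝ → ℂ) (x : ℝ) : ℂ := conj (φ (k - x))

lemma rf_TS (h : TS φ) (k : ℕ) : TS (rf k φ) := by
  refine ⟨?_, ?_⟩
  · unfold rf
    have h1 : ContDiff ℝ ∞ (fun x : ℝ => φ (k - x)) := h.cd.comp (contDiff_const.sub contDiff_id)
    have h2 : ContDiff ℝ ∞ (fun z : ℂ => Complex.conjCLE z) := ContinuousLinearEquiv.contDiff _
    exact h2.comp h1
  · have h1 : HasCompactSupport (fun x : ℝ => φ (k - x)) := by
      have := h.cs.comp_homeomorph (Homeomorph.subLeft (k : ℝ))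
      exact this
    exact h1.comp_left (map_zero _)

lemma kp_rf (k : ℕ) (φ : ℝ → ℂ) (L y : ℝ) :
    kp (rf k φ) L y = cexp (((k * L * y : ℝ) : ℂ) * I) * conj (kp φ L y) := by
  unfold kp W182.KO.P rf
  rw [map_mul, Complex.conj_ofReal, ← integral_conj]
  have h := integral_sub_left_eq_self (μ := volume)
    (fun ξ : ℝ => conj (φ ((k : ℝ) - ξ)) * cexp (ξ * (L * y * I))) (k : ℝ)
  rw [← h]
  simp only [sub_sub_cancel]
  rw [mul_left_comm]
  congr 1
  refine Eq.trans ?_ (integral_const_mul _ _)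
  refine integral_congr_ae (Eventually.of_forall fun ξ => ?_)
  simp only
  rw [map_mul, ← Complex.exp_conj, mul_left_comm (cexp _) (conj (φ ξ)), ← Complex.exp_add]
  congr 2
  simp only [map_mul, Complex.conj_ofReal, Complex.conj_I]
  push_cast
  ring

end

end Pool.Agent.K4H66.HL
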