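import Pool.Agent.K4H66.HL.A

set_option autoImplicit false

/-! Convolution with the kernel: the Cauchy-Schwarz inequality and the Fourier multiplier. -/

namespace Pool.Agent.K4H66.HL

open Complex MeasureTheory Filter Topology Set Pool.Agent.TH535.SM Pool.Agent.K4H66.OL
open scoped ComplexConjugate FourierTransform ContDiff ENNReal Convolution

noncomputable section

lemma cs_ineq {κ : ℝ → ℂ} {G : ℝ × ℝ → ℂ} (hκ : Measurable κ) (hG : Measurable G) :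
    ∫⁻ t, ‖∫ y, κ y * G (t, y)‖ₑ ^ 2 ≤
      (∫⁻ y, ‖κ y‖ₑ) * ∫⁻ y, ‖κ y‖ₑ * ∫⁻ t, ‖G (t, y)‖ₑ ^ 2 := by
  have hκe : Measurable (fun y => ‖κ y‖ₑ) := hκ.enorm
  have h1 : ∀ t : ℝ, ‖∫ y, κ y * G (t, y)‖ₑ ^ 2 ≤ (∫⁻ y, ‖κ y‖ₑ) * ∫⁻ y, ‖κ y‖ₑ * ‖G (t, y)‖ₑ ^ 2 := by
    intro t
    have hGt : Measurable (fun y => ‖G (t, y)‖ₑ) := (hG.comp measurable_prodMk_left).enorm
    have a1 : ‖∫ y, κ y * G (t, y)‖ₑ ≤ ∫⁻ y, ‖κ y‖ₑ * ‖G (t, y)‖ₑ := by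
      refine (enorm_integral_le_lintegral_enorm _).trans (le_of_eq ?_)
      refine lintegral_congr fun y => ?_
      rw [enorm_mul]
    have a2 : ∫⁻ y, ‖κ y‖ₑ * ‖G (t, y)‖ₑ ≤
        (∫⁻ y, ‖κ y‖ₑ) ^ (1 / 2 : ℝ) * (∫⁻ y, ‖κ y‖ₑ * ‖G (t, y)‖ₑ ^ 2) ^ (1 / 2 : ℝ) := by
      have h := ENNReal.lintegral_mul_le_Lp_mul_Lq (volume : Measure ℝ) (Real.HolderConjugate.two_two)
        (f := fun y => ‖κ y‖ₑ ^ (1 / 2 : ℝ)) (g := fun y => ‖κ y‖ₑ ^ (1 / 2 : ℝ) * ‖G (t, y)‖ₑ)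
        (hκe.pow_const _).aemeasurable ((hκe.pow_const _).mul hGt).aemeasurable
      have e1 : ∀ y, ((fun y => ‖κ y‖ₑ ^ (1 / 2 : ℝ)) * fun y => ‖κ y‖ₑ ^ (1 / 2 : ℝ) * ‖G (t, y)‖ₑ) y =
          ‖κ y‖ₑ * ‖G (t, y)‖ₑ := by
        intro y
        simp only [Pi.mul_apply]
        rw [← mul_assoc, ← ENNReal.rpow_add_of_nonneg _ _ (by norm_num) (by norm_num)]
        norm_num
      have e2 : ∀ y, (‖κ y‖ₑ ^ (1 / 2 : ℝ)) ^ (2 : ℝ) = ‖κ y‖ₑ := by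
        intro y
        rw [← ENNReal.rpow_mul]; norm_num
      have e3 : ∀ y, (‖κ y‖ₑ ^ (1 / 2 : ℝ) * ‖G (t, y)‖ₑ) ^ (2 : ℝ) = ‖κ y‖ₑ * ‖G (t, y)‖ₑ ^ 2 := by
        intro y
        rw [ENNReal.mul_rpow_of_nonneg _ _ (by norm_num), e2, ENNReal.rpow_two]
      simp_rw [e1, e2, e3] at h
      exact h
    calc ‖∫ y, κ y * G (t, y)‖ₑ ^ 2 ≤
          ((∫⁻ y, ‖κ y‖ₑ) ^ (1 / 2 : ℝ) * (∫⁻ y, ‖κ y‖ₑ * ‖G (t, y)‖ₑ ^ 2) ^ (1 / 2 : ℝ)) ^ 2 := by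
          gcongr
          exact a1.trans a2
      _ = _ := by
          rw [mul_pow]
          congr 1
          · rw [← ENNReal.rpow_two, ← ENNReal.rpow_mul]; norm_num
          · rw [← ENNReal.rpow_two, ← ENNReal.rpow_mul]; norm_num
  calc ∫⁻ t, ‖∫ y, κ y * G (t, y)‖ₑ ^ 2 ≤ ∫⁻ t, (∫⁻ y, ‖κ y‖ₑ) * ∫⁻ y, ‖κ y‖ₑ * ‖G (t, y)‖ₑ ^ 2 :=
        lintegral_mono h1
    _ = (∫⁻ y, ‖κ y‖ₑ) * ∫⁻ t, ∫⁻ y, ‖κ y‖ₑ * ‖G (t, y)‖ₑ ^ 2 := by
        rw [lintegral_const_mul]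
        exact Measurable.lintegral_prod_right' (f := fun p : ℝ × ℝ => ‖κ p.2‖ₑ * ‖G p‖ₑ ^ 2)
          ((hκe.comp measurable_snd).mul (hG.enorm.pow_const 2))
    _ = (∫⁻ y, ‖κ y‖ₑ) * ∫⁻ y, ∫⁻ t, ‖κ y‖ₑ * ‖G (t, y)‖ₑ ^ 2 := by
        rw [lintegral_lintegral_swap]
        exact ((hκe.comp measurable_snd).mul (hG.enorm.pow_const 2)).aemeasurable
    _ = _ := by
        congr 1
        refine lintegral_congr fun y => ?_
        rw [lintegral_const_mul]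
        exact (hG.comp measurable_prodMk_right).enorm.pow_const 2

/-- convolution with the kernel -/
def KK (κ : ℝ → ℂ) (f : ℝ → ℂ) (t : ℝ) : ℂ := ∫ y, κ y * f (t + y)

variable {φ : ℝ → ℂ}

lemma KK_eq_conv (κ f : ℝ → ℂ) :
    KK κ f = (f ⋆[ContinuousLinearMap.mul ℂ ℂ] (fun y => κ (-y))) := by
  funext t
  unfold KK
  rw [convolution_def]
  have h := integral_sub_left_eq_self (μ := volume) (fun s : ℝ => κ s * f (t + s)) 0
  have h2 := integral_add_right_eq_self (μ := volume) (fun s : ℝ => κ (s - t) * f s) t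
  simp only [add_sub_cancel_right] at h2
  have e : (fun y => κ y * f (t + y)) = fun y => κ y * f (y + t) := by funext y; rw [add_comm]
  rw [e, h2]
  refine integral_congr_ae (Eventually.of_forall fun s => ?_)
  simp only [ContinuousLinearMap.mul_apply']
  rw [neg_sub, mul_comm]

lemma KK_ft {κ f : ℝ → ℂ} (hκ : Integrable κ) (hf : Integrable f) (w : ℝ) :
    𝓕 (KK κ f) w = (∫ y, κ y * cexp ((2 * Real.pi * w * y : ℝ) * I)) * 𝓕 f w := by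
  rw [KK_eq_conv, Real.fourier_mul_convolution_eq hf hκ.comp_neg, mul_comm]
  congr 1
  rw [ft_eq]
  have h := integral_neg_eq_self (μ := volume) (fun y : ℝ => κ y * cexp ((2 * Real.pi * w * y : ℝ) * I))
  rw [← h]
  refine integral_congr_ae (Eventually.of_forall fun s => ?_)
  simp only
  rw [mul_comm]
  congr 2
  push_cast
  ring

lemma KK_ft' (h : TS φ) {L : ℝ} (hL : 0 < L) {f : ℝ → ℂ} (hf : Integrable f) (w : ℝ) :
    𝓕 (KK (kp φ L) f) w = φ (-(2 * Real.pi * w / L)) * 𝓕 f w := by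
  rw [KK_ft (kp_int h hL) hf, ← kp_mult h hL]
  congr 1
  refine integral_congr_ae (Eventually.of_forall fun y => ?_)
  simp only
  congr 2
  push_cast
  have : (L : ℂ) ≠ 0 := by exact_mod_cast hL.ne'
  field_simp

lemma KK_dec (h : TS φ) {L : ℝ} (hL : 0 < L) {f : ℝ → ℂ} (hf : Dec f) : Dec (KK (kp φ L) f) := by
  obtain ⟨Bf, hBf, hb⟩ := hf.bd
  obtain ⟨C, hC, hk⟩ := kp_mom h 2
  obtain ⟨C0, hC0, hk0⟩ := kp_mom h 0
  obtain ⟨i2, -⟩ := hk L hL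
  obtain ⟨i0, -⟩ := hk0 L hL
  simp only [pow_zero, mul_one] at i0
  have hfb : ∀ t, ‖f t‖ ≤ Bf := by
    intro t
    refine (hb t).trans ?_
    have : ((1 + |t|) ^ 2)⁻¹ ≤ 1 := inv_le_one_of_one_le₀ (one_le_pow₀ (by have := abs_nonneg t; linarith))
    nlinarith
  refine ⟨?_, 2 * Bf * ((∫ y, ‖kp φ L y‖) + ∫ y, ‖kp φ L y‖ * |y| ^ 2), ?_, fun t => ?_⟩
  · refine continuous_of_dominated (bound := fun y => ‖kp φ L y‖ * Bf) (fun t => ?_) (fun t => ?_)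
      (i0.mul_const _) (Eventually.of_forall fun y => ?_)
    · exact ((kp_cont h L).mul (hf.cont.comp (by fun_prop))).aestronglyMeasurable
    · refine Eventually.of_forall fun y => ?_
      rw [norm_mul]; gcongr; exact hfb _
    · exact continuous_const.mul (hf.cont.comp (by fun_prop))
  · have : 0 ≤ ∫ y, ‖kp φ L y‖ := integral_nonneg fun y => norm_nonneg _
    have : 0 ≤ ∫ y, ‖kp φ L y‖ * |y| ^ 2 := integral_nonneg fun y => by positivity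
    positivity
  · have hp : 0 < (1 + |t|) ^ 2 := by positivity
    have hpt : ∀ y : ℝ, ‖kp φ L y * f (t + y)‖ ≤ (2 * Bf * ((1 + |t|) ^ 2)⁻¹) * (‖kp φ L y‖ + ‖kp φ L y‖ * |y| ^ 2) := by
      intro y
      have h1 := one_add_abs_le t y
      have h2 : (1 + |t|) ^ 2 ≤ (1 + |t + y|) ^ 2 * (1 + |y|) ^ 2 := by
        rw [← mul_pow]; gcongr
      have h3 : (1 + |y|) ^ 2 ≤ 2 * (1 + |y| ^ 2) := by nlinarith [sq_nonneg (1 - |y|)]
      have h4 : ((1 + |t + y|) ^ 2)⁻¹ ≤ ((1 + |t|) ^ 2)⁻¹ * (2 * (1 + |y| ^ 2)) := by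
        rw [inv_mul_eq_div, le_div_iff₀ hp, inv_mul_le_iff₀ (by positivity)]
        refine h2.trans ?_
        gcongr
      calc ‖kp φ L y * f (t + y)‖ = ‖kp φ L y‖ * ‖f (t + y)‖ := norm_mul _ _
        _ ≤ ‖kp φ L y‖ * (Bf * (((1 + |t|) ^ 2)⁻¹ * (2 * (1 + |y| ^ 2)))) := by
            gcongr
            refine (hb _).trans ?_
            gcongr
        _ = _ := by ring
    unfold KK
    refine (norm_integral_le_of_norm_le ((iadd i0 i2).const_mul _) (Eventually.of_forall hpt)).trans ?_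
    rw [integral_const_mul, integral_add i0 i2]
    exact le_of_eq (by ring)

/-- Plancherel for the convolution -/
lemma KK_planch (h : TS φ) {L : ℝ} (hL : 0 < L) {f : ℝ → ℂ} (hf : Dec f) :
    Integrable (fun w => ‖φ (-(2 * Real.pi * w / L))‖ ^ 2 * ‖𝓕 f w‖ ^ 2) ∧
    ∫ t, ‖KK (kp φ L) f t‖ ^ 2 = ∫ w, ‖φ (-(2 * Real.pi * w / L))‖ ^ 2 * ‖𝓕 f w‖ ^ 2 := by
  have h1 := planch (KK_dec h hL hf)
  have e : ∀ w, ‖𝓕 (KK (kp φ L) f) w‖ ^ 2 = ‖φ (-(2 * Real.pi * w / L))‖ ^ 2 * ‖𝓕 f w‖ ^ 2 := by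
    intro w
    rw [KK_ft' h hL hf.int, norm_mul, mul_pow]
  simp only [e] at h1
  exact ⟨h1.1, h1.2.symm⟩

end

end Pool.Agent.K4H66.HL
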