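import Pool.Agent.K4H66.HL.B

set_option autoImplicit false

/-! The window `(T, 2T]`. -/

namespace Pool.Agent.K4H66.HL

open Complex MeasureTheory Filter Topology Set Pool.Agent.TH535.SM Pool.Agent.K4H66.OL
open scoped ComplexConjugate FourierTransform ContDiff ENNReal Convolution

noncomputable section

variable {φ : ℝ → ℂ} {z : ℝ → ℂ} {G : ℂ → ℂ} {u K : ℕ}

/-- the window -/
def wd (T t : ℝ) : ℝ := ind (2 * T) t - ind T t

lemma wd_meas (T : ℝ) : Measurable (wd T) := (ind_meas _).sub (ind_meas _)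

lemma wd_eq {T : ℝ} (hT : 0 ≤ T) (t : ℝ) : wd T t = (Ioc T (2 * T)).indicator (fun _ => (1:ℝ)) t := by
  unfold wd
  by_cases h1 : t ∈ Icc 0 T
  · rw [ind_mem h1, ind_mem ⟨h1.1, by linarith [h1.2]⟩, indicator_of_notMem]
    · ring
    · intro h; linarith [h.1, h1.2]
  · rw [ind_not h1]
    by_cases h2 : t ∈ Icc 0 (2 * T)
    · rw [ind_mem h2, indicator_of_mem]
      · ring
      · refine ⟨?_, h2.2⟩
        by_contra h; push Not at h
        exact h1 ⟨h2.1, h⟩
    · rw [ind_not h2, indicator_of_notMem]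
      · ring
      · intro h; exact h2 ⟨by linarith [h.1], h.2⟩

lemma wd_mem {T t : ℝ} (hT : 0 ≤ T) (h : t ∈ Ioc T (2 * T)) : wd T t = 1 := by
  rw [wd_eq hT, indicator_of_mem h]

lemma wd_not {T t : ℝ} (hT : 0 ≤ T) (h : t ∉ Ioc T (2 * T)) : wd T t = 0 := by
  rw [wd_eq hT, indicator_of_notMem h]

/-- the sharp windowed function -/
def f0 (z : ℝ → ℂ) (T t : ℝ) : ℂ := (wd T t : ℂ) * z t

/-- the smooth windowed function -/
def f1 (G : ℂ → ℂ) (T t : ℝ) : ℂ := Fn G (2 * T) 0 t - Fn G T 0 t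

lemma f0_meas (D : Dat z G u K) (T : ℝ) : Measurable (f0 z T) :=
  (Complex.measurable_ofReal.comp (wd_meas T)).mul D.zc.measurable

lemma f1_dec (D : Dat z G u K) {T : ℝ} (hT : 1 ≤ T) : Dec (f1 G T) := by
  have hu : (0:ℝ) ≤ u := Nat.cast_nonneg u
  exact (Fn_dec D.pg (by linarith) (by linarith) hu).sub (Fn_dec D.pg hT (by linarith) hu)

lemma en_sq (x : ℂ) : ‖x‖ₑ ^ 2 = ENNReal.ofReal (‖x‖ ^ 2) := by
  rw [ENNReal.ofReal_pow (norm_nonneg _), ofReal_norm]

lemma f01 (D : Dat z G u K) : ∃ C : ℝ, 0 ≤ C ∧ ∀ T : ℝ, 1 ≤ T →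
    ∫⁻ t, ‖f1 G T t - f0 z T t‖ₑ ^ 2 ≤ ENNReal.ofReal (C * (Om z (2 * T) + Om z T)) := by
  obtain ⟨C, hC, hcl⟩ := close D
  refine ⟨2 * C, by linarith, fun T hT => ?_⟩
  have h1 : ∀ t, ‖f1 G T t - f0 z T t‖ ^ 2 ≤ 2 * C * (Wq (2 * T) t * ‖z t‖ ^ 2 + Wq T t * ‖z t‖ ^ 2) := by
    intro t
    have a1 := hcl T hT t 0 (by simp)
    have a2 := hcl (2 * T) (by linarith) t 0 (by simp)
    simp only [add_zero] at a1 a2
    have e : f1 G T t - f0 z T t = (Fn G (2 * T) 0 t - ind (2 * T) t * z t) -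
        (Fn G T 0 t - ind T t * z t) := by
      unfold f1 f0 wd
      push_cast
      ring
    rw [e]
    have h2 := norm_sub_le (Fn G (2 * T) 0 t - ind (2 * T) t * z t) (Fn G T 0 t - ind T t * z t)
    have h3 : ‖(Fn G (2 * T) 0 t - ind (2 * T) t * z t) - (Fn G T 0 t - ind T t * z t)‖ ^ 2 ≤
        2 * (‖Fn G (2 * T) 0 t - ind (2 * T) t * z t‖ ^ 2 + ‖Fn G T 0 t - ind T t * z t‖ ^ 2) := by
      refine (pow_le_pow_left₀ (norm_nonneg _) h2 2).trans ?_
      nlinarith [sq_nonneg (‖Fn G (2 * T) 0 t - ind (2 * T) t * z t‖ - ‖Fn G T 0 t - ind T t * z t‖)]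
    nlinarith
  calc ∫⁻ t, ‖f1 G T t - f0 z T t‖ₑ ^ 2 ≤
        ∫⁻ t, ENNReal.ofReal (2 * C * (Wq (2 * T) t * ‖z t‖ ^ 2 + Wq T t * ‖z t‖ ^ 2)) := by
        refine lintegral_mono fun t => ?_
        rw [en_sq]
        exact ENNReal.ofReal_le_ofReal (h1 t)
    _ = _ := by
        rw [← ofReal_integral_eq_lintegral_ofReal]
        · rw [integral_const_mul, integral_add (Om_int D _) (Om_int D _)]
          rfl
        · exact (iadd (Om_int D _) (Om_int D _)).const_mul _
        · refine Eventually.of_forall fun t => ?_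
          have := Wq_nonneg (2 * T) t
          have := Wq_nonneg T t
          have : 0 ≤ C := by linarith
          simp only [Pi.zero_apply]
          positivity

/-- the mass at distance at most `|y|` from `T` -/
def Osc (z : ℝ → ℂ) (T y : ℝ) : ℝ := ∫ t in (T - |y|)..(T + |y|), ‖z t‖ ^ 2

lemma Osc_eq (D : Dat z G u K) (T y : ℝ) : Osc z T y = M z (T + |y|) - M z (T - |y|) := by
  unfold Osc M
  rw [intervalIntegral.integral_interval_sub_left (D.sc.intervalIntegrable _ _) (D.sc.intervalIntegrable _ _)]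

lemma Osc_nonneg (z : ℝ → ℂ) (T y : ℝ) : 0 ≤ Osc z T y :=
  intervalIntegral.integral_nonneg (by have := abs_nonneg y; linarith) fun t _ => by positivity

lemma Osc_mono (D : Dat z G u K) (T : ℝ) {y h : ℝ} (hy : |y| ≤ |h|) : Osc z T y ≤ Osc z T h := by
  rw [Osc_eq D, Osc_eq D]
  have h1 := M_mono D (show T + |y| ≤ T + |h| by linarith)
  have h2 := M_mono D (show T - |h| ≤ T - |y| by linarith)
  linarith

lemma Osc_poly (D : Dat z G u K) : ∃ (C : ℝ) (q : ℕ), 0 ≤ C ∧ ∀ T y : ℝ, 0 ≤ T →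
    Osc z T y ≤ C * (1 + T) ^ q * (1 + |y|) ^ q := by
  obtain ⟨C, p, hC, hb⟩ := D.zb
  refine ⟨2 * C, p + 1, by linarith, fun T y hT => ?_⟩
  have hy := abs_nonneg y
  unfold Osc
  calc ∫ t in (T - |y|)..(T + |y|), ‖z t‖ ^ 2 ≤
        ∫ t in (T - |y|)..(T + |y|), C * ((1 + T) * (1 + |y|)) ^ p := by
        refine intervalIntegral.integral_mono_on (by linarith) (D.sc.intervalIntegrable _ _)
          (continuous_const.intervalIntegrable _ _) fun t ht => ?_
        refine (hb t).trans ?_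
        have : |t| ≤ T + |y| := abs_le.2 ⟨by linarith [ht.1], ht.2⟩
        have h2 : 1 + |t| ≤ (1 + T) * (1 + |y|) := by nlinarith
        gcongr
    _ = 2 * C * (|y| * ((1 + T) * (1 + |y|)) ^ p) := by
        rw [intervalIntegral.integral_const, smul_eq_mul]; ring
    _ ≤ 2 * C * (((1 + T) * (1 + |y|)) * ((1 + T) * (1 + |y|)) ^ p) := by
        gcongr
        nlinarith
    _ = _ := by rw [← pow_succ', mul_pow]; ring

/-- the comparison of the window at `s - y` and at `s` -/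
lemma wd_shift {T : ℝ} (hT : 0 ≤ T) (s y : ℝ) : (wd T (s - y) - wd T s) ^ 2 ≤
    (Icc (T - |y|) (T + |y|)).indicator (fun _ => (1:ℝ)) s +
      (Icc (2 * T - |y|) (2 * T + |y|)).indicator (fun _ => (1:ℝ)) s := by
  have i1 : 0 ≤ (Icc (T - |y|) (T + |y|)).indicator (fun _ => (1:ℝ)) s :=
    indicator_nonneg (fun _ _ => by norm_num) s
  have i2 : 0 ≤ (Icc (2 * T - |y|) (2 * T + |y|)).indicator (fun _ => (1:ℝ)) s :=
    indicator_nonneg (fun _ _ => by norm_num) s
  have hy1 := le_abs_self y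
  have hy2 := neg_abs_le y
  have key : ((s - y ∈ Ioc T (2 * T)) ↔ (s ∈ Ioc T (2 * T))) ∨ s ∈ Icc (T - |y|) (T + |y|) ∨
      s ∈ Icc (2 * T - |y|) (2 * T + |y|) := by
    by_contra hcon
    push Not at hcon
    obtain ⟨h1, h2, h3⟩ := hcon
    simp only [mem_Icc, mem_Ioc, not_and_or, not_le] at h1 h2 h3
    rcases h1 with ⟨⟨a1, a2⟩, a3⟩ | ⟨a3, a1, a2⟩
    · rcases h2 with h2 | h2 <;> rcases h3 with h3 | h3 <;> rcases a3 with a3 | a3 <;> linarith
    · rcases h2 with h2 | h2 <;> rcases h3 with h3 | h3 <;> rcases a3 with a3 | a3 <;> linarith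
  rcases key with h | h | h
  · have e : wd T (s - y) = wd T s := by
      rw [wd_eq hT, wd_eq hT]
      by_cases hs : s ∈ Ioc T (2 * T)
      · rw [indicator_of_mem hs, indicator_of_mem (h.2 hs)]
      · rw [indicator_of_notMem hs, indicator_of_notMem (fun h' => hs (h.1 h'))]
    rw [e, sub_self]
    simp only [ne_eq, OfNat.ofNat_ne_zero, not_false_eq_true, zero_pow]
    positivity
  · rw [indicator_of_mem h]
    have : (wd T (s - y) - wd T s) ^ 2 ≤ 1 := by
      rw [wd_eq hT, wd_eq hT]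
      by_cases h1 : s ∈ Ioc T (2 * T) <;> by_cases h2 : s - y ∈ Ioc T (2 * T) <;>
        simp [indicator, h1, h2]
    linarith
  · rw [indicator_of_mem h]
    have : (wd T (s - y) - wd T s) ^ 2 ≤ 1 := by
      rw [wd_eq hT, wd_eq hT]
      by_cases h1 : s ∈ Ioc T (2 * T) <;> by_cases h2 : s - y ∈ Ioc T (2 * T) <;>
        simp [indicator, h1, h2]
    linarith

lemma shift_mass (D : Dat z G u K) {T : ℝ} (hT : 0 ≤ T) (y : ℝ) :
    ∫⁻ s, ‖((wd T (s - y) - wd T s : ℝ) : ℂ) * z s‖ₑ ^ 2 ≤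
      ENNReal.ofReal (Osc z T y + Osc z (2 * T) y) := by
  have hi : ∀ a b : ℝ, a ≤ b → Integrable ((Icc a b).indicator (fun s => ‖z s‖ ^ 2)) ∧
      ∫ s, (Icc a b).indicator (fun s => ‖z s‖ ^ 2) s = ∫ s in a..b, ‖z s‖ ^ 2 := by
    intro a b hab
    refine ⟨(integrable_indicator_iff measurableSet_Icc).2 (D.sc.continuousOn.integrableOn_Icc), ?_⟩
    rw [integral_indicator measurableSet_Icc, intervalIntegral.integral_of_le hab,
      integral_Icc_eq_integral_Ioc]
  have hy := abs_nonneg y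
  obtain ⟨i1, v1⟩ := hi (T - |y|) (T + |y|) (by linarith)
  obtain ⟨i2, v2⟩ := hi (2 * T - |y|) (2 * T + |y|) (by linarith)
  calc _ ≤ ∫⁻ s, ENNReal.ofReal ((Icc (T - |y|) (T + |y|)).indicator (fun s => ‖z s‖ ^ 2) s +
        (Icc (2 * T - |y|) (2 * T + |y|)).indicator (fun s => ‖z s‖ ^ 2) s) := by
        refine lintegral_mono fun s => ?_
        rw [en_sq]
        refine ENNReal.ofReal_le_ofReal ?_
        rw [norm_mul, mul_pow, Complex.norm_real, Real.norm_eq_abs, sq_abs]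
        have h := mul_le_mul_of_nonneg_right (wd_shift hT s y) (sq_nonneg ‖z s‖)
        refine h.trans (le_of_eq ?_)
        rw [add_mul]
        congr 1
        · by_cases hs : s ∈ Icc (T - |y|) (T + |y|)
          · rw [indicator_of_mem hs, indicator_of_mem hs, one_mul]
          · rw [indicator_of_notMem hs, indicator_of_notMem hs, zero_mul]
        · by_cases hs : s ∈ Icc (2 * T - |y|) (2 * T + |y|)
          · rw [indicator_of_mem hs, indicator_of_mem hs, one_mul]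
          · rw [indicator_of_notMem hs, indicator_of_notMem hs, zero_mul]
    _ = _ := by
        rw [← ofReal_integral_eq_lintegral_ofReal (iadd i1 i2)]
        · rw [integral_add i1 i2, v1, v2]; rfl
        · refine Eventually.of_forall fun s => ?_
          have a1 : 0 ≤ (Icc (T - |y|) (T + |y|)).indicator (fun s => ‖z s‖ ^ 2) s :=
            indicator_nonneg (fun _ _ => by positivity) s
          have a2 : 0 ≤ (Icc (2 * T - |y|) (2 * T + |y|)).indicator (fun s => ‖z s‖ ^ 2) s :=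
            indicator_nonneg (fun _ _ => by positivity) s
          simp only [Pi.zero_apply]
          linarith

lemma n2_add (f g : ℝ → ℂ) (hf : Measurable f) :
    ∫⁻ t, ‖f t + g t‖ₑ ^ 2 ≤ 2 * (∫⁻ t, ‖f t‖ₑ ^ 2) + 2 * ∫⁻ t, ‖g t‖ₑ ^ 2 := by
  rw [← lintegral_const_mul' _ _ (by norm_num), ← lintegral_const_mul' _ _ (by norm_num),
    ← lintegral_add_left ((hf.enorm.pow_const 2).const_mul 2)]
  refine lintegral_mono fun t => ?_
  rw [en_sq, en_sq, en_sq, ← ENNReal.ofReal_ofNat, ← ENNReal.ofReal_mul (by norm_num),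
    ← ENNReal.ofReal_mul (by norm_num), ← ENNReal.ofReal_add (by positivity) (by positivity)]
  refine ENNReal.ofReal_le_ofReal ?_
  have h2 := norm_add_le (f t) (g t)
  refine (pow_le_pow_left₀ (norm_nonneg _) h2 2).trans ?_
  nlinarith [sq_nonneg (‖f t‖ - ‖g t‖)]

/-- for a fixed shift -/
lemma win_shift (D : Dat z G u K) {T : ℝ} (hT : 1 ≤ T) (y : ℝ) :
    ∫⁻ t, ‖(wd T t : ℂ) * z (t + y) - f1 G T (t + y)‖ₑ ^ 2 ≤
      2 * ENNReal.ofReal (Osc z T y + Osc z (2 * T) y) + 2 * ∫⁻ t, ‖f1 G T t - f0 z T t‖ₑ ^ 2 := by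
  have h := lintegral_add_right_eq_self (μ := volume)
    (fun s : ℝ => ‖(wd T (s - y) : ℂ) * z s - f1 G T s‖ₑ ^ 2) y
  simp only [add_sub_cancel_right] at h
  rw [h]
  have e : ∀ s : ℝ, (wd T (s - y) : ℂ) * z s - f1 G T s =
      ((wd T (s - y) - wd T s : ℝ) : ℂ) * z s + -(f1 G T s - f0 z T s) := by
    intro s
    unfold f0
    push_cast
    ring
  simp_rw [e]
  refine (n2_add _ _ ?_).trans ?_
  · exact (Complex.measurable_ofReal.comp (((wd_meas T).comp (measurable_id.sub_const y)).sub (wd_meas T))).mul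
      D.zc.measurable
  · simp_rw [enorm_neg]
    gcongr
    exact shift_mass D (by linarith) y

end

end Pool.Agent.K4H66.HL
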