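import Pool.Agent.K4H66.HL.C

set_option autoImplicit false

/-! The windowed convolution against the convolution of the windowed function. -/

namespace Pool.Agent.K4H66.HL

open Complex MeasureTheory Filter Topology Set Pool.Agent.TH535.SM Pool.Agent.K4H66.OL
open scoped ComplexConjugate FourierTransform ContDiff ENNReal Convolution

noncomputable section

variable {φ : ℝ → ℂ} {z : ℝ → ℂ} {G : ℂ → ℂ} {u K : ℕ}

lemma kp_w (h : TS φ) (n : ℕ) {L : ℝ} (hL : 0 < L) : Integrable (fun y => ‖kp φ L y‖ * (1 + |y|) ^ n) := by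
  obtain ⟨C, hC, hk⟩ := kp_mom h n
  obtain ⟨C0, hC0, hk0⟩ := kp_mom h 0
  obtain ⟨i2, -⟩ := hk L hL
  obtain ⟨i0, -⟩ := hk0 L hL
  simp only [pow_zero, mul_one] at i0
  refine ((iadd i0 i2).const_mul (2 ^ n)).mono'
    (((kp_cont h L).norm).mul (by fun_prop)).aestronglyMeasurable (Eventually.of_forall fun y => ?_)
  rw [Real.norm_of_nonneg (by positivity)]
  have h1 : (1 + |y|) ^ n ≤ 2 ^ n * (1 + |y| ^ n) := by
    have hy := abs_nonneg y
    rcases le_total |y| 1 with h | h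
    · calc (1 + |y|) ^ n ≤ 2 ^ n := by gcongr; linarith
        _ ≤ 2 ^ n * (1 + |y| ^ n) := le_mul_of_one_le_right (by positivity) (by
            have : 0 ≤ |y| ^ n := by positivity
            linarith)
    · calc (1 + |y|) ^ n ≤ (2 * |y|) ^ n := by gcongr; linarith
        _ = 2 ^ n * |y| ^ n := mul_pow _ _ _
        _ ≤ 2 ^ n * (1 + |y| ^ n) := by gcongr; linarith
  calc ‖kp φ L y‖ * (1 + |y|) ^ n ≤ ‖kp φ L y‖ * (2 ^ n * (1 + |y| ^ n)) := by gcongr
    _ = _ := by ring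

lemma kz_int (h : TS φ) (D : Dat z G u K) {L : ℝ} (hL : 0 < L) (t : ℝ) :
    Integrable (fun y => kp φ L y * z (t + y)) := by
  obtain ⟨C, p, hC, hb⟩ := D.zb
  refine ((kp_w h p hL).const_mul (2 * C * (1 + |t|) ^ p)).mono'
    ((kp_cont h L).mul (D.zc.comp (by fun_prop))).aestronglyMeasurable (Eventually.of_forall fun y => ?_)
  rw [norm_mul]
  have h1 : ‖z (t + y)‖ ≤ 1 + ‖z (t + y)‖ ^ 2 := by nlinarith [sq_nonneg (‖z (t + y)‖ - 1), norm_nonneg (z (t + y))]
  have h2 := hb (t + y)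
  have h3 : 1 + |t + y| ≤ (1 + |t|) * (1 + |y|) := by
    have := abs_add_le t y
    nlinarith [abs_nonneg t, abs_nonneg y, mul_nonneg (abs_nonneg t) (abs_nonneg y)]
  have h4 : (1 + |t + y|) ^ p ≤ ((1 + |t|) * (1 + |y|)) ^ p := by gcongr
  have h5 : 1 ≤ ((1 + |t|) * (1 + |y|)) ^ p := one_le_pow₀ (by
    nlinarith [abs_nonneg t, abs_nonneg y, mul_nonneg (abs_nonneg t) (abs_nonneg y)])
  have h6 : ‖z (t + y)‖ ≤ 2 * C * ((1 + |t|) * (1 + |y|)) ^ p := by nlinarith
  rw [mul_pow] at h6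
  calc ‖kp φ L y‖ * ‖z (t + y)‖ ≤ ‖kp φ L y‖ * (2 * C * ((1 + |t|) ^ p * (1 + |y|) ^ p)) := by gcongr
    _ = _ := by ring

lemma kf_int (h : TS φ) {L : ℝ} (hL : 0 < L) {f : ℝ → ℂ} (hf : Dec f) (t : ℝ) :
    Integrable (fun y => kp φ L y * f (t + y)) := by
  obtain ⟨B, hB, hb⟩ := hf.bd
  refine ((kp_int h hL).norm.mul_const B).mono'
    ((kp_cont h L).mul (hf.cont.comp (by fun_prop))).aestronglyMeasurable (Eventually.of_forall fun y => ?_)
  rw [norm_mul]
  gcongr
  refine (hb _).trans ?_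
  have : ((1 + |t + y|) ^ 2)⁻¹ ≤ 1 := inv_le_one_of_one_le₀ (one_le_pow₀ (by
    have := abs_nonneg (t + y); linarith))
  nlinarith

lemma tail_pt (h : TS φ) (D : Dat z G u K) : ∃ C : ℝ, 0 ≤ C ∧ ∀ T : ℝ, Real.exp 1 ≤ T → ∀ y : ℝ, √T < |y| →
    ‖kp φ (Real.log T) y‖ * (Osc z T y + Osc z (2 * T) y) ≤ C * ((1 + |y|) ^ 2)⁻¹ := by
  obtain ⟨C1, q, hC1, h1⟩ := Osc_poly D
  obtain ⟨C2, hC2, h2⟩ := kp_bd h (3 * q + 3)
  refine ⟨C2 * (2 * C1 * 3 ^ q), by positivity, fun T hT y hy => ?_⟩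
  have hT0 : 0 < T := (Real.exp_pos 1).trans_le hT
  have hT1 : 1 ≤ T := by have := Real.add_one_le_exp 1; linarith
  have hL : 1 ≤ Real.log T := by rwa [Real.le_log_iff_exp_le hT0]
  have hs : 1 ≤ √T := Real.one_le_sqrt.2 hT1
  have hy1 : 1 ≤ |y| := by linarith
  have hTy : T ≤ |y| ^ 2 := by
    have := Real.sq_sqrt hT0.le
    nlinarith
  set L := Real.log T with hLd
  have hk : ‖kp φ L y‖ ≤ C2 * ((1 + |y|) ^ (3 * q + 2))⁻¹ := by
    refine (h2 L y (by linarith)).trans ?_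
    gcongr
    have e1 : |L * y| = L * |y| := by rw [abs_mul, abs_of_pos (by linarith : 0 < L)]
    have h3 : (1 + |y|) ^ (3 * q + 2) ≤ (1 + L * |y|) ^ (3 * q + 2) := by
      gcongr
      nlinarith
    have h4 : L ≤ 1 + L * |y| := by nlinarith
    have h5 : 0 < (1 + |y|) ^ (3 * q + 2) := by positivity
    have h6 : 0 < (1 + L * |y|) ^ (3 * q + 2) := by positivity
    rw [e1, div_le_iff₀ (by positivity), inv_mul_eq_div, le_div_iff₀ h5]
    calc L * (1 + |y|) ^ (3 * q + 2) ≤ (1 + L * |y|) * (1 + L * |y|) ^ (3 * q + 2) := by gcongr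
      _ = _ := by rw [pow_succ (1 + L * |y|) (3 * q + 2)]; ring
  have ho : Osc z T y + Osc z (2 * T) y ≤ 2 * C1 * 3 ^ q * (1 + |y|) ^ (3 * q) := by
    have a1 := h1 T y hT0.le
    have a2 := h1 (2 * T) y (by linarith)
    have a3 : (1 + 2 * T) ^ q ≤ 3 ^ q * (1 + |y|) ^ (2 * q) := by
      rw [pow_mul, ← mul_pow]
      gcongr
      nlinarith
    have a4 : (1 + T) ^ q ≤ (1 + 2 * T) ^ q := by gcongr; linarith
    calc Osc z T y + Osc z (2 * T) y ≤ C1 * (1 + 2 * T) ^ q * (1 + |y|) ^ q + C1 * (1 + 2 * T) ^ q * (1 + |y|) ^ q := by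
          refine add_le_add (a1.trans ?_) a2
          gcongr
      _ = 2 * C1 * (1 + 2 * T) ^ q * (1 + |y|) ^ q := by ring
      _ ≤ 2 * C1 * (3 ^ q * (1 + |y|) ^ (2 * q)) * (1 + |y|) ^ q := by gcongr
      _ = _ := by rw [show 3 * q = 2 * q + q by ring, pow_add]; ring
  have hon : 0 ≤ Osc z T y + Osc z (2 * T) y := add_nonneg (Osc_nonneg _ _ _) (Osc_nonneg _ _ _)
  calc ‖kp φ L y‖ * (Osc z T y + Osc z (2 * T) y) ≤
        (C2 * ((1 + |y|) ^ (3 * q + 2))⁻¹) * (2 * C1 * 3 ^ q * (1 + |y|) ^ (3 * q)) := by gcongr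
    _ = _ := by
        have : (1 + |y|) ≠ 0 := by positivity
        rw [pow_add]
        field_simp

/-- the remainder -/
def Rm (z : ℝ → ℂ) (T : ℝ) : ℝ := 1 + Osc z T (√T) + Osc z (2 * T) (√T)

lemma Rm_pos (z : ℝ → ℂ) (T : ℝ) : 1 ≤ Rm z T := by
  unfold Rm
  have := Osc_nonneg z T (√T)
  have := Osc_nonneg z (2 * T) (√T)
  linarith

lemma ofR2 {a b : ℝ} (ha : 0 ≤ a) (hb : 0 ≤ b) :
    ENNReal.ofReal (2 * a + 2 * b) = 2 * ENNReal.ofReal a + 2 * ENNReal.ofReal b := by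
  rw [ENNReal.ofReal_add (by positivity) (by positivity), ENNReal.ofReal_mul (by norm_num),
    ENNReal.ofReal_mul (by norm_num), ENNReal.ofReal_ofNat]

theorem win_conv (h : TS φ) (D : Dat z G u K) : ∃ C : ℝ, 0 ≤ C ∧ ∀ T : ℝ, Real.exp 1 ≤ T →
    ∫⁻ t, ‖(wd T t : ℂ) * KK (kp φ (Real.log T)) z t - KK (kp φ (Real.log T)) (f1 G T) t‖ₑ ^ 2 ≤
      ENNReal.ofReal (C * (Rm z T + (Om z T + Om z (2 * T)))) := by
  obtain ⟨C1, hC1, h1⟩ := f01 D
  obtain ⟨C2, hC2, h2⟩ := kp_mom h 0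
  obtain ⟨C3, hC3, h3⟩ := tail_pt h D
  set J : ℝ := ∫ y : ℝ, ((1 + |y|) ^ 2)⁻¹ with hJ
  have hJ0 : 0 ≤ J := integral_nonneg fun y => by positivity
  refine ⟨C2 * (2 * C2 + 2 * C2 * C1 + 2 * C3 * J), by positivity, fun T hT => ?_⟩
  have hT0 : 0 < T := (Real.exp_pos 1).trans_le hT
  have hT1 : 1 ≤ T := by have := Real.add_one_le_exp 1; linarith
  have hL : 1 ≤ Real.log T := by rwa [Real.le_log_iff_exp_le hT0]
  have hL0 : 0 < Real.log T := by linarith
  obtain ⟨i0, b0⟩ := h2 (Real.log T) hL0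
  simp only [pow_zero, mul_one, div_one] at i0 b0
  set L := Real.log T with hLd
  set κ := kp φ L with hκ
  have hOm1 : 0 ≤ Om z T := integral_nonneg fun t => by have := Wq_nonneg T t; positivity
  have hOm2 : 0 ≤ Om z (2 * T) := integral_nonneg fun t => by have := Wq_nonneg (2 * T) t; positivity
  have hO1 := Osc_nonneg z T (√T)
  have hO2 := Osc_nonneg z (2 * T) (√T)
  have hκn : ∫⁻ y, ‖κ y‖ₑ ≤ ENNReal.ofReal C2 := by
    rw [← ofReal_integral_norm_eq_lintegral_enorm ((integrable_norm_iff (kp_cont h L).aestronglyMeasurable).1 i0)]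
    exact ENNReal.ofReal_le_ofReal b0
  have e0 : ∀ t, (wd T t : ℂ) * KK κ z t - KK κ (f1 G T) t =
      ∫ y, κ y * ((wd T t : ℂ) * z (t + y) - f1 G T (t + y)) := by
    intro t
    unfold KK
    rw [← integral_const_mul, ← integral_sub ((kz_int h D hL0 t).const_mul _) (kf_int h hL0 (f1_dec D hT1) t)]
    refine integral_congr_ae (Eventually.of_forall fun y => ?_)
    simp only [hκ]
    ring
  simp_rw [e0]
  have hGm : Measurable (fun p : ℝ × ℝ => (wd T p.1 : ℂ) * z (p.1 + p.2) - f1 G T (p.1 + p.2)) := by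
    have a1 : Measurable (fun p : ℝ × ℝ => (wd T p.1 : ℂ)) :=
      Complex.measurable_ofReal.comp ((wd_meas T).comp measurable_fst)
    have a2 : Measurable (fun p : ℝ × ℝ => z (p.1 + p.2)) :=
      D.zc.measurable.comp (measurable_fst.add measurable_snd)
    have a3 : Measurable (fun p : ℝ × ℝ => f1 G T (p.1 + p.2)) :=
      (f1_dec D hT1).cont.measurable.comp (measurable_fst.add measurable_snd)
    exact (a1.mul a2).sub a3
  refine (cs_ineq (G := fun p : ℝ × ℝ => (wd T p.1 : ℂ) * z (p.1 + p.2) - f1 G T (p.1 + p.2))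
    (kp_cont h L).measurable hGm).trans ?_
  simp only
  have hS0 : 0 ≤ 2 * (Osc z T (√T) + Osc z (2 * T) (√T)) + 2 * (C1 * (Om z (2 * T) + Om z T)) := by positivity
  have hin : ∫⁻ y, ‖κ y‖ₑ * ∫⁻ t, ‖(wd T t : ℂ) * z (t + y) - f1 G T (t + y)‖ₑ ^ 2 ≤
      ENNReal.ofReal (C2 * (2 * (Osc z T (√T) + Osc z (2 * T) (√T)) + 2 * (C1 * (Om z (2 * T) + Om z T))) +
        2 * C3 * J) := by
    calc _ ≤ ∫⁻ y, ENNReal.ofReal (‖κ y‖ * (2 * (Osc z T (√T) + Osc z (2 * T) (√T)) +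
          2 * (C1 * (Om z (2 * T) + Om z T))) + 2 * C3 * ((1 + |y|) ^ 2)⁻¹) := by
          refine lintegral_mono fun y => ?_
          have w1 := win_shift D hT1 y
          have w2 : 2 * ENNReal.ofReal (Osc z T y + Osc z (2 * T) y) + 2 * ∫⁻ t, ‖f1 G T t - f0 z T t‖ₑ ^ 2 ≤
              ENNReal.ofReal (2 * (Osc z T y + Osc z (2 * T) y) + 2 * (C1 * (Om z (2 * T) + Om z T))) := by
            have n1 := add_nonneg (Osc_nonneg z T y) (Osc_nonneg z (2 * T) y)
            rw [ofR2 n1 (by positivity)]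
            gcongr
            exact h1 T hT1
          calc ‖κ y‖ₑ * ∫⁻ t, ‖(wd T t : ℂ) * z (t + y) - f1 G T (t + y)‖ₑ ^ 2 ≤
                ENNReal.ofReal ‖κ y‖ * ENNReal.ofReal (2 * (Osc z T y + Osc z (2 * T) y) +
                  2 * (C1 * (Om z (2 * T) + Om z T))) := by
                rw [ofReal_norm]
                gcongr
                exact w1.trans w2
            _ = ENNReal.ofReal (‖κ y‖ * (2 * (Osc z T y + Osc z (2 * T) y) +
                  2 * (C1 * (Om z (2 * T) + Om z T)))) := (ENNReal.ofReal_mul (norm_nonneg _)).symm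
            _ ≤ _ := by
                refine ENNReal.ofReal_le_ofReal ?_
                by_cases hy : |y| ≤ √T
                · have m1 : Osc z T y ≤ Osc z T (√T) := Osc_mono D T (by rwa [abs_of_nonneg (Real.sqrt_nonneg T)])
                  have m2 : Osc z (2 * T) y ≤ Osc z (2 * T) (√T) :=
                    Osc_mono D (2 * T) (by rwa [abs_of_nonneg (Real.sqrt_nonneg T)])
                  have m3 : 0 ≤ 2 * C3 * ((1 + |y|) ^ 2)⁻¹ := by positivity
                  have m4 : ‖κ y‖ * (2 * (Osc z T y + Osc z (2 * T) y) + 2 * (C1 * (Om z (2 * T) + Om z T))) ≤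
                      ‖κ y‖ * (2 * (Osc z T (√T) + Osc z (2 * T) (√T)) +
                      2 * (C1 * (Om z (2 * T) + Om z T))) := by gcongr
                  linarith
                · push Not at hy
                  have m1 := h3 T hT y hy
                  have m2 : 0 ≤ ‖κ y‖ * (2 * (Osc z T (√T) + Osc z (2 * T) (√T))) := by positivity
                  nlinarith
      _ ≤ _ := by
          rw [← ofReal_integral_eq_lintegral_ofReal]
          · refine ENNReal.ofReal_le_ofReal ?_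
            rw [integral_add (i0.mul_const _) (inv_sq_int.const_mul _), integral_mul_const, integral_const_mul]
            gcongr
          · exact iadd (i0.mul_const _) (inv_sq_int.const_mul _)
          · refine Eventually.of_forall fun y => ?_
            simp only [Pi.zero_apply]
            positivity
  refine (mul_le_mul' hκn hin).trans ?_
  rw [← ENNReal.ofReal_mul hC2]
  refine ENNReal.ofReal_le_ofReal ?_
  obtain ⟨R, hR⟩ : ∃ R, R = Rm z T + (Om z T + Om z (2 * T)) := ⟨_, rfl⟩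
  have r1 : Osc z T (√T) + Osc z (2 * T) (√T) ≤ R := by rw [hR]; unfold Rm; linarith
  have r2 : Om z (2 * T) + Om z T ≤ R := by rw [hR]; unfold Rm; linarith
  have r3 : 1 ≤ R := by rw [hR]; unfold Rm; linarith
  rw [← hR]
  have r4 : 2 * C3 * J ≤ 2 * C3 * J * R := le_mul_of_one_le_right (by positivity) r3
  calc C2 * (C2 * (2 * (Osc z T (√T) + Osc z (2 * T) (√T)) + 2 * (C1 * (Om z (2 * T) + Om z T))) + 2 * C3 * J) ≤
        C2 * (C2 * (2 * R + 2 * (C1 * R)) + 2 * C3 * J * R) := by gcongr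
    _ = _ := by ring

end

end Pool.Agent.K4H66.HL
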