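import Pool.Agent.K4H66.HL.D

set_option autoImplicit false

/-! The functional equation: the symmetry of the spectral measure. -/

namespace Pool.Agent.K4H66.HL

open Complex MeasureTheory Filter Topology Set Pool.Agent.TH535.SM Pool.Agent.K4H66.OL
open scoped ComplexConjugate FourierTransform ContDiff ENNReal Convolution

noncomputable section

/-- the phase of the functional equation -/
def th (v : ℝ) : ℝ := v * Real.log (v / (2 * Real.pi)) - v - Real.pi / 4

lemma th_deriv {v : ℝ} (hv : 0 < v) : HasDerivAt th (Real.log (v / (2 * Real.pi))) v := by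
  have hp := Real.pi_pos
  have h1 : HasDerivAt (fun v : ℝ => v / (2 * Real.pi)) (1 / (2 * Real.pi)) v := (hasDerivAt_id v).div_const _
  have h2 := h1.log (by positivity)
  have h3 := ((hasDerivAt_id v).mul h2).sub (hasDerivAt_id v)
  have h4 := h3.sub_const (Real.pi / 4)
  refine (h4.congr_deriv ?_)
  simp only [id]
  field_simp
  ring

lemma th_lip {T : ℝ} (hT : 0 < T) {s t : ℝ} (hs : s ∈ Icc (T / 2) (3 * T)) (ht : t ∈ Icc (T / 2) (3 * T)) :
    |th s - th t - Real.log T * (s - t)| ≤ 3 * |s - t| := by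
  have hp := Real.pi_pos
  have hp3 := Real.pi_gt_three
  have hp4 := Real.pi_lt_four
  have hd : ∀ x ∈ Icc (T / 2) (3 * T), HasDerivWithinAt (fun x => th x - Real.log T * x)
      (Real.log (x / (2 * Real.pi)) - Real.log T) (Icc (T / 2) (3 * T)) x := by
    intro x hx
    have hx0 : 0 < x := by linarith [hx.1]
    have h1 := (th_deriv hx0).sub ((hasDerivAt_id x).const_mul (Real.log T))
    rw [mul_one] at h1
    exact h1.hasDerivWithinAt
  have hb : ∀ x ∈ Icc (T / 2) (3 * T), ‖Real.log (x / (2 * Real.pi)) - Real.log T‖ ≤ 3 := by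
    intro x hx
    have hx0 : 0 < x := by linarith [hx.1]
    rw [← Real.log_div (by positivity) hT.ne', Real.norm_eq_abs, abs_le]
    have e3 : (2.7182818283:ℝ) < Real.exp 1 := Real.exp_one_gt_d9
    constructor
    · rw [Real.le_log_iff_exp_le (by positivity), Real.exp_neg]
      have h1 : Real.exp 3 = Real.exp 1 ^ 3 := by rw [← Real.exp_nat_mul]; norm_num
      rw [h1, inv_le_comm₀ (by positivity) (by positivity), div_div, inv_div, div_le_iff₀ hx0]
      have h2 : (16:ℝ) ≤ Real.exp 1 ^ 3 := by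
        calc (16:ℝ) ≤ 2.7182818283 ^ 3 := by norm_num
          _ ≤ _ := by gcongr
      have h3 : 2 * Real.pi * T ≤ 16 * x := by nlinarith [hx.1]
      nlinarith
    · refine (Real.log_le_sub_one_of_pos (by positivity)).trans ?_
      rw [sub_le_iff_le_add, div_div, div_le_iff₀ (by positivity)]
      nlinarith [hx.2]
  have h := Convex.norm_image_sub_le_of_norm_hasDerivWithin_le hd hb (convex_Icc _ _) ht hs
  rw [Real.norm_eq_abs, Real.norm_eq_abs] at h
  refine le_of_eq_of_le ?_ h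
  congr 1
  ring

lemma XX_line {v : ℝ} (hv : 4 ≤ v) : ∃ e : ℂ, ‖e‖ ≤ 12 / v ∧
    W182.KO.XX (1 / 2 + v * I) = cexp ((th v : ℝ) * I) * (1 + e) := by
  obtain ⟨e, he, h⟩ := W182.KO.XX_asymp (c := 1) (σ := 1 / 2) (v := v) le_rfl le_rfl (by norm_num) (by linarith)
  refine ⟨e, by simpa using he, ?_⟩
  have e1 : (((1 / 2 : ℝ) : ℂ) + v * I) = 1 / 2 + v * I := by push_cast; ring
  rw [e1] at h
  rw [h]
  congr 2
  unfold W182.KO.Mx th
  simp

lemma zr_conj (k : ℕ) (v : ℝ) : conj (zr k 0 v) = W182.KO.XX (1 / 2 + v * I) ^ k * zr k 0 v := by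
  unfold zr
  rw [map_pow, ← mul_pow]
  congr 1
  have e1 : (((1 / 2 + 0 : ℝ) : ℂ) + v * I) = 1 / 2 + v * I := by push_cast; ring
  rw [e1, ← W182.KO.zeta_XX (by simp) (line_ne v), ← riemannZeta_conj]
  congr 1
  simp only [map_add, map_mul, Complex.conj_I, Complex.conj_ofReal]
  have : conj (1 / 2 : ℂ) = 1 / 2 := by
    have h : (1 / 2 : ℂ) = ((1 / 2 : ℝ) : ℂ) := by push_cast; ring
    rw [h, Complex.conj_ofReal]
  rw [this]
  ring

lemma pow_one_add (k : ℕ) {e : ℂ} (he : ‖e‖ ≤ 3) : ‖(1 + e) ^ k - 1‖ ≤ k * 4 ^ k * ‖e‖ := by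
  have h := mul_geom_sum (1 + e) k
  rw [← h, add_sub_cancel_left, norm_mul, mul_comm]
  refine mul_le_mul_of_nonneg_right ?_ (norm_nonneg _)
  refine (norm_sum_le _ _).trans ?_
  calc ∑ i ∈ Finset.range k, ‖(1 + e) ^ i‖ ≤ ∑ i ∈ Finset.range k, (4:ℝ) ^ k := by
        refine Finset.sum_le_sum fun i hi => ?_
        rw [norm_pow]
        have h1 : ‖1 + e‖ ≤ 4 := by
          refine (norm_add_le _ _).trans ?_
          rw [norm_one]; linarith
        calc ‖1 + e‖ ^ i ≤ 4 ^ i := by gcongr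
          _ ≤ 4 ^ k := pow_le_pow_right₀ (by norm_num) (Finset.mem_range.1 hi).le
    _ = _ := by simp

/-- the unimodular factor -/
def ct (k : ℕ) (T t : ℝ) : ℂ := if t ∈ Icc (T / 2) (3 * T) then cexp ((k * th t : ℝ) * I) else 1

lemma ct_norm (k : ℕ) (T t : ℝ) : ‖ct k T t‖ = 1 := by
  unfold ct
  split_ifs
  · exact Complex.norm_exp_ofReal_mul_I _
  · simp

lemma th_meas : Measurable th := by
  unfold th
  exact ((measurable_id.mul (Real.measurable_log.comp (measurable_id.div_const _))).sub measurable_id).sub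
    measurable_const

lemma ct_meas (k : ℕ) (T : ℝ) : Measurable (ct k T) := by
  unfold ct
  refine Measurable.ite measurableSet_Icc ?_ measurable_const
  exact Complex.measurable_exp.comp ((Complex.measurable_ofReal.comp (th_meas.const_mul _)).mul_const I)

lemma exp_lip (a b : ℝ) : ‖cexp ((a : ℂ) * I) - cexp ((b : ℂ) * I)‖ ≤ |a - b| := by
  have e : cexp ((a : ℂ) * I) - cexp ((b : ℂ) * I) = cexp ((b : ℂ) * I) * (cexp (I * ((a - b : ℝ) : ℂ)) - 1) := by
    rw [mul_sub, ← Complex.exp_add, mul_one]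
    congr 2
    push_cast
    ring
  rw [e, norm_mul, Complex.norm_exp_ofReal_mul_I, one_mul]
  have := Real.norm_exp_I_mul_ofReal_sub_one_le (x := a - b)
  simpa using this

lemma mult_close (k : ℕ) : ∃ C : ℝ, 0 ≤ C ∧ ∀ T : ℝ, 4 ≤ T → ∀ t y : ℝ, t + y ∈ Ioc T (2 * T) →
    ‖cexp (((-(k * Real.log T * y) : ℝ) : ℂ) * I) * W182.KO.XX (1 / 2 + ((t + y : ℝ) : ℂ) * I) ^ k - ct k T t‖ ≤
      C * (|y| + 1 / T) := by
  refine ⟨3 * k + 12 * (k * 4 ^ k) + (k * 4 ^ k * 3 + 2), by positivity, fun T hT t y hty => ?_⟩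
  have hT0 : 0 < T := by linarith
  obtain ⟨v, hv⟩ : ∃ v, v = t + y := ⟨_, rfl⟩
  rw [← hv] at hty ⊢
  have hv4 : 4 ≤ v := by linarith [hty.1]
  have hv0 : 0 < v := by linarith
  obtain ⟨e, he, hX⟩ := XX_line hv4
  have he3 : ‖e‖ ≤ 3 := by
    refine he.trans ?_
    rw [div_le_iff₀ hv0]; linarith
  have heT : ‖e‖ ≤ 12 * (1 / T) := by
    refine he.trans ?_
    rw [mul_one_div]
    gcongr
    exact hty.1.le
  have hpk := pow_one_add k he3
  have hk0 : (0:ℝ) ≤ k := Nat.cast_nonneg k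
  rw [hX, mul_pow, ← Complex.exp_nat_mul]
  have e1 : cexp (((-(k * Real.log T * y) : ℝ) : ℂ) * I) * (cexp ((k : ℂ) * (((th v : ℝ) : ℂ) * I)) * (1 + e) ^ k) =
      cexp (((k * th v - k * Real.log T * y : ℝ) : ℂ) * I) +
        cexp (((k * th v - k * Real.log T * y : ℝ) : ℂ) * I) * ((1 + e) ^ k - 1) := by
    rw [← mul_assoc, ← Complex.exp_add]
    have : (((-(k * Real.log T * y) : ℝ) : ℂ) * I + (k : ℂ) * (((th v : ℝ) : ℂ) * I)) =
        ((k * th v - k * Real.log T * y : ℝ) : ℂ) * I := by push_cast; ring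
    rw [this]
    ring
  rw [e1, add_sub_right_comm]
  refine (norm_add_le _ _).trans ?_
  rw [norm_mul, Complex.norm_exp_ofReal_mul_I, one_mul]
  have hTi : 0 ≤ 1 / T := by positivity
  have hy := abs_nonneg y
  have h2 : ‖(1 + e) ^ k - 1‖ ≤ 12 * (k * 4 ^ k) * (1 / T) := by
    refine hpk.trans ?_
    calc k * 4 ^ k * ‖e‖ ≤ k * 4 ^ k * (12 * (1 / T)) := by gcongr
      _ = _ := by ring
  have hkk : (0:ℝ) ≤ k * 4 ^ k := by positivity
  by_cases hc : t ∈ Icc (T / 2) (3 * T)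
  · have h1 : ‖cexp (((k * th v - k * Real.log T * y : ℝ) : ℂ) * I) - ct k T t‖ ≤ 3 * k * |y| := by
      unfold ct
      rw [if_pos hc]
      refine (exp_lip _ _).trans ?_
      have h3 := th_lip hT0 (s := v) (t := t) ⟨by linarith [hty.1], by linarith [hty.2]⟩ hc
      have e2 : v - t = y := by rw [hv]; ring
      rw [e2] at h3
      have e3 : k * th v - k * Real.log T * y - k * th t = k * (th v - th t - Real.log T * y) := by ring
      rw [e3, abs_mul, abs_of_nonneg hk0]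
      nlinarith
    have a1 : 0 ≤ 3 * (k:ℝ) * (1 / T) := by positivity
    have a2 : 0 ≤ 12 * ((k:ℝ) * 4 ^ k) * |y| := by positivity
    have a3 : 0 ≤ ((k:ℝ) * 4 ^ k * 3 + 2) * (|y| + 1 / T) := by positivity
    nlinarith
  · have h1 : ‖cexp (((k * th v - k * Real.log T * y : ℝ) : ℂ) * I) - ct k T t‖ ≤ 2 := by
      refine (norm_sub_le _ _).trans ?_
      rw [Complex.norm_exp_ofReal_mul_I, ct_norm]; norm_num
    have h3 : 1 ≤ |y| := by
      by_contra hlt
      push Not at hlt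
      apply hc
      have := abs_lt.1 hlt
      constructor
      · linarith [hty.1, this.2]
      · linarith [hty.2, this.1]
    have a1 : 0 ≤ (3 * (k:ℝ)) * (|y| + 1 / T) := by positivity
    have a2 : 0 ≤ 12 * ((k:ℝ) * 4 ^ k) * |y| := by positivity
    have a3 : 0 ≤ ((k:ℝ) * 4 ^ k * 3) * (|y| + 1 / T) := by positivity
    nlinarith

end

end Pool.Agent.K4H66.HL
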