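import Pool.Agent.K4H66.HL.E

set_option autoImplicit false

/-! The symmetry of the spectral measure, integrated. -/

namespace Pool.Agent.K4H66.HL

open Complex MeasureTheory Filter Topology Set Pool.Agent.TH535.SM Pool.Agent.K4H66.OL
open scoped ComplexConjugate FourierTransform ContDiff ENNReal Convolution

noncomputable section

variable {φ : ℝ → ℂ} {G : ℂ → ℂ} {u K : ℕ}

lemma f0_conj (k : ℕ) (T s : ℝ) : conj (f0 (zr k 0) T s) =
    W182.KO.XX (1 / 2 + s * I) ^ k * f0 (zr k 0) T s := by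
  unfold f0
  rw [map_mul, Complex.conj_ofReal, zr_conj]
  ring

lemma f0_mass {z : ℝ → ℂ} (D : Dat z G u K) {T : ℝ} (hT : 0 ≤ T) :
    ∫⁻ t, ‖f0 z T t‖ₑ ^ 2 = ENNReal.ofReal (M z (2 * T) - M z T) := by
  have hi : Integrable ((Ioc T (2 * T)).indicator (fun s => ‖z s‖ ^ 2)) :=
    (integrable_indicator_iff measurableSet_Ioc).2
      ((D.sc.continuousOn.integrableOn_Icc (a := T) (b := 2 * T)).mono_set Ioc_subset_Icc_self)
  have e : M z (2 * T) - M z T = ∫ s, (Ioc T (2 * T)).indicator (fun s => ‖z s‖ ^ 2) s := by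
    rw [integral_indicator measurableSet_Ioc, ← intervalIntegral.integral_of_le (by linarith)]
    unfold M
    rw [intervalIntegral.integral_interval_sub_left (D.sc.intervalIntegrable _ _) (D.sc.intervalIntegrable _ _)]
  rw [e, ofReal_integral_eq_lintegral_ofReal hi]
  · refine lintegral_congr fun s => ?_
    rw [en_sq]
    congr 1
    unfold f0
    by_cases hs : s ∈ Ioc T (2 * T)
    · rw [indicator_of_mem hs, wd_mem hT hs]; simp
    · rw [indicator_of_notMem hs, wd_not hT hs]; simp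
  · exact Eventually.of_forall fun s => indicator_nonneg (fun _ _ => by positivity) s

theorem sym_conv (h : TS φ) (k : ℕ) (D : Dat (zr k 0) G u K) : ∃ C : ℝ, 0 ≤ C ∧ ∀ T : ℝ, 4 ≤ T →
    ∫⁻ t, ‖conj (KK (kp φ (Real.log T)) (f1 G T) t) - ct k T t * KK (kp (rf k φ) (Real.log T)) (f1 G T) t‖ₑ ^ 2 ≤
      ENNReal.ofReal (C * ((Om (zr k 0) T + Om (zr k 0) (2 * T)) +
        (M (zr k 0) (2 * T) - M (zr k 0) T) / Real.log T ^ 2)) := by
  have h' := rf_TS h k
  obtain ⟨C1, hC1, h1⟩ := f01 D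
  obtain ⟨C2, hC2, h2⟩ := kp_mom h' 0
  obtain ⟨C3, hC3, h3⟩ := kp_mom h' 2
  obtain ⟨C4, hC4, h4⟩ := mult_close k
  refine ⟨C2 * (C2 * (8 * C1) + 4 * C4 ^ 2 * (C3 + C2)), by positivity, fun T hT => ?_⟩
  have hT0 : 0 < T := by linarith
  have hT1 : 1 ≤ T := by linarith
  have hL : 1 ≤ Real.log T := by
    rw [Real.le_log_iff_exp_le hT0]
    have := Real.exp_one_lt_d9
    linarith
  have hL0 : 0 < Real.log T := by linarith
  have hLT : Real.log T ≤ T := by have := Real.log_le_sub_one_of_pos hT0; linarith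
  obtain ⟨i0, b0⟩ := h2 (Real.log T) hL0
  obtain ⟨i2, b2⟩ := h3 (Real.log T) hL0
  simp only [pow_zero, mul_one, div_one] at i0 b0
  set L := Real.log T with hLd
  set κ := kp (rf k φ) L with hκ
  set z := zr k 0 with hz
  have hOm1 : 0 ≤ Om z T := integral_nonneg fun t => by have := Wq_nonneg T t; positivity
  have hOm2 : 0 ≤ Om z (2 * T) := integral_nonneg fun t => by have := Wq_nonneg (2 * T) t; positivity
  have hMd : 0 ≤ M z (2 * T) - M z T := by
    have := M_mono D (show T ≤ 2 * T by linarith)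
    linarith
  have hκn : ∫⁻ y, ‖κ y‖ₑ ≤ ENNReal.ofReal C2 := by
    rw [← ofReal_integral_norm_eq_lintegral_enorm ((integrable_norm_iff (kp_cont h' L).aestronglyMeasurable).1 i0)]
    exact ENNReal.ofReal_le_ofReal b0
  set ph : ℝ → ℂ := fun y => cexp (((-(k * L * y) : ℝ) : ℂ) * I) with hph
  have hphn : ∀ y, ‖ph y‖ = 1 := fun y => Complex.norm_exp_ofReal_mul_I _
  have hkc : ∀ y, conj (kp φ L y) = κ y * ph y := by
    intro y
    rw [hκ, kp_rf, hph]
    simp only
    rw [mul_right_comm, ← Complex.exp_add]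
    have : (((k * L * y : ℝ) : ℂ) * I + ((-(k * L * y) : ℝ) : ℂ) * I) = 0 := by push_cast; ring
    rw [this, Complex.exp_zero, one_mul]
  have e0 : ∀ t, conj (KK (kp φ L) (f1 G T) t) - ct k T t * KK κ (f1 G T) t =
      ∫ y, κ y * (ph y * conj (f1 G T (t + y)) - ct k T t * f1 G T (t + y)) := by
    intro t
    unfold KK
    rw [← integral_conj, ← integral_const_mul]
    have j1 : Integrable (fun y => conj (kp φ L y * f1 G T (t + y))) :=
      (kf_int h hL0 (f1_dec D hT1) t).norm.mono'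
        (Complex.continuous_conj.comp ((kp_cont h L).mul ((f1_dec D hT1).cont.comp (by fun_prop)))).aestronglyMeasurable
        (Eventually.of_forall fun y => by rw [RCLike.norm_conj])
    rw [← integral_sub j1 ((kf_int h' hL0 (f1_dec D hT1) t).const_mul _)]
    refine integral_congr_ae (Eventually.of_forall fun y => ?_)
    simp only
    rw [map_mul, hkc]
    ring
  simp_rw [e0]
  have hf1m := (f1_dec D hT1).cont.measurable
  have hGm : Measurable (fun p : ℝ × ℝ => ph p.2 * conj (f1 G T (p.1 + p.2)) - ct k T p.1 * f1 G T (p.1 + p.2)) := by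
    have a1 : Measurable (fun p : ℝ × ℝ => ph p.2) := by
      have : Continuous ph := by rw [hph]; fun_prop
      exact this.measurable.comp measurable_snd
    have a2 : Measurable (fun p : ℝ × ℝ => f1 G T (p.1 + p.2)) :=
      hf1m.comp (measurable_fst.add measurable_snd)
    exact (a1.mul (Complex.continuous_conj.measurable.comp a2)).sub (((ct_meas k T).comp measurable_fst).mul a2)
  refine (cs_ineq (G := fun p : ℝ × ℝ => ph p.2 * conj (f1 G T (p.1 + p.2)) - ct k T p.1 * f1 G T (p.1 + p.2))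
    (kp_cont h' L).measurable hGm).trans ?_
  simp only
  -- pointwise bound
  have hpt : ∀ t y : ℝ, ‖ph y * conj (f1 G T (t + y)) - ct k T t * f1 G T (t + y)‖ ^ 2 ≤
      8 * ‖f1 G T (t + y) - f0 z T (t + y)‖ ^ 2 + 2 * (C4 * (|y| + 1 / T)) ^ 2 * ‖f0 z T (t + y)‖ ^ 2 := by
    intro t y
    set s := t + y with hs
    have b1 : ‖ph y * conj (f0 z T s) - ct k T t * f0 z T s‖ ≤ C4 * (|y| + 1 / T) * ‖f0 z T s‖ := by
      by_cases hw : s ∈ Ioc T (2 * T)
      · rw [f0_conj, ← mul_assoc, ← sub_mul, norm_mul]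
        refine mul_le_mul_of_nonneg_right ?_ (norm_nonneg _)
        exact h4 T hT t y hw
      · have : f0 z T s = 0 := by unfold f0; rw [wd_not hT0.le hw]; simp
        rw [this]; simp
    have e1 : ph y * conj (f1 G T s) - ct k T t * f1 G T s =
        (ph y * conj (f1 G T s - f0 z T s) - ct k T t * (f1 G T s - f0 z T s)) +
        (ph y * conj (f0 z T s) - ct k T t * f0 z T s) := by
      rw [map_sub]; ring
    have b2 : ‖ph y * conj (f1 G T s - f0 z T s) - ct k T t * (f1 G T s - f0 z T s)‖ ≤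
        2 * ‖f1 G T s - f0 z T s‖ := by
      refine (norm_sub_le _ _).trans ?_
      rw [norm_mul, norm_mul, hphn, ct_norm, RCLike.norm_conj]
      linarith
    have b3 := norm_add_le (ph y * conj (f1 G T s - f0 z T s) - ct k T t * (f1 G T s - f0 z T s))
      (ph y * conj (f0 z T s) - ct k T t * f0 z T s)
    rw [← e1] at b3
    have b4 : ‖ph y * conj (f1 G T s) - ct k T t * f1 G T s‖ ≤ 2 * ‖f1 G T s - f0 z T s‖ +
        C4 * (|y| + 1 / T) * ‖f0 z T s‖ := by linarith
    refine (pow_le_pow_left₀ (norm_nonneg _) b4 2).trans ?_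
    nlinarith [sq_nonneg (2 * ‖f1 G T s - f0 z T s‖ - C4 * (|y| + 1 / T) * ‖f0 z T s‖)]
  have hin1 : ∀ y : ℝ, ∫⁻ t, ‖ph y * conj (f1 G T (t + y)) - ct k T t * f1 G T (t + y)‖ₑ ^ 2 ≤
      ENNReal.ofReal (8 * (C1 * (Om z (2 * T) + Om z T)) + 2 * (C4 * (|y| + 1 / T)) ^ 2 * (M z (2 * T) - M z T)) := by
    intro y
    have hf0m := f0_meas D T
    calc _ ≤ ∫⁻ t, (ENNReal.ofReal 8 * ‖f1 G T (t + y) - f0 z T (t + y)‖ₑ ^ 2 +
          ENNReal.ofReal (2 * (C4 * (|y| + 1 / T)) ^ 2) * ‖f0 z T (t + y)‖ₑ ^ 2) := by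
          refine lintegral_mono fun t => ?_
          rw [en_sq, en_sq, en_sq, ← ENNReal.ofReal_mul (by norm_num), ← ENNReal.ofReal_mul (by positivity),
            ← ENNReal.ofReal_add (by positivity) (by positivity)]
          exact ENNReal.ofReal_le_ofReal (hpt t y)
      _ = ENNReal.ofReal 8 * (∫⁻ t, ‖f1 G T (t + y) - f0 z T (t + y)‖ₑ ^ 2) +
          ENNReal.ofReal (2 * (C4 * (|y| + 1 / T)) ^ 2) * ∫⁻ t, ‖f0 z T (t + y)‖ₑ ^ 2 := by
          rw [lintegral_add_left, lintegral_const_mul, lintegral_const_mul]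
          · exact (hf0m.comp (measurable_add_const y)).enorm.pow_const 2
          · exact ((hf1m.sub hf0m).comp (measurable_add_const y)).enorm.pow_const 2
          · exact (((hf1m.sub hf0m).comp (measurable_add_const y)).enorm.pow_const 2).const_mul _
      _ = ENNReal.ofReal 8 * (∫⁻ t, ‖f1 G T t - f0 z T t‖ₑ ^ 2) +
          ENNReal.ofReal (2 * (C4 * (|y| + 1 / T)) ^ 2) * ∫⁻ t, ‖f0 z T t‖ₑ ^ 2 := by
          rw [lintegral_add_right_eq_self (μ := volume) (fun t : ℝ => ‖f1 G T t - f0 z T t‖ₑ ^ 2) y,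
            lintegral_add_right_eq_self (μ := volume) (fun t : ℝ => ‖f0 z T t‖ₑ ^ 2) y]
      _ ≤ _ := by
          rw [f0_mass D hT0.le, ENNReal.ofReal_add (by positivity) (by positivity),
            ENNReal.ofReal_mul (p := 8) (by norm_num), ENNReal.ofReal_mul (p := 2 * (C4 * (|y| + 1 / T)) ^ 2) (by positivity)]
          gcongr
          exact h1 T hT1
  have hin : ∫⁻ y, ‖κ y‖ₑ * ∫⁻ t, ‖ph y * conj (f1 G T (t + y)) - ct k T t * f1 G T (t + y)‖ₑ ^ 2 ≤
      ENNReal.ofReal (C2 * (8 * (C1 * (Om z (2 * T) + Om z T))) +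
        4 * C4 ^ 2 * (M z (2 * T) - M z T) * (C3 / L ^ 2 + C2 / L ^ 2)) := by
    calc _ ≤ ∫⁻ y, ENNReal.ofReal (‖κ y‖ * (8 * (C1 * (Om z (2 * T) + Om z T))) +
          4 * C4 ^ 2 * (M z (2 * T) - M z T) * (‖κ y‖ * |y| ^ 2 + ‖κ y‖ * (1 / L ^ 2))) := by
          refine lintegral_mono fun y => ?_
          calc ‖κ y‖ₑ * ∫⁻ t, ‖ph y * conj (f1 G T (t + y)) - ct k T t * f1 G T (t + y)‖ₑ ^ 2 ≤
                ENNReal.ofReal ‖κ y‖ * ENNReal.ofReal (8 * (C1 * (Om z (2 * T) + Om z T)) +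
                  2 * (C4 * (|y| + 1 / T)) ^ 2 * (M z (2 * T) - M z T)) := by
                rw [ofReal_norm]
                gcongr
                exact hin1 y
            _ = ENNReal.ofReal (‖κ y‖ * (8 * (C1 * (Om z (2 * T) + Om z T)) +
                  2 * (C4 * (|y| + 1 / T)) ^ 2 * (M z (2 * T) - M z T))) := (ENNReal.ofReal_mul (norm_nonneg _)).symm
            _ ≤ _ := by
                refine ENNReal.ofReal_le_ofReal ?_
                have q1 : 1 / T ≤ 1 / L := one_div_le_one_div_of_le hL0 hLT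
                have q2 : (|y| + 1 / T) ^ 2 ≤ 2 * (|y| ^ 2 + 1 / L ^ 2) := by
                  have q3 : (|y| + 1 / T) ^ 2 ≤ (|y| + 1 / L) ^ 2 := by gcongr
                  have q4 : 1 / L ^ 2 = (1 / L) ^ 2 := by rw [div_pow, one_pow]
                  rw [q4]
                  nlinarith [sq_nonneg (|y| - 1 / L)]
                have q5 : 2 * (C4 * (|y| + 1 / T)) ^ 2 ≤ 4 * C4 ^ 2 * (|y| ^ 2 + 1 / L ^ 2) := by
                  rw [mul_pow]
                  nlinarith [sq_nonneg C4]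
                calc ‖κ y‖ * (8 * (C1 * (Om z (2 * T) + Om z T)) +
                      2 * (C4 * (|y| + 1 / T)) ^ 2 * (M z (2 * T) - M z T)) ≤
                      ‖κ y‖ * (8 * (C1 * (Om z (2 * T) + Om z T)) +
                      4 * C4 ^ 2 * (|y| ^ 2 + 1 / L ^ 2) * (M z (2 * T) - M z T)) := by gcongr
                  _ = _ := by ring
      _ ≤ _ := by
          rw [← ofReal_integral_eq_lintegral_ofReal]
          · refine ENNReal.ofReal_le_ofReal ?_
            rw [integral_add (i0.mul_const _) ((iadd i2 (i0.mul_const _)).const_mul _), integral_mul_const,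
              integral_const_mul, integral_add i2 (i0.mul_const _), integral_mul_const]
            have : (∫ y, ‖κ y‖) * (1 / L ^ 2) ≤ C2 / L ^ 2 := by
              rw [mul_one_div]; gcongr
            gcongr
          · exact iadd (i0.mul_const _) ((iadd i2 (i0.mul_const _)).const_mul _)
          · refine Eventually.of_forall fun y => ?_
            simp only [Pi.zero_apply]
            positivity
  refine (mul_le_mul' hκn hin).trans ?_
  rw [← ENNReal.ofReal_mul hC2]
  refine ENNReal.ofReal_le_ofReal ?_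
  have f1' : 0 ≤ (M z (2 * T) - M z T) / L ^ 2 := by positivity
  have f2' : 4 * C4 ^ 2 * (M z (2 * T) - M z T) * (C3 / L ^ 2 + C2 / L ^ 2) =
      4 * C4 ^ 2 * (C3 + C2) * ((M z (2 * T) - M z T) / L ^ 2) := by
    field_simp
  rw [f2']
  have f3' : 0 ≤ C2 * (8 * C1) := by positivity
  have f4' : 0 ≤ 4 * C4 ^ 2 * (C3 + C2) := by positivity
  have f5' : C2 * (8 * (C1 * (Om z (2 * T) + Om z T))) = C2 * (8 * C1) * (Om z T + Om z (2 * T)) := by ring
  rw [f5', mul_assoc C2 (C2 * (8 * C1) + _)]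
  refine mul_le_mul_of_nonneg_left ?_ hC2
  have f6 : 0 ≤ Om z T + Om z (2 * T) := by linarith
  nlinarith [mul_nonneg f3' f1', mul_nonneg f4' f6]

end

end Pool.Agent.K4H66.HL
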