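import Pool.Agent.K4H66.HL.F

set_option autoImplicit false

/-! The smooth Dirichlet polynomial. -/

namespace Pool.Agent.K4H66.HL

open Complex MeasureTheory Filter Topology Set Pool.Agent.TH535.SM Pool.Agent.K4H66.OL
open scoped ComplexConjugate FourierTransform ContDiff ENNReal Convolution

noncomputable section

variable {φ : ℝ → ℂ}

/-- the smooth Dirichlet polynomial -/
def DP (φ : ℝ → ℂ) (k : ℕ) (T t : ℝ) : ℂ :=
  ∑' n : ℕ, (W182.KO.dk k n : ℂ) * φ (Real.log n / Real.log T) * (n : ℂ) ^ (-(1 / 2 + I * t) : ℂ)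

lemma dk_zero (k : ℕ) : W182.KO.dk k 0 = 0 := by
  have h := W182.KO.tau_zero (k := k) (fun _ => (0:ℂ))
  rw [W182.KO.tau_dk] at h
  exact_mod_cast h

lemma DP_sum {X : ℝ} (hX : W182.KO.TF X φ) (k : ℕ) {T : ℝ} (hT : 1 < T) : ∃ N : ℕ, ∀ t : ℝ,
    DP φ k T t = ∑ n ∈ Finset.range N,
      (W182.KO.dk k n : ℂ) * φ (Real.log n / Real.log T) * (n : ℂ) ^ (-(1 / 2 + I * t) : ℂ) := by
  have hL : 0 < Real.log T := Real.log_pos hT
  refine ⟨⌈Real.exp (X * Real.log T)⌉₊ + 1, fun t => ?_⟩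
  refine tsum_eq_sum fun n hn => ?_
  rw [Finset.mem_range, not_lt] at hn
  have h1 : Real.exp (X * Real.log T) < n := by
    refine (Nat.le_ceil _).trans_lt ?_
    exact_mod_cast hn
  have hn0 : (0:ℝ) < n := (Real.exp_pos _).trans h1
  have h2 : X * Real.log T < Real.log n := (Real.lt_log_iff_exp_lt hn0).2 h1
  rw [hX.sp _ ((lt_div_iff₀ hL).2 h2)]
  simp

lemma DP_cont (h : TS φ) (k : ℕ) {T : ℝ} (hT : 1 < T) : Continuous (DP φ k T) := by
  obtain ⟨X, -, hX⟩ := h.tf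
  obtain ⟨N, hN⟩ := DP_sum hX k hT
  rw [show DP φ k T = fun t : ℝ => ∑ n ∈ Finset.range N,
      (W182.KO.dk k n : ℂ) * φ (Real.log n / Real.log T) * (n : ℂ) ^ (-(1 / 2 + I * t) : ℂ) from funext hN]
  refine continuous_finsetSum _ fun n _ => ?_
  rcases Nat.eq_zero_or_pos n with h0 | h0
  · subst h0
    simp only [dk_zero, Nat.cast_zero, zero_mul]
    exact continuous_const
  · refine continuous_const.mul (Continuous.const_cpow (by fun_prop) (Or.inl ?_))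
    exact_mod_cast h0.ne'

lemma tau_fin0 (n : ℕ) (w : Fin 0 → ℂ) : W182.KO.tau w n = if n = 1 then 1 else 0 := by
  unfold W182.KO.tau
  split_ifs with h
  · subst h
    rw [Nat.finMulAntidiag_one]
    simp
  · rw [Nat.finMulAntidiag_zero_left h]
    simp

/-- the polynomial is the integral on the far line -/
lemma DP_K0 {X : ℝ} (hX : W182.KO.TF X φ) (k : ℕ) {κ : ℝ} (hκ : 0 < κ) {T : ℝ} (hT : Real.exp 1 ≤ T) (t : ℝ) :
    ((Real.log T / (2 * Real.pi) : ℝ) : ℂ) * W182.KO.K0 φ (W182.KO.ZP (fun _ : Fin k => (0:ℝ)))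
      (W182.KO.ZP (fun _ : Fin 0 => (0:ℝ))) (1 + 4 * κ) (Real.log T) t = DP φ k T t := by
  have hT0 : 0 < T := (Real.exp_pos 1).trans_le hT
  have hL : 1 ≤ Real.log T := by rwa [Real.le_log_iff_exp_le hT0]
  set L := Real.log T with hLd
  have hL0 : 0 < L := by linarith
  have hp := Real.pi_pos
  obtain ⟨D1, hD1, h1⟩ := W182.KO.tau_ptw k hκ
  obtain ⟨D2, hD2, h2⟩ := W182.KO.tau_ptw 0 hκ
  have E1 := W182.KO.ZP_DD (fun _ : Fin k => (0:ℝ)) hκ (h1 _)
  have E2 := W182.KO.ZP_DD (fun _ : Fin 0 => (0:ℝ)) hκ (h2 _)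
  have hs := W182.KO.K0_hasSum hX hκ E1 E2 hL t
  have hg : Function.Injective (fun n : ℕ => ((n, 1) : ℕ × ℕ)) := by
    intro a b h; simpa using h
  have hs2 := (Function.Injective.hasSum_iff hg (fun x hx => by
    have hx1 : x.2 ≠ 1 := by
      intro h; exact hx ⟨x.1, by rw [← h]⟩
    rw [W182.KO.aa_eq hX hκ E1 E2 hL]
    unfold W182.KO.tt
    rw [tau_fin0 x.2, if_neg hx1]
    simp)).2 hs
  have hs3 := hs2.mul_left ((L / (2 * Real.pi) : ℝ) : ℂ)
  rw [← hs3.tsum_eq]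
  unfold DP
  refine tsum_congr fun n => ?_
  simp only [Function.comp]
  rw [W182.KO.aa_eq hX hκ E1 E2 hL]
  unfold W182.KO.tt
  rw [tau_fin0, if_pos rfl, W182.KO.tau_neg_zero]
  simp only [Nat.cast_one, Real.log_one, add_zero, Real.one_rpow, mul_one, sub_zero]
  have e0 : ((L / (2 * Real.pi) : ℝ) : ℂ) * ((2 * Real.pi / L : ℝ) : ℂ) = 1 := by
    rw [← Complex.ofReal_mul, show L / (2 * Real.pi) * (2 * Real.pi / L) = 1 by field_simp]; simp
  rcases Nat.eq_zero_or_pos n with h0 | h0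
  · subst h0; rw [dk_zero]; simp
  · have h3 := W182.KO.cpow_eq h0 (1 / 2) t
    have e1 : (-(1 / 2 + I * t) : ℂ) = -(((1 / 2 : ℝ) : ℂ) + t * I) := by push_cast; ring
    have e2 : (((-Real.log n * t : ℝ) : ℂ) * I) = -(t * Real.log n) * I := by push_cast; ring
    rw [e1, h3, e2]
    linear_combination ((W182.KO.dk k n : ℂ) * (((n : ℝ) ^ (-(1 / 2) : ℝ) : ℝ) : ℂ) * φ (Real.log n / L) *
      cexp (-(t * Real.log n) * I)) * e0

/-- on the window the polynomial is the convolution of `ζ^k` -/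
theorem DP_close (h : TS φ) (k : ℕ) : ∃ C T0 : ℝ, 0 ≤ C ∧ Real.exp 1 ≤ T0 ∧ ∀ T : ℝ, T0 ≤ T →
    ∀ t ∈ Icc T (2 * T), ‖DP φ k T t - KK (kp φ (Real.log T)) (zr k 0) t‖ ≤ C / T := by
  obtain ⟨X, hX0, hX⟩ := h.tf
  set κ : ℝ := 1 / 8 with hκd
  have hκ : 0 < κ := by rw [hκd]; norm_num
  obtain ⟨D1, hD1, h1⟩ := W182.KO.tau_ptw k hκ
  obtain ⟨D2, hD2, h2⟩ := W182.KO.tau_ptw 0 hκ
  set M : ℕ := 2 * k with hM
  obtain ⟨C1, G1⟩ := W182.KO.ZP_DF (fun _ : Fin k => (0:ℝ)) hκ hD1 (h1 _) (M := M) le_rfl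
    (le_max_left (W182.KO.RR (fun _ : Fin k => (0:ℝ))) (W182.KO.RR (fun _ : Fin 0 => (0:ℝ))))
  obtain ⟨C2, G2⟩ := W182.KO.ZP_DF (fun _ : Fin 0 => (0:ℝ)) hκ hD2 (h2 _) (M := M) (by omega)
    (le_max_right (W182.KO.RR (fun _ : Fin k => (0:ℝ))) (W182.KO.RR (fun _ : Fin 0 => (0:ℝ))))
  set R : ℝ := max (W182.KO.RR (fun _ : Fin k => (0:ℝ))) (W182.KO.RR (fun _ : Fin 0 => (0:ℝ))) with hR
  obtain ⟨n, hn⟩ := exists_nat_ge (X + 2 * M + 2)
  obtain ⟨Cs, hCs, hs⟩ := W182.KO.shift hX hX0 G1 G2 (by rw [hκd]; norm_num) n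
  refine ⟨Cs * 3 ^ (2 * M), max (Real.exp 1) (max 1 (2 * R)), by positivity, le_max_left _ _, fun T hT t ht => ?_⟩
  have hTe : Real.exp 1 ≤ T := (le_max_left _ _).trans hT
  have hT0 : 0 < T := (Real.exp_pos 1).trans_le hTe
  have hT1 : 1 ≤ T := by have := Real.add_one_le_exp 1; linarith
  have hT2 : 2 * R ≤ T := (le_max_right _ _).trans ((le_max_right _ _).trans hT)
  have hL : 1 ≤ Real.log T := by rwa [Real.le_log_iff_exp_le hT0]
  have hLT : Real.log T ≤ T := by have := Real.log_le_sub_one_of_pos hT0; linarith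
  have h3 := hs (Real.log T) T t hL hT1 hT2 ht.1
  rw [← DP_K0 hX k hκ hTe t]
  have e1 : KK (kp φ (Real.log T)) (zr k 0) t = ((Real.log T / (2 * Real.pi) : ℝ) : ℂ) *
      W182.KO.I0 φ (W182.KO.ZP (fun _ : Fin k => (0:ℝ))) (W182.KO.ZP (fun _ : Fin 0 => (0:ℝ))) (Real.log T) t := by
    unfold KK W182.KO.I0
    rw [← integral_const_mul]
    refine integral_congr_ae (Eventually.of_forall fun y => ?_)
    simp only
    rw [W182.KO.ZP_zero, W182.KO.ZP_zero, pow_zero, mul_one]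
    unfold kp zr
    have : (((1 / 2 + 0 : ℝ) : ℂ) + ((t + y : ℝ) : ℂ) * I) = 1 / 2 + ((y + t : ℝ) : ℂ) * I := by push_cast; ring
    rw [this]
    ring
  rw [e1, ← mul_sub, norm_mul, norm_sub_rev, Complex.norm_real, Real.norm_of_nonneg (by positivity)]
  have e2 : Real.exp (X * (Real.log T * (1 + 4 * κ - 1 / 2))) = T ^ X := by
    rw [Real.rpow_def_of_pos hT0, hκd]; congr 1; ring
  rw [e2] at h3
  have h4 : (1 + t) ^ (2 * M) ≤ 3 ^ (2 * M) * T ^ (2 * M) := by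
    rw [← mul_pow]
    have := ht.1
    have := ht.2
    gcongr
    · linarith
    · linarith
  have hLp : Real.log T / (2 * Real.pi) ≤ T := by
    have := Real.pi_gt_three
    exact (div_le_self (by linarith) (by linarith)).trans hLT
  have h5 : T ^ X * T ^ (2 * M) * T ^ 2 ≤ T ^ n := by
    have a1 : T ^ X * T ^ (2 * M) * T ^ 2 = T ^ (X + 2 * M + 2) := by
      rw [Real.rpow_add hT0, Real.rpow_add hT0]
      congr 1
      · congr 1
        have := Real.rpow_natCast T (2 * M)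
        rw [← this]; push_cast; rfl
      · have := Real.rpow_natCast T 2
        rw [← this]; norm_num
    rw [a1, ← Real.rpow_natCast]
    exact Real.rpow_le_rpow_of_exponent_le hT1 hn
  have hTn : 0 < T ^ n := by positivity
  have hTX : 0 < T ^ X := Real.rpow_pos_of_pos hT0 _
  calc Real.log T / (2 * Real.pi) * ‖_‖ ≤ T * (Cs * (T ^ X * (1 + t) ^ (2 * M)) / T ^ n) := by gcongr
    _ ≤ T * (Cs * (T ^ X * (3 ^ (2 * M) * T ^ (2 * M))) / T ^ n) := by gcongr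
    _ = Cs * 3 ^ (2 * M) * (T ^ X * T ^ (2 * M) * T ^ 2) / (T * T ^ n) := by field_simp
    _ ≤ Cs * 3 ^ (2 * M) * T ^ n / (T * T ^ n) := by gcongr
    _ = _ := by field_simp

end

end Pool.Agent.K4H66.HL
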