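import Pool.Agent.K4H66.HL.G

set_option autoImplicit false

/-! The mean square of the smooth Dirichlet polynomial against the spectral measure. -/

namespace Pool.Agent.K4H66.HL

open Complex MeasureTheory Filter Topology Set Pool.Agent.TH535.SM Pool.Agent.K4H66.OL
open scoped ComplexConjugate FourierTransform ContDiff ENNReal Convolution

noncomputable section

variable {φ : ℝ → ℂ}

lemma sq_real {f g : ℝ → ℂ} (hf : AEStronglyMeasurable f) (hg : AEStronglyMeasurable g)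
    (hfi : Integrable (fun t => ‖f t‖ ^ 2)) (hgi : Integrable (fun t => ‖g t‖ ^ 2)) {e : ℝ} (he : 0 ≤ e)
    (h : ∫⁻ t, ‖f t - g t‖ₑ ^ 2 ≤ ENNReal.ofReal e) {ε : ℝ} (hε : 0 < ε) :
    ∫ t, ‖f t‖ ^ 2 ≤ (1 + ε) * (∫ t, ‖g t‖ ^ 2) + (1 + ε⁻¹) * e := by
  have hdi : Integrable (fun t => ‖f t - g t‖ ^ 2) := by
    refine ((iadd hfi hgi).const_mul 2).mono' ((hf.sub hg).norm.pow 2) (Eventually.of_forall fun t => ?_)
    rw [Real.norm_of_nonneg (by positivity)]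
    have h2 := norm_sub_le (f t) (g t)
    refine (pow_le_pow_left₀ (norm_nonneg _) h2 2).trans ?_
    nlinarith [sq_nonneg (‖f t‖ - ‖g t‖)]
  have hd : ∫ t, ‖f t - g t‖ ^ 2 ≤ e := by
    have h1 : ENNReal.ofReal (∫ t, ‖f t - g t‖ ^ 2) = ∫⁻ t, ‖f t - g t‖ₑ ^ 2 := by
      rw [ofReal_integral_eq_lintegral_ofReal hdi (Eventually.of_forall fun t => by positivity)]
      exact lintegral_congr fun t => (en_sq _).symm
    rw [← h1] at h
    exact (ENNReal.ofReal_le_ofReal_iff he).1 h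
  calc ∫ t, ‖f t‖ ^ 2 ≤ ∫ t, ((1 + ε) * ‖g t‖ ^ 2 + (1 + ε⁻¹) * ‖f t - g t‖ ^ 2) :=
        integral_mono hfi (iadd (hgi.const_mul _) (hdi.const_mul _)) fun t => sq_split hε
    _ = (1 + ε) * (∫ t, ‖g t‖ ^ 2) + (1 + ε⁻¹) * ∫ t, ‖f t - g t‖ ^ 2 := by
        rw [integral_add (hgi.const_mul _) (hdi.const_mul _), integral_const_mul, integral_const_mul]
    _ ≤ _ := by
        have : 0 < ε⁻¹ := inv_pos.2 hε
        gcongr

lemma sq_abs_diff {f g : ℝ → ℂ} (hf : AEStronglyMeasurable f) (hg : AEStronglyMeasurable g)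
    (hfi : Integrable (fun t => ‖f t‖ ^ 2)) (hgi : Integrable (fun t => ‖g t‖ ^ 2)) {e : ℝ} (he : 0 ≤ e)
    (h : ∫⁻ t, ‖f t - g t‖ₑ ^ 2 ≤ ENNReal.ofReal e) {ε : ℝ} (hε : 0 < ε) (hε1 : ε ≤ 1) :
    |(∫ t, ‖f t‖ ^ 2) - ∫ t, ‖g t‖ ^ 2| ≤ 2 * ε * (∫ t, ‖g t‖ ^ 2) + (2 + 2 * ε⁻¹) * e := by
  have h1 := sq_real hf hg hfi hgi he h hε
  have h' : ∫⁻ t, ‖g t - f t‖ₑ ^ 2 ≤ ENNReal.ofReal e := by
    simp_rw [enorm_sub_rev (g _) (f _)]; exact h
  have h2 := sq_real hg hf hgi hfi he h' hε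
  have hfn : 0 ≤ ∫ t, ‖f t‖ ^ 2 := integral_nonneg fun t => by positivity
  have hgn : 0 ≤ ∫ t, ‖g t‖ ^ 2 := integral_nonneg fun t => by positivity
  have hi : 0 < ε⁻¹ := inv_pos.2 hε
  have hie : ε * ε⁻¹ = 1 := mul_inv_cancel₀ hε.ne'
  rw [abs_le]
  constructor
  · -- g ≤ (1+ε) f + ...  and f ≤ 2 g + ...
    have h3 : ε * (∫ t, ‖f t‖ ^ 2) ≤ ε * ((1 + ε) * (∫ t, ‖g t‖ ^ 2) + (1 + ε⁻¹) * e) := by gcongr
    have h4 : ε * ((1 + ε) * (∫ t, ‖g t‖ ^ 2) + (1 + ε⁻¹) * e) ≤ 2 * ε * (∫ t, ‖g t‖ ^ 2) + (1 + ε⁻¹) * e := by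
      have a1 : ε * ((1 + ε) * ∫ t, ‖g t‖ ^ 2) ≤ 2 * ε * ∫ t, ‖g t‖ ^ 2 := by nlinarith [mul_nonneg hε.le hgn]
      have a2 : ε * ((1 + ε⁻¹) * e) ≤ (1 + ε⁻¹) * e := by
        have : 0 ≤ (1 + ε⁻¹) * e := by positivity
        nlinarith
      linarith
    have h5 : (2 + 2 * ε⁻¹) * e = (1 + ε⁻¹) * e + (1 + ε⁻¹) * e := by ring
    linarith
  · have a1 : ε * (∫ t, ‖g t‖ ^ 2) ≤ 2 * ε * (∫ t, ‖g t‖ ^ 2) := by nlinarith [mul_nonneg hε.le hgn]
    have a2 : (1 + ε⁻¹) * e ≤ (2 + 2 * ε⁻¹) * e := by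
      have : 0 ≤ (1 + ε⁻¹) * e := by positivity
      nlinarith
    linarith

lemma zdat (k : ℕ) {u : ℕ} (hu : 1 ≤ u) : Dat (zr k 0) (H k u) u k := by
  obtain ⟨C, p, hC, hb⟩ := zr_bd k
  obtain ⟨c, hc, hl⟩ := H_line_close k u
  refine ⟨zr_cont k (by norm_num), ⟨C, p, hC, fun t => hb 0 (by norm_num) t⟩, H_PG k hu,
    ⟨c, hc, fun t => ?_⟩, H_right k hu, H_left k hu⟩
  have h := hl t
  have e : zr k 0 t = riemannZeta (1 / 2 + t * I) ^ k := by
    unfold zr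
    congr 2
    push_cast
    ring
  rw [e, norm_pow]
  exact h

/-- the remainder terms are controlled by the remainder -/
lemma Om_Rm (k : ℕ) {ε : ℝ} (hε : 0 < ε) : ∃ C T0 : ℝ, 0 ≤ C ∧ 4 ≤ T0 ∧ ∀ T : ℝ, T0 ≤ T →
    Om (zr k 0) T + Om (zr k 0) (2 * T) ≤ ε * M (zr k 0) (2 * T) + C * Rm (zr k 0) T := by
  have D := zdat k (u := 1) le_rfl
  obtain ⟨C1, T1, hC1, hT1, h1⟩ := Om_le D (ε := ε / 2) (by positivity)
  obtain ⟨C2, p, hC2, h2⟩ := B_split D
  have htail : ∀ᶠ X : ℝ in atTop, C2 * (1 + 2 * X) ^ p * Real.exp (-(√X) ^ 2 / 8) ≤ 1 := by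
    have h3 := tail_small C2 p (by linarith)
    filter_upwards [h3, eventually_ge_atTop 4, Real.tendsto_log_atTop.eventually_ge_atTop 1,
      (Real.isLittleO_pow_log_id_atTop (n := 2)).bound (show (0:ℝ) < 1 by norm_num)] with X a1 a2 a3 a4
    refine le_trans ?_ a1
    have hX0 : 0 ≤ X := by linarith
    have e : (√X) ^ 2 = X := Real.sq_sqrt hX0
    rw [e]
    simp only [id, Real.norm_eq_abs, one_mul] at a4
    rw [abs_of_nonneg (by positivity), abs_of_nonneg hX0] at a4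
    gcongr
  obtain ⟨T2, hT2⟩ := eventually_atTop.1 htail
  refine ⟨2 * C1 + 4, max (max T1 T2) 4, by positivity, le_max_right _ _, fun T hT => ?_⟩
  have t1 : T1 ≤ T := ((le_max_left _ _).trans (le_max_left _ _)).trans hT
  have t2 : T2 ≤ T := ((le_max_right _ _).trans (le_max_left _ _)).trans hT
  have t3 : 4 ≤ T := (le_max_right _ _).trans hT
  have a1 := h1 T t1
  have a2 := h1 (2 * T) (by linarith)
  have b1 := h2 T (√T) (by linarith) (Real.sqrt_nonneg T)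
  have b2 := h2 (2 * T) (√T) (by linarith) (Real.sqrt_nonneg T)
  have o1 := Osc_eq D T (√T)
  have o2 := Osc_eq D (2 * T) (√T)
  rw [abs_of_nonneg (Real.sqrt_nonneg T)] at o1 o2
  have c1 := hT2 T t2
  have c2 : C2 * (1 + T) ^ p * Real.exp (-(√T) ^ 2 / 8) ≤ 1 := by
    refine le_trans ?_ c1
    gcongr
    linarith
  have m1 := M_mono D (show T ≤ 2 * T by linarith)
  have r := Rm_pos (zr k 0) T
  have n1 := Osc_nonneg (zr k 0) T (√T)
  have n2 := Osc_nonneg (zr k 0) (2 * T) (√T)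
  have r2 : C1 ≤ C1 * Rm (zr k 0) T := by nlinarith
  have r3 : Osc (zr k 0) T (√T) + Osc (zr k 0) (2 * T) (√T) + 2 ≤ 4 * Rm (zr k 0) T := by
    unfold Rm; linarith
  have mm : ε / 2 * M (zr k 0) T ≤ ε / 2 * M (zr k 0) (2 * T) := by gcongr
  rw [← o1] at b1
  rw [← o2] at b2
  nlinarith

/-- the mean square of the polynomial over the window -/
def mD (φ : ℝ → ℂ) (k : ℕ) (T : ℝ) : ℝ := ∫ t in T..(2 * T), ‖DP φ k T t‖ ^ 2

/-- the spectral functional -/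
def Sf (k u : ℕ) (T : ℝ) (g : ℝ → ℝ) : ℝ :=
  ∫ w, g (-(2 * Real.pi * w / Real.log T)) * ‖𝓕 (f1 (H k u) T) w‖ ^ 2

lemma Sf_int (k : ℕ) {u : ℕ} (hu : 1 ≤ u) {T : ℝ} (hT : 1 ≤ T) {g : ℝ → ℝ} (hg : Continuous g) {b : ℝ}
    (hb : ∀ x, |g x| ≤ b) :
    Integrable (fun w => g (-(2 * Real.pi * w / Real.log T)) * ‖𝓕 (f1 (H k u) T) w‖ ^ 2) := by
  have hd := f1_dec (zdat k hu) hT
  refine ((planch hd).1.const_mul b).mono' ?_ (Eventually.of_forall fun w => ?_)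
  · have := ft_cont hd
    exact ((hg.comp (by fun_prop)).mul (this.norm.pow 2)).aestronglyMeasurable
  · rw [norm_mul, Real.norm_eq_abs, Real.norm_of_nonneg (by positivity)]
    exact mul_le_mul_of_nonneg_right (hb _) (by positivity)

lemma TS.bdd (h : TS φ) : ∃ b : ℝ, 0 ≤ b ∧ ∀ x, ‖φ x‖ ≤ b := by
  obtain ⟨b, hb⟩ := h.cs.exists_bound_of_continuous h.cd.continuous
  exact ⟨b, (norm_nonneg _).trans (hb 0), hb⟩

/-- the comparison of the mean square of the polynomial with the spectral functional -/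
theorem mD_close (h : TS φ) (k : ℕ) {u : ℕ} (hu : 1 ≤ u) {ε : ℝ} (hε : 0 < ε) : ∃ C T0 : ℝ, 0 ≤ C ∧ 4 ≤ T0 ∧
    ∀ T : ℝ, T0 ≤ T → |mD φ k T - Sf k u T (fun x => ‖φ x‖ ^ 2)| ≤
      ε * (∫ t, ‖f1 (H k u) T t‖ ^ 2) + ε * M (zr k 0) (2 * T) + C * Rm (zr k 0) T := by
  have D := zdat k hu
  obtain ⟨b, hb0, hb⟩ := h.bdd
  obtain ⟨C1, hC1, h1⟩ := win_conv h D
  obtain ⟨C2, T2, hC2, hT2, h2⟩ := DP_close h k
  -- the small parameters
  set ε1 : ℝ := min 1 (ε / (2 * (b ^ 2 + 1))) with hε1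
  have hε10 : 0 < ε1 := by positivity
  have hε11 : ε1 ≤ 1 := min_le_left _ _
  have hε12 : 2 * ε1 * b ^ 2 ≤ ε := by
    have h3 : ε1 ≤ ε / (2 * (b ^ 2 + 1)) := min_le_right _ _
    rw [le_div_iff₀ (by positivity)] at h3
    nlinarith
  obtain ⟨C3, T3, hC3, hT3, h3⟩ := Om_Rm k (ε := ε / ((2 + 2 * ε1⁻¹) * (2 * C1) + 1)) (by positivity)
  refine ⟨(2 + 2 * ε1⁻¹) * (2 * C2 ^ 2 + 2 * C1 * (1 + C3)), max T2 T3, by positivity, le_max_of_le_right hT3,
    fun T hT => ?_⟩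
  have t2 : T2 ≤ T := (le_max_left _ _).trans hT
  have t3 : T3 ≤ T := (le_max_right _ _).trans hT
  have hTe : Real.exp 1 ≤ T := hT2.trans t2
  have hT0 : 0 < T := by linarith
  have hT1 : 1 < T := by linarith
  have hL0 : 0 < Real.log T := Real.log_pos hT1
  set κ := kp φ (Real.log T) with hκ
  have hd := f1_dec D hT1.le
  have hdK := KK_dec h hL0 hd
  set f : ℝ → ℂ := fun t => (wd T t : ℂ) * DP φ k T t with hf
  have hfm : Measurable f := (Complex.measurable_ofReal.comp (wd_meas T)).mul (DP_cont h k hT1).measurable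
  have hfe : (fun t => ‖f t‖ ^ 2) = (Ioc T (2 * T)).indicator (fun t => ‖DP φ k T t‖ ^ 2) := by
    funext t
    simp only [hf]
    by_cases ht : t ∈ Ioc T (2 * T)
    · rw [wd_mem hT0.le ht, indicator_of_mem ht]; simp
    · rw [wd_not hT0.le ht, indicator_of_notMem ht]; simp
  have hfi : Integrable (fun t => ‖f t‖ ^ 2) := by
    rw [hfe]
    exact (integrable_indicator_iff measurableSet_Ioc).2
      ((((DP_cont h k hT1).norm.pow 2).continuousOn.integrableOn_Icc (a := T) (b := 2 * T)).mono_set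
        Ioc_subset_Icc_self)
  have hfv : ∫ t, ‖f t‖ ^ 2 = mD φ k T := by
    rw [hfe, integral_indicator measurableSet_Ioc, ← intervalIntegral.integral_of_le (by linarith)]
    rfl
  set R := Rm (zr k 0) T + (Om (zr k 0) T + Om (zr k 0) (2 * T)) with hR
  have hOm1 : 0 ≤ Om (zr k 0) T := integral_nonneg fun t => by have := Wq_nonneg T t; positivity
  have hOm2 : 0 ≤ Om (zr k 0) (2 * T) := integral_nonneg fun t => by have := Wq_nonneg (2 * T) t; positivity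
  have hRm := Rm_pos (zr k 0) T
  have hR0 : 0 ≤ R := by rw [hR]; linarith
  have hcl : ∫⁻ t, ‖f t - KK κ (f1 (H k u) T) t‖ₑ ^ 2 ≤ ENNReal.ofReal (2 * C2 ^ 2 + 2 * (C1 * R)) := by
    calc _ ≤ ∫⁻ t, (ENNReal.ofReal ((Ioc T (2 * T)).indicator (fun _ => 2 * (C2 / T) ^ 2) t) +
          2 * ‖(wd T t : ℂ) * KK κ (zr k 0) t - KK κ (f1 (H k u) T) t‖ₑ ^ 2) := by
          refine lintegral_mono fun t => ?_
          have e1 : f t - KK κ (f1 (H k u) T) t = (wd T t : ℂ) * (DP φ k T t - KK κ (zr k 0) t) +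
              ((wd T t : ℂ) * KK κ (zr k 0) t - KK κ (f1 (H k u) T) t) := by
            simp only [hf]; ring
          have e2 : ‖(wd T t : ℂ) * (DP φ k T t - KK κ (zr k 0) t)‖ ^ 2 ≤
              (Ioc T (2 * T)).indicator (fun _ => (C2 / T) ^ 2) t := by
            by_cases ht : t ∈ Ioc T (2 * T)
            · rw [wd_mem hT0.le ht, indicator_of_mem ht]
              have := h2 T t2 t ⟨ht.1.le, ht.2⟩
              simp only [ofReal_one, one_mul]
              gcongr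
            · rw [wd_not hT0.le ht, indicator_of_notMem ht]; simp
          rw [e1, en_sq, en_sq, ← ENNReal.ofReal_ofNat, ← ENNReal.ofReal_mul (by norm_num), ← ENNReal.ofReal_add
            (indicator_nonneg (fun _ _ => by positivity) _) (by positivity)]
          refine ENNReal.ofReal_le_ofReal ?_
          have e3 : (Ioc T (2 * T)).indicator (fun _ => 2 * (C2 / T) ^ 2) t =
              2 * (Ioc T (2 * T)).indicator (fun _ => (C2 / T) ^ 2) t := by
            by_cases ht : t ∈ Ioc T (2 * T)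
            · rw [indicator_of_mem ht, indicator_of_mem ht]
            · rw [indicator_of_notMem ht, indicator_of_notMem ht, mul_zero]
          rw [e3]
          refine (pow_le_pow_left₀ (norm_nonneg _) (norm_add_le _ _) 2).trans ?_
          nlinarith [sq_nonneg (‖(wd T t : ℂ) * (DP φ k T t - KK κ (zr k 0) t)‖ -
            ‖(wd T t : ℂ) * KK κ (zr k 0) t - KK κ (f1 (H k u) T) t‖)]
      _ = ENNReal.ofReal (T * (2 * (C2 / T) ^ 2)) +
          2 * ∫⁻ t, ‖(wd T t : ℂ) * KK κ (zr k 0) t - KK κ (f1 (H k u) T) t‖ₑ ^ 2 := by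
          rw [lintegral_add_left, lintegral_const_mul' _ _ (by norm_num)]
          · congr 1
            have : ∀ t, ENNReal.ofReal ((Ioc T (2 * T)).indicator (fun _ => 2 * (C2 / T) ^ 2) t) =
                (Ioc T (2 * T)).indicator (fun _ => ENNReal.ofReal (2 * (C2 / T) ^ 2)) t := by
              intro t
              by_cases ht : t ∈ Ioc T (2 * T)
              · rw [indicator_of_mem ht, indicator_of_mem ht]
              · rw [indicator_of_notMem ht, indicator_of_notMem ht, ENNReal.ofReal_zero]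
            simp_rw [this]
            rw [lintegral_indicator_const measurableSet_Ioc, Real.volume_Ioc, ← ENNReal.ofReal_mul (by positivity)]
            congr 1; ring
          · exact ENNReal.measurable_ofReal.comp (measurable_const.indicator measurableSet_Ioc)
      _ ≤ ENNReal.ofReal (T * (2 * (C2 / T) ^ 2)) + 2 * ENNReal.ofReal (C1 * R) := by
          gcongr
          exact h1 T hTe
      _ = ENNReal.ofReal (T * (2 * (C2 / T) ^ 2) + 2 * (C1 * R)) := by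
          rw [ENNReal.ofReal_add (by positivity) (by positivity), ENNReal.ofReal_mul (p := 2) (by norm_num),
            ENNReal.ofReal_ofNat]
      _ ≤ _ := by
          refine ENNReal.ofReal_le_ofReal ?_
          have : T * (2 * (C2 / T) ^ 2) = 2 * C2 ^ 2 / T := by field_simp
          rw [this]
          have : 2 * C2 ^ 2 / T ≤ 2 * C2 ^ 2 := div_le_self (by positivity) hT1.le
          linarith
  have hmain := sq_abs_diff hfm.aestronglyMeasurable hdK.cont.aestronglyMeasurable hfi hdK.sq (by positivity) hcl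
    hε10 hε11
  obtain ⟨-, hpl⟩ := KK_planch h hL0 hd
  rw [hfv, hpl] at hmain
  have hS : Sf k u T (fun x => ‖φ x‖ ^ 2) = ∫ w, ‖φ (-(2 * Real.pi * w / Real.log T))‖ ^ 2 *
      ‖𝓕 (f1 (H k u) T) w‖ ^ 2 := rfl
  rw [← hS] at hmain
  have hSb : Sf k u T (fun x => ‖φ x‖ ^ 2) ≤ b ^ 2 * ∫ t, ‖f1 (H k u) T t‖ ^ 2 := by
    rw [← (planch hd).2, ← integral_const_mul]
    refine integral_mono (Sf_int k hu hT1.le (g := fun x => ‖φ x‖ ^ 2) (h.cd.continuous.norm.pow 2) (b := b ^ 2)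
      (fun x => by rw [abs_of_nonneg (by positivity)]; gcongr; exact hb x)) ((planch hd).1.const_mul _) fun w => ?_
    simp only
    gcongr
    exact hb _
  have hn : 0 ≤ ∫ t, ‖f1 (H k u) T t‖ ^ 2 := integral_nonneg fun t => by positivity
  have h4 := h3 T t3
  have hinv : 0 < ε1⁻¹ := inv_pos.2 hε10
  have hq : 0 ≤ 2 + 2 * ε1⁻¹ := by positivity
  have hMn := M_nonneg (zr k 0) (T := 2 * T) (by linarith)
  refine hmain.trans ?_
  have s1 : 2 * ε1 * Sf k u T (fun x => ‖φ x‖ ^ 2) ≤ ε * ∫ t, ‖f1 (H k u) T t‖ ^ 2 := by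
    calc 2 * ε1 * Sf k u T (fun x => ‖φ x‖ ^ 2) ≤ 2 * ε1 * (b ^ 2 * ∫ t, ‖f1 (H k u) T t‖ ^ 2) := by gcongr
      _ = (2 * ε1 * b ^ 2) * ∫ t, ‖f1 (H k u) T t‖ ^ 2 := by ring
      _ ≤ _ := by gcongr
  have s2 : (2 + 2 * ε1⁻¹) * (2 * C2 ^ 2 + 2 * (C1 * R)) ≤ ε * M (zr k 0) (2 * T) +
      (2 + 2 * ε1⁻¹) * (2 * C2 ^ 2 + 2 * C1 * (1 + C3)) * Rm (zr k 0) T := by
    set q : ℝ := 2 + 2 * ε1⁻¹ with hqd
    have s3 : R ≤ (1 + C3) * Rm (zr k 0) T + ε / (q * (2 * C1) + 1) * M (zr k 0) (2 * T) := by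
      rw [hR]; linarith
    have s4 : q * (2 * C1) * (ε / (q * (2 * C1) + 1)) ≤ ε := by
      rw [mul_div_assoc', div_le_iff₀ (by positivity)]
      nlinarith [mul_nonneg hq (mul_nonneg (by norm_num : (0:ℝ) ≤ 2) hC1)]
    have s5 : q * (2 * (C1 * R)) ≤ q * (2 * C1) * ((1 + C3) * Rm (zr k 0) T) + ε * M (zr k 0) (2 * T) := by
      calc q * (2 * (C1 * R)) = q * (2 * C1) * R := by ring
        _ ≤ q * (2 * C1) * ((1 + C3) * Rm (zr k 0) T + ε / (q * (2 * C1) + 1) * M (zr k 0) (2 * T)) := by gcongr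
        _ = q * (2 * C1) * ((1 + C3) * Rm (zr k 0) T) +
            (q * (2 * C1) * (ε / (q * (2 * C1) + 1))) * M (zr k 0) (2 * T) := by ring
        _ ≤ _ := by gcongr
    have s6 : q * (2 * C2 ^ 2) ≤ q * (2 * C2 ^ 2) * Rm (zr k 0) T := le_mul_of_one_le_right (by positivity) hRm
    nlinarith
  linarith

end

end Pool.Agent.K4H66.HL
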