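import Pool.Agent.K4H66.HL.H

set_option autoImplicit false

/-! The spectral functional: symmetry, total mass and support. -/

namespace Pool.Agent.K4H66.HL

open Complex MeasureTheory Filter Topology Set Pool.Agent.TH535.SM Pool.Agent.K4H66.OL
open scoped ComplexConjugate FourierTransform ContDiff ENNReal Convolution

noncomputable section

variable {φ : ℝ → ℂ}

/-- the total mass -/
theorem mass_close (k : ℕ) {u : ℕ} (hu : 1 ≤ u) {ε : ℝ} (hε : 0 < ε) : ∃ C T0 : ℝ, 0 ≤ C ∧ 4 ≤ T0 ∧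
    ∀ T : ℝ, T0 ≤ T → |(∫ t, ‖f1 (H k u) T t‖ ^ 2) - (M (zr k 0) (2 * T) - M (zr k 0) T)| ≤
      ε * M (zr k 0) (2 * T) + C * Rm (zr k 0) T := by
  have D := zdat k hu
  obtain ⟨C1, hC1, h1⟩ := f01 D
  set ε1 : ℝ := min 1 (ε / 4) with hε1
  have hε10 : 0 < ε1 := by positivity
  have hε11 : ε1 ≤ 1 := min_le_left _ _
  have hε12 : 2 * ε1 ≤ ε / 2 := by
    have h3 : ε1 ≤ ε / 4 := min_le_right _ _
    linarith
  obtain ⟨C3, T3, hC3, hT3, h3⟩ := Om_Rm k (ε := ε / (2 * ((2 + 2 * ε1⁻¹) * C1 + 1))) (by positivity)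
  refine ⟨(2 + 2 * ε1⁻¹) * C1 * C3, T3, by positivity, hT3, fun T hT => ?_⟩
  have hT0 : 0 < T := by linarith
  have hT1 : 1 ≤ T := by linarith
  have hd := f1_dec D hT1
  have hOm1 : 0 ≤ Om (zr k 0) T := integral_nonneg fun t => by have := Wq_nonneg T t; positivity
  have hOm2 : 0 ≤ Om (zr k 0) (2 * T) := integral_nonneg fun t => by have := Wq_nonneg (2 * T) t; positivity
  have hMd : 0 ≤ M (zr k 0) (2 * T) - M (zr k 0) T := by
    have := M_mono D (show T ≤ 2 * T by linarith)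
    linarith
  have hfe : (fun t => ‖f0 (zr k 0) T t‖ ^ 2) = (Ioc T (2 * T)).indicator (fun t => ‖zr k 0 t‖ ^ 2) := by
    funext t
    unfold f0
    by_cases ht : t ∈ Ioc T (2 * T)
    · rw [wd_mem hT0.le ht, indicator_of_mem ht]; simp
    · rw [wd_not hT0.le ht, indicator_of_notMem ht]; simp
  have hfi : Integrable (fun t => ‖f0 (zr k 0) T t‖ ^ 2) := by
    rw [hfe]
    exact (integrable_indicator_iff measurableSet_Ioc).2
      ((D.sc.continuousOn.integrableOn_Icc (a := T) (b := 2 * T)).mono_set Ioc_subset_Icc_self)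
  have hfv : ∫ t, ‖f0 (zr k 0) T t‖ ^ 2 = M (zr k 0) (2 * T) - M (zr k 0) T := by
    rw [hfe, integral_indicator measurableSet_Ioc, ← intervalIntegral.integral_of_le (by linarith)]
    unfold M
    rw [intervalIntegral.integral_interval_sub_left (D.sc.intervalIntegrable _ _) (D.sc.intervalIntegrable _ _)]
  have hmain := sq_abs_diff hd.cont.aestronglyMeasurable (f0_meas D T).aestronglyMeasurable hd.sq hfi
    (by positivity) (h1 T hT1) hε10 hε11
  rw [hfv] at hmain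
  refine hmain.trans ?_
  have h4 := h3 T hT
  have hMn := M_nonneg (zr k 0) (T := 2 * T) (by linarith)
  have hMn' := M_nonneg (zr k 0) (T := T) (by linarith)
  have s1 : 2 * ε1 * (M (zr k 0) (2 * T) - M (zr k 0) T) ≤ ε / 2 * M (zr k 0) (2 * T) := by
    calc 2 * ε1 * (M (zr k 0) (2 * T) - M (zr k 0) T) ≤ ε / 2 * (M (zr k 0) (2 * T) - M (zr k 0) T) := by gcongr
      _ ≤ _ := by
          refine mul_le_mul_of_nonneg_left ?_ (by positivity)
          linarith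
  set q : ℝ := 2 + 2 * ε1⁻¹ with hqd
  have hq : 0 ≤ q := by positivity
  have s4 : q * C1 * (ε / (2 * (q * C1 + 1))) ≤ ε / 2 := by
    rw [mul_div_assoc', div_le_div_iff₀ (by positivity) (by norm_num)]
    nlinarith [mul_nonneg hq hC1]
  have s5 : q * (C1 * (Om (zr k 0) (2 * T) + Om (zr k 0) T)) ≤ ε / 2 * M (zr k 0) (2 * T) +
      q * C1 * C3 * Rm (zr k 0) T := by
    calc q * (C1 * (Om (zr k 0) (2 * T) + Om (zr k 0) T)) =
          q * C1 * (Om (zr k 0) T + Om (zr k 0) (2 * T)) := by ring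
      _ ≤ q * C1 * (ε / (2 * (q * C1 + 1)) * M (zr k 0) (2 * T) + C3 * Rm (zr k 0) T) := by gcongr
      _ = (q * C1 * (ε / (2 * (q * C1 + 1)))) * M (zr k 0) (2 * T) + q * C1 * C3 * Rm (zr k 0) T := by ring
      _ ≤ _ := by gcongr
  linarith

/-- the symmetry of the spectral functional -/
theorem sym_close (h : TS φ) (k : ℕ) {u : ℕ} (hu : 1 ≤ u) {ε : ℝ} (hε : 0 < ε) : ∃ C T0 : ℝ, 0 ≤ C ∧ 4 ≤ T0 ∧
    ∀ T : ℝ, T0 ≤ T → |Sf k u T (fun x => ‖φ x‖ ^ 2) - Sf k u T (fun x => ‖φ (k - x)‖ ^ 2)| ≤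
      ε * (∫ t, ‖f1 (H k u) T t‖ ^ 2) + ε * M (zr k 0) (2 * T) + C * Rm (zr k 0) T := by
  have D := zdat k hu
  have h' := rf_TS h k
  obtain ⟨b, hb0, hb⟩ := h.bdd
  obtain ⟨C1, hC1, h1⟩ := sym_conv h k D
  set ε1 : ℝ := min 1 (ε / (2 * (b ^ 2 + 1))) with hε1
  have hε10 : 0 < ε1 := by positivity
  have hε11 : ε1 ≤ 1 := min_le_left _ _
  have hε12 : 2 * ε1 * b ^ 2 ≤ ε := by
    have h3 : ε1 ≤ ε / (2 * (b ^ 2 + 1)) := min_le_right _ _
    rw [le_div_iff₀ (by positivity)] at h3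
    nlinarith
  set q : ℝ := 2 + 2 * ε1⁻¹ with hqd
  have hinv : 0 < ε1⁻¹ := inv_pos.2 hε10
  have hq : 0 ≤ q := by positivity
  obtain ⟨C3, T3, hC3, hT3, h3⟩ := Om_Rm k (ε := ε / (2 * (q * C1 + 1))) (by positivity)
  obtain ⟨T4, hT4⟩ := eventually_atTop.1 (Real.tendsto_log_atTop.eventually_ge_atTop (1 + 2 * (q * C1 + 1) / ε))
  refine ⟨q * C1 * C3, max T3 T4, by positivity, le_max_of_le_left hT3, fun T hT => ?_⟩
  have t3 : T3 ≤ T := (le_max_left _ _).trans hT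
  have t4 := hT4 T ((le_max_right _ _).trans hT)
  have hT0 : 0 < T := by linarith
  have hT1 : 1 < T := by linarith
  have hL0 : 0 < Real.log T := Real.log_pos hT1
  have hd := f1_dec D hT1.le
  have hk1 := KK_dec h hL0 hd
  have hk2 := KK_dec h' hL0 hd
  have hOm1 : 0 ≤ Om (zr k 0) T := integral_nonneg fun t => by have := Wq_nonneg T t; positivity
  have hOm2 : 0 ≤ Om (zr k 0) (2 * T) := integral_nonneg fun t => by have := Wq_nonneg (2 * T) t; positivity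
  have hMd : 0 ≤ M (zr k 0) (2 * T) - M (zr k 0) T := by
    have := M_mono D (show T ≤ 2 * T by linarith)
    linarith
  have n1 : ∀ t, ‖conj (KK (kp φ (Real.log T)) (f1 (H k u) T) t)‖ ^ 2 =
      ‖KK (kp φ (Real.log T)) (f1 (H k u) T) t‖ ^ 2 := fun t => by rw [RCLike.norm_conj]
  have n2 : ∀ t, ‖ct k T t * KK (kp (rf k φ) (Real.log T)) (f1 (H k u) T) t‖ ^ 2 =
      ‖KK (kp (rf k φ) (Real.log T)) (f1 (H k u) T) t‖ ^ 2 := fun t => by rw [norm_mul, ct_norm, one_mul]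
  have hmain := sq_abs_diff (Complex.continuous_conj.comp hk1.cont).aestronglyMeasurable
    (((ct_meas k T).mul hk2.cont.measurable).aestronglyMeasurable)
    (f := fun t => conj (KK (kp φ (Real.log T)) (f1 (H k u) T) t))
    (g := fun t => ct k T t * KK (kp (rf k φ) (Real.log T)) (f1 (H k u) T) t)
    (by simp_rw [n1]; exact hk1.sq) (by simp_rw [n2]; exact hk2.sq) (by positivity) (h1 T (by linarith)) hε10 hε11
  simp_rw [n1, n2] at hmain
  rw [(KK_planch h hL0 hd).2, (KK_planch h' hL0 hd).2] at hmain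
  have e2 : ∀ x : ℝ, ‖rf k φ x‖ ^ 2 = ‖φ (k - x)‖ ^ 2 := fun x => by unfold rf; rw [RCLike.norm_conj]
  simp_rw [e2] at hmain
  have hS1 : Sf k u T (fun x => ‖φ x‖ ^ 2) = ∫ w, ‖φ (-(2 * Real.pi * w / Real.log T))‖ ^ 2 *
      ‖𝓕 (f1 (H k u) T) w‖ ^ 2 := rfl
  have hS2 : Sf k u T (fun x => ‖φ (k - x)‖ ^ 2) = ∫ w, ‖φ (k - -(2 * Real.pi * w / Real.log T))‖ ^ 2 *
      ‖𝓕 (f1 (H k u) T) w‖ ^ 2 := rfl
  rw [← hS1, ← hS2] at hmain
  refine hmain.trans ?_
  have hSb : Sf k u T (fun x => ‖φ (k - x)‖ ^ 2) ≤ b ^ 2 * ∫ t, ‖f1 (H k u) T t‖ ^ 2 := by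
    rw [← (planch hd).2, ← integral_const_mul]
    refine integral_mono (Sf_int k hu hT1.le (g := fun x => ‖φ (k - x)‖ ^ 2)
      ((h.cd.continuous.comp (by fun_prop)).norm.pow 2) (b := b ^ 2)
      (fun x => by rw [abs_of_nonneg (by positivity)]; gcongr; exact hb _)) ((planch hd).1.const_mul _) fun w => ?_
    simp only
    gcongr
    exact hb _
  have hn : 0 ≤ ∫ t, ‖f1 (H k u) T t‖ ^ 2 := integral_nonneg fun t => by positivity
  have h4 := h3 T t3
  have hMn := M_nonneg (zr k 0) (T := 2 * T) (by linarith)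
  have hMn' := M_nonneg (zr k 0) (T := T) (by linarith)
  have s1 : 2 * ε1 * Sf k u T (fun x => ‖φ (k - x)‖ ^ 2) ≤ ε * ∫ t, ‖f1 (H k u) T t‖ ^ 2 := by
    calc 2 * ε1 * Sf k u T (fun x => ‖φ (k - x)‖ ^ 2) ≤ 2 * ε1 * (b ^ 2 * ∫ t, ‖f1 (H k u) T t‖ ^ 2) := by gcongr
      _ = (2 * ε1 * b ^ 2) * ∫ t, ‖f1 (H k u) T t‖ ^ 2 := by ring
      _ ≤ _ := by gcongr
  have hL2 : (M (zr k 0) (2 * T) - M (zr k 0) T) / Real.log T ^ 2 ≤
      ε / (2 * (q * C1 + 1)) * M (zr k 0) (2 * T) := by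
    have a1 : 2 * (q * C1 + 1) / ε ≤ Real.log T ^ 2 := by
      have a2 : 2 * (q * C1 + 1) / ε ≤ Real.log T := by linarith
      have a3 : 0 ≤ 2 * (q * C1 + 1) / ε := by positivity
      nlinarith
    rw [div_le_iff₀ (by positivity)]
    rw [div_le_iff₀ hε] at a1
    have a4 : 1 ≤ ε / (2 * (q * C1 + 1)) * Real.log T ^ 2 := by
      rw [div_mul_eq_mul_div, le_div_iff₀ (by positivity)]
      linarith
    calc M (zr k 0) (2 * T) - M (zr k 0) T ≤ 1 * M (zr k 0) (2 * T) := by linarith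
      _ ≤ (ε / (2 * (q * C1 + 1)) * Real.log T ^ 2) * M (zr k 0) (2 * T) := by gcongr
      _ = _ := by ring
  have s4 : q * C1 * (ε / (2 * (q * C1 + 1))) ≤ ε / 2 := by
    rw [mul_div_assoc', div_le_div_iff₀ (by positivity) (by norm_num)]
    nlinarith [mul_nonneg hq hC1]
  have s5 : q * (C1 * ((Om (zr k 0) T + Om (zr k 0) (2 * T)) +
      (M (zr k 0) (2 * T) - M (zr k 0) T) / Real.log T ^ 2)) ≤ ε * M (zr k 0) (2 * T) +
      q * C1 * C3 * Rm (zr k 0) T := by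
    calc q * (C1 * ((Om (zr k 0) T + Om (zr k 0) (2 * T)) +
          (M (zr k 0) (2 * T) - M (zr k 0) T) / Real.log T ^ 2)) =
          q * C1 * ((Om (zr k 0) T + Om (zr k 0) (2 * T)) +
          (M (zr k 0) (2 * T) - M (zr k 0) T) / Real.log T ^ 2) := by ring
      _ ≤ q * C1 * ((ε / (2 * (q * C1 + 1)) * M (zr k 0) (2 * T) + C3 * Rm (zr k 0) T) +
          ε / (2 * (q * C1 + 1)) * M (zr k 0) (2 * T)) := by gcongr
      _ = 2 * (q * C1 * (ε / (2 * (q * C1 + 1)))) * M (zr k 0) (2 * T) + q * C1 * C3 * Rm (zr k 0) T := by ring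
      _ ≤ 2 * (ε / 2) * M (zr k 0) (2 * T) + q * C1 * C3 * Rm (zr k 0) T := by gcongr
      _ = _ := by ring
  linarith

lemma ms_sub {F1 F2 : ℝ → ℂ} (h1 : Dec F1) (h2 : Dec F2) (S : Set ℝ) :
    ms (fun t => F1 t - F2 t) S ≤ 2 * ms F1 S + 2 * ms F2 S := by
  unfold ms
  have e : ∀ w, 𝓕 (fun t => F1 t - F2 t) w = 𝓕 F1 w - 𝓕 F2 w := by
    intro w
    have a := ft_add h1 (h2.smul (-1)) w
    rw [ft_smul] at a
    have e2 : (fun t => F1 t + -1 * F2 t) = fun t => F1 t - F2 t := by funext t; ring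
    rw [e2] at a
    rw [a]; ring
  have i1 := (planch h1).1.integrableOn (s := S)
  have i2 := (planch h2).1.integrableOn (s := S)
  have i3 := (planch (h1.sub h2)).1.integrableOn (s := S)
  rw [← integral_const_mul, ← integral_const_mul, ← integral_add (i1.const_mul 2) (i2.const_mul 2)]
  refine integral_mono i3 ((i1.const_mul 2).add (i2.const_mul 2)) fun w => ?_
  simp only [e]
  refine (pow_le_pow_left₀ (norm_nonneg _) (norm_sub_le _ _) 2).trans ?_
  nlinarith [sq_nonneg (‖𝓕 F1 w‖ - ‖𝓕 F2 w‖)]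

lemma ms_mono' {F : ℝ → ℂ} (hF : Dec F) {A B : Set ℝ} (_ : MeasurableSet B) (h : A ⊆ B) : ms F A ≤ ms F B := by
  unfold ms
  exact setIntegral_mono_set (planch hF).1.integrableOn (Eventually.of_forall fun w => by positivity)
    (Eventually.of_forall h)

/-- the mass outside a neighbourhood of `[0, k]` -/
theorem tail_mass (k : ℕ) {u : ℕ} {δ : ℝ} (hδ : 0 < δ) (hδ1 : δ ≤ 1) (huδ : 2 ≤ δ * u) : ∃ C T0 : ℝ,
    0 ≤ C ∧ 4 ≤ T0 ∧ ∀ T : ℝ, T0 ≤ T →
      ms (f1 (H k u) T) (Ici (δ * Real.log T / (2 * Real.pi))) ≤ C ∧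
      ms (f1 (H k u) T) (Iic (-((k + δ) * Real.log T / (2 * Real.pi)))) ≤ C := by
  have hu1 : (1:ℝ) ≤ u := by nlinarith
  have hu : 1 ≤ u := by exact_mod_cast hu1
  obtain ⟨C, hC, h⟩ := tails k hu (δ := δ / 2) (by positivity) (by linarith) (by linarith)
  obtain ⟨T1, hT1⟩ := eventually_atTop.1 (Real.tendsto_log_atTop.eventually_ge_atTop (1 + (k + δ) * 2 / δ))
  refine ⟨4 * C, max T1 4, by positivity, le_max_right _ _, fun T hT => ?_⟩
  have hT4 : 4 ≤ T := (le_max_right _ _).trans hT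
  have hlT := hT1 T ((le_max_left _ _).trans hT)
  have hT0 : 0 < T := by linarith
  have hp := Real.pi_pos
  have hk0 : (0:ℝ) ≤ k := Nat.cast_nonneg k
  have hlog2 : Real.log (2 * T) ≤ Real.log T + 1 := by
    rw [Real.log_mul (by norm_num) hT0.ne']
    have := Real.log_two_lt_d9
    linarith
  have hL : 1 ≤ Real.log T := by
    have : 0 ≤ (k + δ) * 2 / δ := by positivity
    linarith
  have hd1 := Fn_decr k hu (T := 2 * T) (by linarith) (r := 0) (by simp)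
  have hd2 := Fn_decr k hu (T := T) (by linarith) (r := 0) (by simp)
  obtain ⟨a1, a2⟩ := h T (by linarith) 0 (by simp)
  obtain ⟨b1, b2⟩ := h (2 * T) (by linarith) 0 (by simp)
  have c1 : δ / 2 * Real.log (2 * T) ≤ δ * Real.log T := by nlinarith
  have c2 : (k + δ / 2) * Real.log (2 * T) ≤ (k + δ) * Real.log T := by
    have : (k + δ) * 2 ≤ δ * Real.log T := by
      have h1 : (k + δ) * 2 / δ ≤ Real.log T := by linarith
      rw [div_le_iff₀ hδ] at h1
      linarith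
    nlinarith
  constructor
  · refine (ms_sub hd1 hd2 _).trans ?_
    have d1 := ms_mono' hd1 (A := Ici (δ * Real.log T / (2 * Real.pi)))
      (B := Ici (δ / 2 * Real.log (2 * T) / (2 * Real.pi))) measurableSet_Ici (Ici_subset_Ici.2 (by gcongr))
    have d2 := ms_mono' hd2 (A := Ici (δ * Real.log T / (2 * Real.pi)))
      (B := Ici (δ / 2 * Real.log T / (2 * Real.pi))) measurableSet_Ici (Ici_subset_Ici.2 (by
        gcongr; linarith))
    linarith
  · refine (ms_sub hd1 hd2 _).trans ?_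
    have d1 := ms_mono' hd1 (A := Iic (-((k + δ) * Real.log T / (2 * Real.pi))))
      (B := Iic (-((k + δ / 2) * Real.log (2 * T) / (2 * Real.pi)))) measurableSet_Iic
      (Iic_subset_Iic.2 (neg_le_neg (by gcongr)))
    have d2 := ms_mono' hd2 (A := Iic (-((k + δ) * Real.log T / (2 * Real.pi))))
      (B := Iic (-((k + δ / 2) * Real.log T / (2 * Real.pi)))) measurableSet_Iic
      (Iic_subset_Iic.2 (neg_le_neg (by gcongr; linarith)))
    linarith

/-- the functional is controlled by the sup norm near `[0, k]` -/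
theorem Sf_sup (k : ℕ) {u : ℕ} {δ : ℝ} (hδ : 0 < δ) (hδ1 : δ ≤ 1) (huδ : 2 ≤ δ * u) {g : ℝ → ℝ}
    (hg : Continuous g) {b η : ℝ} (hb : ∀ x, |g x| ≤ b) (hη : 0 ≤ η)
    (hs : ∀ x ∈ Icc (-δ) (k + δ), |g x| ≤ η) : ∃ C T0 : ℝ, 0 ≤ C ∧ 4 ≤ T0 ∧ ∀ T : ℝ, T0 ≤ T →
      |Sf k u T g| ≤ η * (∫ t, ‖f1 (H k u) T t‖ ^ 2) + C := by
  have hu1 : (1:ℝ) ≤ u := by nlinarith
  have hu : 1 ≤ u := by exact_mod_cast hu1
  have hb0 : 0 ≤ b := (abs_nonneg _).trans (hb 0)
  obtain ⟨C, T0, hC, hT0, h⟩ := tail_mass k hδ hδ1 huδ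
  refine ⟨b * (2 * C), T0, by positivity, hT0, fun T hT => ?_⟩
  obtain ⟨h1, h2⟩ := h T hT
  have hT1 : 1 ≤ T := by linarith
  have hd := f1_dec (zdat k hu) hT1
  have hL0 : 0 < Real.log T := Real.log_pos (by linarith)
  have hp := Real.pi_pos
  have hpl := planch hd
  set A1 : Set ℝ := Ici (δ * Real.log T / (2 * Real.pi)) with hA1
  set A2 : Set ℝ := Iic (-((k + δ) * Real.log T / (2 * Real.pi))) with hA2
  have hpt : ∀ w : ℝ, |g (-(2 * Real.pi * w / Real.log T)) * ‖𝓕 (f1 (H k u) T) w‖ ^ 2| ≤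
      η * ‖𝓕 (f1 (H k u) T) w‖ ^ 2 + (A1.indicator (fun w => b * ‖𝓕 (f1 (H k u) T) w‖ ^ 2) w +
        A2.indicator (fun w => b * ‖𝓕 (f1 (H k u) T) w‖ ^ 2) w) := by
    intro w
    have i1 : 0 ≤ A1.indicator (fun w => b * ‖𝓕 (f1 (H k u) T) w‖ ^ 2) w :=
      indicator_nonneg (fun _ _ => by positivity) w
    have i2 : 0 ≤ A2.indicator (fun w => b * ‖𝓕 (f1 (H k u) T) w‖ ^ 2) w :=
      indicator_nonneg (fun _ _ => by positivity) w
    have i3 : 0 ≤ η * ‖𝓕 (f1 (H k u) T) w‖ ^ 2 := by positivity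
    rw [abs_mul, abs_of_nonneg (sq_nonneg ‖𝓕 (f1 (H k u) T) w‖)]
    by_cases hw1 : w ∈ A1
    · have : A1.indicator (fun w => b * ‖𝓕 (f1 (H k u) T) w‖ ^ 2) w = b * ‖𝓕 (f1 (H k u) T) w‖ ^ 2 :=
        indicator_of_mem hw1 _
      have := mul_le_mul_of_nonneg_right (hb (-(2 * Real.pi * w / Real.log T))) (sq_nonneg ‖𝓕 (f1 (H k u) T) w‖)
      linarith
    by_cases hw2 : w ∈ A2
    · have : A2.indicator (fun w => b * ‖𝓕 (f1 (H k u) T) w‖ ^ 2) w = b * ‖𝓕 (f1 (H k u) T) w‖ ^ 2 :=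
        indicator_of_mem hw2 _
      have := mul_le_mul_of_nonneg_right (hb (-(2 * Real.pi * w / Real.log T))) (sq_nonneg ‖𝓕 (f1 (H k u) T) w‖)
      linarith
    have hx : -(2 * Real.pi * w / Real.log T) ∈ Icc (-δ) (k + δ) := by
      rw [hA1, mem_Ici, not_le, lt_div_iff₀ (by positivity)] at hw1
      rw [hA2, mem_Iic, not_le, neg_lt, lt_div_iff₀ (by positivity)] at hw2
      constructor
      · rw [neg_le_neg_iff, div_le_iff₀ hL0]; linarith
      · rw [← neg_div, div_le_iff₀ hL0]; linarith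
    have := mul_le_mul_of_nonneg_right (hs _ hx) (sq_nonneg ‖𝓕 (f1 (H k u) T) w‖)
    linarith
  have j1 : Integrable (A1.indicator (fun w => b * ‖𝓕 (f1 (H k u) T) w‖ ^ 2)) :=
    (hpl.1.const_mul b).indicator measurableSet_Ici
  have j2 : Integrable (A2.indicator (fun w => b * ‖𝓕 (f1 (H k u) T) w‖ ^ 2)) :=
    (hpl.1.const_mul b).indicator measurableSet_Iic
  unfold Sf
  refine (abs_integral_le_integral_abs).trans ?_
  calc ∫ w, |g (-(2 * Real.pi * w / Real.log T)) * ‖𝓕 (f1 (H k u) T) w‖ ^ 2| ≤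
        ∫ w, (η * ‖𝓕 (f1 (H k u) T) w‖ ^ 2 + (A1.indicator (fun w => b * ‖𝓕 (f1 (H k u) T) w‖ ^ 2) w +
        A2.indicator (fun w => b * ‖𝓕 (f1 (H k u) T) w‖ ^ 2) w)) :=
        integral_mono (Sf_int k hu hT1 hg hb).abs (iadd (hpl.1.const_mul η) (iadd j1 j2)) hpt
    _ = η * (∫ w, ‖𝓕 (f1 (H k u) T) w‖ ^ 2) + (b * ms (f1 (H k u) T) A1 + b * ms (f1 (H k u) T) A2) := by
        rw [integral_add (hpl.1.const_mul η) (iadd j1 j2), integral_const_mul, integral_add j1 j2,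
          integral_indicator measurableSet_Ici, integral_indicator measurableSet_Iic, integral_const_mul,
          integral_const_mul]
        rfl
    _ ≤ _ := by
        rw [hpl.2]
        have : b * ms (f1 (H k u) T) A1 ≤ b * C := by gcongr
        have : b * ms (f1 (H k u) T) A2 ≤ b * C := by gcongr
        linarith

end

end Pool.Agent.K4H66.HL
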