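import Pool.Agent.K4H66.HL.I
import Pool.Agent.TH535.SM.B1
import Pool.Agent.R446.KR.Asm

set_option autoImplicit false

/-! The mean square of a smooth Dirichlet polynomial of length `T^θ`, `θ < 1`. -/

namespace Pool.Agent.K4H66.HL

open Complex MeasureTheory Filter Topology Set Pool.Agent.TH535.SM Pool.Agent.K4H66.OL Pool.Agent.R446.KR
open scoped ComplexConjugate FourierTransform ContDiff ENNReal Convolution

noncomputable section

/-- real test functions as complex ones -/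
def cx (p : ℝ → ℝ) (x : ℝ) : ℂ := (p x : ℂ)

lemma pow_small {θ : ℝ} (hθ : θ < 1) (q : ℕ) (C : ℝ) : Tendsto (fun T : ℝ => C * T ^ θ / NN q T) atTop (𝓝 0) := by
  have h1 : Tendsto (fun T : ℝ => |C| * T ^ (θ - 1)) atTop (𝓝 0) := by
    have := (tendsto_rpow_neg_atTop (show 0 < 1 - θ by linarith)).const_mul |C|
    simp only [mul_zero, neg_sub] at this
    exact this
  refine squeeze_zero_norm' ?_ h1
  filter_upwards [eventually_ge_atTop (Real.exp 1)] with T hT
  have hT0 : 0 < T := (Real.exp_pos 1).trans_le hT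
  have hL : 1 ≤ Real.log T := by rwa [Real.le_log_iff_exp_le hT0]
  have h2 : (1:ℝ) ≤ Real.log T ^ q := one_le_pow₀ hL
  have hN : T ≤ NN q T := by unfold NN; nlinarith
  rw [norm_div, norm_mul, Real.norm_eq_abs, Real.norm_of_nonneg (Real.rpow_nonneg hT0.le _),
    Real.norm_of_nonneg (by linarith : 0 ≤ NN q T), Real.rpow_sub_one hT0.ne', ← mul_div_assoc]
  have : 0 ≤ |C| * T ^ θ := mul_nonneg (abs_nonneg _) (Real.rpow_nonneg hT0.le _)
  gcongr

theorem mv_edge {p : ℝ → ℝ} (hp0 : ∀ x, 0 ≤ p x) (hts : TS (cx p)) (hpc : Continuous p) {θ : ℝ} (hθ0 : 0 < θ)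
    (hθ : θ < 1) (hp : ∀ x, θ ≤ x → p x = 0) {k : ℕ} (hk : 1 ≤ k) :
    Tendsto (fun T : ℝ => mD (cx p) k T / NN (k ^ 2) T) atTop
      (𝓝 (H306R2.aF k * ∫ u in Ioi (0:ℝ), u ^ (k ^ 2 - 1) / (k ^ 2 - 1).factorial * p u ^ 2)) := by
  obtain ⟨b, hb0, hb⟩ := hts.bdd
  have hpb : ∀ x, p x ≤ b + 1 := by
    intro x
    have h := hb x
    unfold cx at h
    rw [Complex.norm_real, Real.norm_of_nonneg (hp0 x)] at h
    linarith
  set κ : ℝ := (1 - θ) / (4 * (θ + 1)) with hκd
  have hκ : 0 < κ := by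
    have : 0 < 1 - θ := by linarith
    positivity
  obtain ⟨D, hD, hd⟩ := dr_le k hκ
  -- the diagonal
  have hdiag := W182.KO.diag_limit hk (fun x => ((p (x / 2) ^ 2 : ℝ) : ℂ)) (by fun_prop) (2 * θ) (by positivity)
    (fun x hx => by rw [hp (x / 2) (by linarith)]; simp)
  have hdiag2 : Tendsto (fun T : ℝ => (∑' n : ℕ, dr k n ^ 2 / n * p (Real.log n / Real.log T) ^ 2) /
      Real.log T ^ (k ^ 2)) atTop
      (𝓝 (H306R2.aF k * ∫ u in Ioi (0:ℝ), u ^ (k ^ 2 - 1) / (k ^ 2 - 1).factorial * p u ^ 2)) := by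
    have h1 := (hdiag.comp Real.tendsto_log_atTop)
    have e1 : ((H306R2.aF k : ℂ) * ∫ u in Ioi (0:ℝ), (u : ℂ) ^ (k ^ 2 - 1) / (k ^ 2 - 1).factorial *
        ((p (2 * u / 2) ^ 2 : ℝ) : ℂ)) =
        ((H306R2.aF k * ∫ u in Ioi (0:ℝ), u ^ (k ^ 2 - 1) / (k ^ 2 - 1).factorial * p u ^ 2 : ℝ) : ℂ) := by
      rw [Complex.ofReal_mul, ← integral_complex_ofReal]
      congr 1
      refine integral_congr_ae (Eventually.of_forall fun u => ?_)
      simp only
      rw [mul_div_cancel_left₀ u (by norm_num : (2:ℝ) ≠ 0)]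
      push_cast
      ring
    rw [e1] at h1
    have h2 := (Complex.continuous_re.tendsto _).comp h1
    rw [Complex.ofReal_re] at h2
    refine h2.congr fun T => ?_
    simp only [Function.comp]
    have e2 : (∑' n : ℕ, (W182.KO.dk k n : ℂ) * W182.KO.dk k n / n *
        ((p (2 * Real.log n / Real.log T / 2) ^ 2 : ℝ) : ℂ)) =
        ((∑' n : ℕ, dr k n ^ 2 / n * p (Real.log n / Real.log T) ^ 2 : ℝ) : ℂ) := by
      rw [Complex.ofReal_tsum]
      refine tsum_congr fun n => ?_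
      have : 2 * Real.log n / Real.log T / 2 = Real.log n / Real.log T := by ring
      rw [this]
      unfold dr
      push_cast
      ring
    rw [e2, ← Complex.ofReal_pow, ← Complex.ofReal_div, Complex.ofReal_re]
  -- the mean value theorem
  have hmv : ∀ T : ℝ, Real.exp 1 ≤ T → |mD (cx p) k T - T * ∑' n : ℕ, dr k n ^ 2 / n * p (Real.log n / Real.log T) ^ 2| ≤
      (6 * ((b + 1) * D) ^ 2 * (1 + κ⁻¹) * 2 ^ (1 + 3 * κ)) * T ^ (θ * (1 + 3 * κ)) := by
    intro T hT
    have hT0 : 0 < T := (Real.exp_pos 1).trans_le hT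
    have hT1 : 1 < T := by have := Real.add_one_le_exp 1; linarith
    have hL : 1 ≤ Real.log T := by rwa [Real.le_log_iff_exp_le hT0]
    have hL0 : 0 < Real.log T := by linarith
    set L := Real.log T with hLd
    set N : ℕ := ⌈T ^ θ⌉₊ with hN
    have hTθ : 1 ≤ T ^ θ := Real.one_le_rpow hT1.le hθ0.le
    have hN1 : 1 ≤ N := Nat.one_le_ceil_iff.2 (by linarith)
    have hN1' : (1:ℝ) ≤ N := by exact_mod_cast hN1
    have hN2 : (N:ℝ) ≤ 2 * T ^ θ := by
      have := Nat.ceil_lt_add_one (show 0 ≤ T ^ θ by linarith)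
      linarith
    have hpz : ∀ n : ℕ, N ≤ n → p (Real.log n / L) = 0 := by
      intro n hn
      refine hp _ ?_
      have h1 : T ^ θ ≤ n := (Nat.le_ceil _).trans (by exact_mod_cast hn)
      rw [le_div_iff₀ hL0, hLd, ← Real.log_rpow hT0]
      exact Real.log_le_log (by positivity) h1
    set c : ℝ := (b + 1) * (D * (N : ℝ) ^ κ) with hc
    have hc0 : 0 < c := by positivity
    set g : ℕ → ℝ := fun n => dr k n * p (Real.log n / L) / c with hg
    have hg0 : ∀ n, 0 ≤ g n := fun n => div_nonneg (mul_nonneg (dr_nonneg k n) (hp0 _)) hc0.le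
    have hg1 : ∀ n, g n ≤ 1 := by
      intro n
      simp only [hg]
      rcases le_total N n with h | h
      · rw [hpz n h]; simp
      · rw [div_le_one hc0, hc, mul_comm (b + 1)]
        have h1 : dr k n ≤ D * (N : ℝ) ^ κ := by
          refine (hd n).trans ?_
          have : (n:ℝ) ≤ N := by exact_mod_cast h
          gcongr
        exact mul_le_mul h1 (hpb _) (hp0 _) (by positivity)
    have h := W184.mv_DS hg0 hg1 (σ := 1 / 2) le_rfl N T (2 * T)
    have e1 : ∀ t : ℝ, ‖DP (cx p) k T t‖ ^ 2 = c ^ 2 * ‖W184.DS g N (((1 / 2 : ℝ) : ℂ) + t * I)‖ ^ 2 := by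
      intro t
      have : DP (cx p) k T t = (c : ℂ) * W184.DS g N (((1 / 2 : ℝ) : ℂ) + t * I) := by
        unfold DP W184.DS
        rw [Finset.mul_sum, tsum_eq_sum (s := Finset.Icc 1 N)]
        · refine Finset.sum_congr rfl fun n hn => ?_
          rw [← mul_assoc]
          have e : (-(1 / 2 + I * t) : ℂ) = -(((1 / 2 : ℝ) : ℂ) + t * I) := by push_cast; ring
          rw [e]
          congr 1
          simp only [hg, cx]
          rw [← ofReal_mul, mul_div_cancel₀ _ hc0.ne']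
          unfold dr
          push_cast
          rfl
        · intro n hn
          rw [Finset.mem_Icc, not_and_or, not_le, not_le] at hn
          rcases hn with h0 | h0
          · have : n = 0 := by omega
            subst this
            rw [dk_zero]; simp
          · unfold cx
            rw [hpz n h0.le]; simp
      rw [this, norm_mul, mul_pow, Complex.norm_real, Real.norm_of_nonneg hc0.le]
    have e2 : c ^ 2 * ∑ n ∈ Finset.Icc 1 N, g n ^ 2 * (n : ℝ) ^ (-(2 * (1 / 2 : ℝ))) =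
        ∑' n : ℕ, dr k n ^ 2 / n * p (Real.log n / L) ^ 2 := by
      rw [tsum_eq_sum (s := Finset.Icc 1 N), Finset.mul_sum]
      · refine Finset.sum_congr rfl fun n hn => ?_
        rw [Finset.mem_Icc] at hn
        have hn0 : (0:ℝ) < n := by exact_mod_cast hn.1
        simp only [hg]
        have : -(2 * (1 / 2 : ℝ)) = -1 := by norm_num
        rw [this, Real.rpow_neg_one]
        field_simp
      · intro n hn
        rw [Finset.mem_Icc, not_and_or, not_le, not_le] at hn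
        rcases hn with h0 | h0
        · have : n = 0 := by omega
          subst this
          simp
        · rw [hpz n h0.le]; simp
    have e3 : mD (cx p) k T - T * ∑' n : ℕ, dr k n ^ 2 / n * p (Real.log n / L) ^ 2 =
        c ^ 2 * ((∫ t in T..(2 * T), ‖W184.DS g N (((1 / 2 : ℝ) : ℂ) + t * I)‖ ^ 2) -
          (2 * T - T) * ∑ n ∈ Finset.Icc 1 N, g n ^ 2 * (n : ℝ) ^ (-(2 * (1 / 2 : ℝ)))) := by
      unfold mD
      simp_rw [e1]
      rw [intervalIntegral.integral_const_mul, ← e2]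
      ring
    rw [e3, abs_mul, abs_of_nonneg (sq_nonneg c)]
    refine (mul_le_mul_of_nonneg_left h (sq_nonneg c)).trans ?_
    -- numerical bound
    have hN0 : (0:ℝ) < N := by linarith
    have q1 : c ^ 2 = ((b + 1) * D) ^ 2 * (N:ℝ) ^ (2 * κ) := by
      have : c = (b + 1) * D * (N:ℝ) ^ κ := by rw [hc]; ring
      rw [this, mul_pow, ← Real.rpow_natCast ((N:ℝ) ^ κ), ← Real.rpow_mul (by linarith)]
      congr 2
      push_cast; ring
    have q2 : 1 + Real.log N ≤ (1 + κ⁻¹) * (N:ℝ) ^ κ := by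
      have a1 := Real.log_le_rpow_div hN0.le hκ
      have a2 : 1 ≤ (N:ℝ) ^ κ := Real.one_le_rpow hN1' hκ.le
      have a3 : (N:ℝ) ^ κ / κ = κ⁻¹ * (N:ℝ) ^ κ := by rw [div_eq_inv_mul]
      rw [a3] at a1
      nlinarith
    have q3 : (N:ℝ) ^ (2 * κ) * (N * (N:ℝ) ^ κ) = (N:ℝ) ^ (1 + 3 * κ) := by
      rw [show 1 + 3 * κ = 2 * κ + (1 + κ) by ring, Real.rpow_add hN0, Real.rpow_add hN0, Real.rpow_one]
    have q4 : (N:ℝ) ^ (1 + 3 * κ) ≤ 2 ^ (1 + 3 * κ) * T ^ (θ * (1 + 3 * κ)) := by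
      calc (N:ℝ) ^ (1 + 3 * κ) ≤ (2 * T ^ θ) ^ (1 + 3 * κ) := by gcongr
        _ = 2 ^ (1 + 3 * κ) * T ^ (θ * (1 + 3 * κ)) := by
            rw [Real.mul_rpow (by norm_num) (by linarith), ← Real.rpow_mul hT0.le]
    calc c ^ 2 * (6 * N * (1 + Real.log N)) ≤
          (((b + 1) * D) ^ 2 * (N:ℝ) ^ (2 * κ)) * (6 * N * ((1 + κ⁻¹) * (N:ℝ) ^ κ)) := by
          rw [q1]; gcongr
      _ = 6 * ((b + 1) * D) ^ 2 * (1 + κ⁻¹) * ((N:ℝ) ^ (2 * κ) * (N * (N:ℝ) ^ κ)) := by ring
      _ ≤ 6 * ((b + 1) * D) ^ 2 * (1 + κ⁻¹) * (2 ^ (1 + 3 * κ) * T ^ (θ * (1 + 3 * κ))) := by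
          rw [q3]; gcongr
      _ = _ := by ring
  have hθ' : θ * (1 + 3 * κ) < 1 := by
    have h1 : κ * (4 * (θ + 1)) = 1 - θ := by rw [hκd]; field_simp
    nlinarith
  have hsm := pow_small hθ' (k ^ 2) (6 * ((b + 1) * D) ^ 2 * (1 + κ⁻¹) * 2 ^ (1 + 3 * κ))
  have hdif : Tendsto (fun T : ℝ => mD (cx p) k T / NN (k ^ 2) T -
      (∑' n : ℕ, dr k n ^ 2 / n * p (Real.log n / Real.log T) ^ 2) / Real.log T ^ (k ^ 2)) atTop (𝓝 0) := by
    refine squeeze_zero_norm' ?_ hsm
    filter_upwards [eventually_ge_atTop (Real.exp 1)] with T hT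
    have hT0 : 0 < T := (Real.exp_pos 1).trans_le hT
    have hT1 : 1 < T := by have := Real.add_one_le_exp 1; linarith
    have hNN := NN_pos (k ^ 2) hT1
    have hL0 : 0 < Real.log T := Real.log_pos hT1
    have e : mD (cx p) k T / NN (k ^ 2) T -
        (∑' n : ℕ, dr k n ^ 2 / n * p (Real.log n / Real.log T) ^ 2) / Real.log T ^ (k ^ 2) =
        (mD (cx p) k T - T * ∑' n : ℕ, dr k n ^ 2 / n * p (Real.log n / Real.log T) ^ 2) / NN (k ^ 2) T := by
      unfold NN
      field_simp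
    rw [e, norm_div, Real.norm_eq_abs, Real.norm_of_nonneg hNN.le]
    gcongr
    exact hmv T hT
  have := hdif.add hdiag2
  simp only [sub_add_cancel, zero_add] at this
  exact this

end

end Pool.Agent.K4H66.HL
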