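import Pool.Agent.K4H66.HL.J

set_option autoImplicit false

/-! The comparison of the mean square of a smooth Dirichlet polynomial with the moment. -/

namespace Pool.Agent.K4H66.HL

open Complex MeasureTheory Filter Topology Set Pool.Agent.TH535.SM Pool.Agent.K4H66.OL Pool.Agent.R446.KR
open scoped ComplexConjugate FourierTransform ContDiff ENNReal Convolution

noncomputable section

variable {φ : ℝ → ℂ}

/-- `F` is at most `ε` times the moment, up to the remainder -/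
def SmE (k : ℕ) (ε : ℝ) (F : ℝ → ℝ) : Prop := ∃ C T0 : ℝ, 0 ≤ C ∧ 4 ≤ T0 ∧ ∀ T : ℝ, T0 ≤ T →
  |F T| ≤ ε * (M (zr k 0) (2 * T) + NN (k ^ 2) T) + C * Rm (zr k 0) T

lemma SmE.add {k : ℕ} {ε1 ε2 : ℝ} {F1 F2 : ℝ → ℝ} (h1 : SmE k ε1 F1) (h2 : SmE k ε2 F2) :
    SmE k (ε1 + ε2) (fun T => F1 T + F2 T) := by
  obtain ⟨C1, T1, hC1, hT1, a1⟩ := h1
  obtain ⟨C2, T2, hC2, hT2, a2⟩ := h2
  refine ⟨C1 + C2, max T1 T2, by positivity, le_max_of_le_left hT1, fun T hT => ?_⟩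
  have b1 := a1 T ((le_max_left _ _).trans hT)
  have b2 := a2 T ((le_max_right _ _).trans hT)
  refine (abs_add_le _ _).trans ?_
  linarith

lemma SmE.mul {k : ℕ} {ε : ℝ} {F : ℝ → ℝ} (h : SmE k ε F) (c : ℝ) : SmE k (|c| * ε) (fun T => c * F T) := by
  obtain ⟨C1, T1, hC1, hT1, a1⟩ := h
  refine ⟨|c| * C1, T1, by positivity, hT1, fun T hT => ?_⟩
  rw [abs_mul]
  have := mul_le_mul_of_nonneg_left (a1 T hT) (abs_nonneg c)
  linarith

lemma SmE.mono {k : ℕ} {ε ε' : ℝ} {F : ℝ → ℝ} (h : SmE k ε F) (hε : ε ≤ ε') : SmE k ε' F := by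
  obtain ⟨C1, T1, hC1, hT1, a1⟩ := h
  refine ⟨C1, T1, hC1, hT1, fun T hT => (a1 T hT).trans ?_⟩
  have h1 := M_nonneg (zr k 0) (T := 2 * T) (by linarith)
  have h2 := NN_pos (k ^ 2) (T := T) (by linarith)
  gcongr

lemma SmE.congr {k : ℕ} {ε : ℝ} {F G : ℝ → ℝ} (h : SmE k ε F) (he : ∀ T : ℝ, 4 ≤ T → F T = G T) : SmE k ε G := by
  obtain ⟨C1, T1, hC1, hT1, a1⟩ := h
  exact ⟨C1, T1, hC1, hT1, fun T hT => by rw [← he T (hT1.trans hT)]; exact a1 T hT⟩

lemma SmE_zero {k : ℕ} {F : ℝ → ℝ} (h : Tendsto (fun T => F T / NN (k ^ 2) T) atTop (𝓝 0)) {ε : ℝ} (hε : 0 < ε) :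
    SmE k ε F := by
  obtain ⟨T1, hT1⟩ := Metric.tendsto_atTop.1 h ε hε
  refine ⟨0, max T1 4, le_rfl, le_max_right _ _, fun T hT => ?_⟩
  have h1 := hT1 T ((le_max_left _ _).trans hT)
  have hT4 : 4 ≤ T := (le_max_right _ _).trans hT
  have h2 := NN_pos (k ^ 2) (T := T) (by linarith)
  have h3 := M_nonneg (zr k 0) (T := 2 * T) (by linarith)
  rw [Real.dist_eq, sub_zero, abs_div, abs_of_pos h2, div_lt_iff₀ h2] at h1
  nlinarith [mul_nonneg hε.le h3]

/-- the mass of the smooth windowed function -/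
lemma mass_le (k : ℕ) {u : ℕ} (hu : 1 ≤ u) : ∃ C T0 : ℝ, 0 ≤ C ∧ 4 ≤ T0 ∧ ∀ T : ℝ, T0 ≤ T →
    (∫ t, ‖f1 (H k u) T t‖ ^ 2) ≤ 2 * M (zr k 0) (2 * T) + C * Rm (zr k 0) T := by
  obtain ⟨C, T0, hC, hT0, h⟩ := mass_close k hu (ε := 1) one_pos
  refine ⟨C, T0, hC, hT0, fun T hT => ?_⟩
  have h1 := (abs_le.1 (h T hT)).2
  have h2 := M_nonneg (zr k 0) (T := T) (by linarith)
  linarith

lemma SmE_of (k : ℕ) {u : ℕ} (hu : 1 ≤ u) {ε : ℝ} (hε : 0 ≤ ε) {F : ℝ → ℝ}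
    (h : ∃ C T0 : ℝ, 0 ≤ C ∧ 4 ≤ T0 ∧ ∀ T : ℝ, T0 ≤ T → |F T| ≤
      ε * (∫ t, ‖f1 (H k u) T t‖ ^ 2) + ε * M (zr k 0) (2 * T) + C * Rm (zr k 0) T) : SmE k (3 * ε) F := by
  obtain ⟨C, T0, hC, hT0, h1⟩ := h
  obtain ⟨C2, T2, hC2, hT2, h2⟩ := mass_le k hu
  refine ⟨C + ε * C2, max T0 T2, by positivity, le_max_of_le_left hT0, fun T hT => ?_⟩
  have a1 := h1 T ((le_max_left _ _).trans hT)
  have a2 := h2 T ((le_max_right _ _).trans hT)
  have hT4 : 4 ≤ T := hT0.trans ((le_max_left _ _).trans hT)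
  have a3 := NN_pos (k ^ 2) (T := T) (by linarith)
  have a4 := mul_le_mul_of_nonneg_left a2 hε
  nlinarith [mul_nonneg hε a3.le]

lemma cx_sq (p : ℝ → ℝ) (x : ℝ) : ‖cx p x‖ ^ 2 = p x ^ 2 := by
  unfold cx; rw [Complex.norm_real, Real.norm_eq_abs, sq_abs]

lemma cx_TS {p : ℝ → ℝ} (h1 : ContDiff ℝ ∞ p) (h2 : HasCompactSupport p) : TS (cx p) :=
  ⟨Complex.ofRealCLM.contDiff.comp h1, h2.comp_left (g := fun x : ℝ => (x : ℂ)) Complex.ofReal_zero⟩

/-- the weight at the edge -/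
def we (k : ℕ) (x : ℝ) : ℝ := x ^ (k ^ 2 - 1) / (k ^ 2 - 1).factorial

lemma we_cont (k : ℕ) : Continuous (we k) := by unfold we; fun_prop

lemma we_nonneg (k : ℕ) {x : ℝ} (hx : 0 ≤ x) : 0 ≤ we k x := by unfold we; positivity

lemma we_le (k : ℕ) {x : ℝ} (hx : 0 ≤ x) (hx1 : x ≤ 1) : we k x ≤ 1 := by
  unfold we
  have h1 : x ^ (k ^ 2 - 1) ≤ 1 := pow_le_one₀ hx hx1
  have h2 : (1:ℝ) ≤ (k ^ 2 - 1).factorial := by exact_mod_cast Nat.factorial_pos _
  rw [div_le_one (by linarith)]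
  linarith

/-- one real test function supported in `(-∞, 1)`: symmetric spectral functional -/
lemma edge_one {k : ℕ} (hk : 1 ≤ k) {u : ℕ} (hu : 1 ≤ u) {p : ℝ → ℝ} (hp0 : ∀ x, 0 ≤ p x)
    (hcd : ContDiff ℝ ∞ p) (hcs : HasCompactSupport p) {θ : ℝ} (hθ0 : 0 < θ) (hθ : θ < 1)
    (hp : ∀ x, θ ≤ x → p x = 0) {ε : ℝ} (hε : 0 < ε) :
    SmE k ε (fun T => Sf k u T (fun x => p x ^ 2) + Sf k u T (fun x => p (k - x) ^ 2) -
      2 * (H306R2.aF k * ∫ x in Ioi (0:ℝ), we k x * p x ^ 2) * NN (k ^ 2) T) := by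
  have hts := cx_TS hcd hcs
  have a1 := SmE_of k hu (ε := ε / 24) (by positivity) (mD_close hts k hu (ε := ε / 24) (by positivity))
  have a2 := SmE_of k hu (ε := ε / 24) (by positivity) (sym_close hts k hu (ε := ε / 24) (by positivity))
  have hmv := mv_edge hp0 hts hcd.continuous hθ0 hθ hp hk
  set c : ℝ := H306R2.aF k * ∫ x in Ioi (0:ℝ), we k x * p x ^ 2 with hc
  have a3 : SmE k (ε / 8) (fun T => mD (cx p) k T - c * NN (k ^ 2) T) := by
    refine SmE_zero ?_ (by positivity)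
    have h1 := hmv.sub_const c
    have e0 : H306R2.aF k * ∫ u in Ioi (0:ℝ), u ^ (k ^ 2 - 1) / (k ^ 2 - 1).factorial * p u ^ 2 = c := rfl
    rw [e0, sub_self] at h1
    refine h1.congr' ?_
    filter_upwards [eventually_gt_atTop 1] with T hT
    have := NN_pos (k ^ 2) hT
    field_simp
  simp_rw [cx_sq] at a1 a2
  have b := (((a1.mul (-2)).add (a2.mul (-1))).add (a3.mul 2))
  refine (b.mono ?_).congr fun T _ => ?_
  · rw [abs_neg, abs_neg, abs_one, abs_two]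
    linarith
  · ring

lemma Sf_add (k : ℕ) {u : ℕ} (hu : 1 ≤ u) {T : ℝ} (hT : 1 ≤ T) {g1 g2 : ℝ → ℝ} (h1 : Continuous g1)
    (h2 : Continuous g2) {b1 b2 : ℝ} (hb1 : ∀ x, |g1 x| ≤ b1) (hb2 : ∀ x, |g2 x| ≤ b2) :
    Sf k u T (fun x => g1 x + g2 x) = Sf k u T g1 + Sf k u T g2 := by
  unfold Sf
  rw [← integral_add (Sf_int k hu hT h1 hb1) (Sf_int k hu hT h2 hb2)]
  refine integral_congr_ae (Eventually.of_forall fun w => ?_)
  simp only
  ring

lemma Sf_mul (k : ℕ) (u : ℕ) (T : ℝ) (c : ℝ) (g : ℝ → ℝ) :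
    Sf k u T (fun x => c * g x) = c * Sf k u T g := by
  unfold Sf
  rw [← integral_const_mul]
  refine integral_congr_ae (Eventually.of_forall fun w => ?_)
  simp only
  ring

lemma Sf_one (k : ℕ) {u : ℕ} (hu : 1 ≤ u) {T : ℝ} (hT : 1 ≤ T) :
    Sf k u T (fun _ => 1) = ∫ t, ‖f1 (H k u) T t‖ ^ 2 := by
  unfold Sf
  simp only [one_mul]
  exact (planch (f1_dec (zdat k hu) hT)).2

/-- a real smooth function supported in `(-∞, 1)`: symmetric spectral functional -/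
lemma edge_gen {k : ℕ} (hk : 1 ≤ k) {u : ℕ} (hu : 1 ≤ u) {h ψ : ℝ → ℝ}
    (hcd : ContDiff ℝ ∞ h) (hcs : HasCompactSupport h) (hψcd : ContDiff ℝ ∞ ψ) (hψcs : HasCompactSupport ψ)
    (hψ0 : ∀ x, 0 ≤ ψ x) (hψ1 : ∀ x, h x ≠ 0 → ψ x = 1) {θ : ℝ} (hθ0 : 0 < θ) (hθ : θ < 1)
    (hp : ∀ x, θ ≤ x → ψ x = 0) {ε : ℝ} (hε : 0 < ε) :
    SmE k ε (fun T => Sf k u T h + Sf k u T (fun x => h (k - x)) -
      2 * (H306R2.aF k * ∫ x in Ioi (0:ℝ), we k x * h x) * NN (k ^ 2) T) := by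
  obtain ⟨b0, hb0⟩ := hcs.exists_bound_of_continuous hcd.continuous
  obtain ⟨d0, hd0⟩ := hψcs.exists_bound_of_continuous hψcd.continuous
  set c : ℝ := |b0| + 1 with hc
  have hc0 : 0 < c := by positivity
  have hcb : ∀ x, |h x| ≤ c := fun x => by
    have := hb0 x
    rw [Real.norm_eq_abs] at this
    have := le_abs_self b0
    linarith
  have hz : ∀ x, θ ≤ x → h x = 0 := by
    intro x hx
    by_contra hne
    have := hψ1 x hne
    rw [hp x hx] at this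
    norm_num at this
  have hpm : ∀ s : ℝ, |s| = 1 → (∀ x, 0 ≤ c * ψ x + s * h x) := by
    intro s hs x
    by_cases hx : h x = 0
    · rw [hx, mul_zero, add_zero]; exact mul_nonneg hc0.le (hψ0 x)
    · rw [hψ1 x hx, mul_one]
      have h1 : |s * h x| ≤ c := by rw [abs_mul, hs, one_mul]; exact hcb x
      have := (abs_le.1 h1).1
      linarith
  have key : ∀ s : ℝ, |s| = 1 → SmE k (ε * c) (fun T => Sf k u T (fun x => (c * ψ x + s * h x) ^ 2) +
      Sf k u T (fun x => (c * ψ (k - x) + s * h (k - x)) ^ 2) -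
      2 * (H306R2.aF k * ∫ x in Ioi (0:ℝ), we k x * (c * ψ x + s * h x) ^ 2) * NN (k ^ 2) T) := by
    intro s hs
    exact edge_one hk hu (p := fun x => c * ψ x + s * h x) (hpm s hs)
      ((contDiff_const.mul hψcd).add (contDiff_const.mul hcd))
      ((hψcs.mul_left (f := fun _ => c)).add (hcs.mul_left (f := fun _ => s))) hθ0 hθ
      (fun x hx => by rw [hp x hx, hz x hx]; ring) (by positivity)
  have k1 := key 1 abs_one
  have k2 := key (-1) (by rw [abs_neg, abs_one])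
  -- bounds for the linearity
  have hpb : ∀ s : ℝ, |s| = 1 → ∀ x, |(c * ψ x + s * h x) ^ 2| ≤ (c * |d0| + c) ^ 2 := by
    intro s hs x
    rw [abs_of_nonneg (sq_nonneg _)]
    have h1 : |ψ x| ≤ |d0| := by
      have := hd0 x
      rw [Real.norm_eq_abs] at this
      exact this.trans (le_abs_self d0)
    have h2 : c * ψ x + s * h x ≤ c * |d0| + c := by
      have a1 : c * ψ x ≤ c * |d0| := by gcongr; exact (le_abs_self _).trans h1
      have a2 : s * h x ≤ c := (le_abs_self _).trans (by rw [abs_mul, hs, one_mul]; exact hcb x)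
      linarith
    exact pow_le_pow_left₀ (hpm s hs x) h2 2
  have hcont : ∀ s : ℝ, Continuous (fun x => (c * ψ x + s * h x) ^ 2) := by
    intro s
    have := hψcd.continuous
    have := hcd.continuous
    fun_prop
  have hid : ∀ x, h x = (4 * c)⁻¹ * (c * ψ x + 1 * h x) ^ 2 + -(4 * c)⁻¹ * (c * ψ x + -1 * h x) ^ 2 := by
    intro x
    by_cases hx : h x = 0
    · rw [hx]; ring
    · rw [hψ1 x hx]; field_simp; ring
  have hlin : ∀ T : ℝ, 4 ≤ T → ∀ τ : ℝ → ℝ, Continuous τ → Sf k u T (fun x => h (τ x)) =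
      (4 * c)⁻¹ * Sf k u T (fun x => (c * ψ (τ x) + 1 * h (τ x)) ^ 2) +
      -(4 * c)⁻¹ * Sf k u T (fun x => (c * ψ (τ x) + -1 * h (τ x)) ^ 2) := by
    intro T hT τ hτ
    rw [← Sf_mul, ← Sf_mul, ← Sf_add k hu (by linarith) (b1 := (4 * c)⁻¹ * (c * |d0| + c) ^ 2)
      (b2 := (4 * c)⁻¹ * (c * |d0| + c) ^ 2)]
    · congr 1; funext x; exact hid (τ x)
    · exact continuous_const.mul ((hcont 1).comp hτ)
    · exact continuous_const.mul ((hcont (-1)).comp hτ)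
    · intro x
      rw [abs_mul, abs_of_pos (by positivity : 0 < (4 * c)⁻¹)]
      gcongr
      exact hpb 1 abs_one _
    · intro x
      rw [abs_mul, abs_neg, abs_of_pos (by positivity : 0 < (4 * c)⁻¹)]
      gcongr
      exact hpb (-1) (by rw [abs_neg, abs_one]) _
  have hint : ∀ s : ℝ, Integrable (fun x => we k x * (c * ψ x + s * h x) ^ 2) (volume.restrict (Ioi 0)) := by
    intro s
    refine Integrable.restrict (Continuous.integrable_of_hasCompactSupport ((we_cont k).mul (hcont s)) ?_)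
    refine HasCompactSupport.mul_left ?_
    have : HasCompactSupport (fun x => c * ψ x + s * h x) :=
      (hψcs.mul_left (f := fun _ => c)).add (hcs.mul_left (f := fun _ => s))
    have e : (fun x => (c * ψ x + s * h x) ^ 2) = (fun x => (c * ψ x + s * h x) * (c * ψ x + s * h x)) := by
      funext x; ring
    rw [e]
    exact this.mul_left
  have hI : ∫ x in Ioi (0:ℝ), we k x * h x = (4 * c)⁻¹ * (∫ x in Ioi (0:ℝ), we k x * (c * ψ x + 1 * h x) ^ 2) +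
      -(4 * c)⁻¹ * ∫ x in Ioi (0:ℝ), we k x * (c * ψ x + -1 * h x) ^ 2 := by
    rw [← integral_const_mul, ← integral_const_mul, ← integral_add ((hint 1).const_mul _) ((hint (-1)).const_mul _)]
    refine integral_congr_ae (Eventually.of_forall fun x => ?_)
    simp only
    conv_lhs => rw [hid x]
    ring
  have b := (k1.mul ((4 * c)⁻¹)).add (k2.mul (-(4 * c)⁻¹))
  refine (b.mono ?_).congr fun T hT => ?_
  · rw [abs_neg, abs_of_pos (by positivity : 0 < (4 * c)⁻¹)]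
    have : (4 * c)⁻¹ * (ε * c) = ε / 4 := by field_simp
    rw [this]; linarith
  · rw [hI]
    have e1 := hlin T hT (fun x => x) continuous_id
    have e2 := hlin T hT (fun x => (k:ℝ) - x) (by fun_prop)
    rw [show Sf k u T h = Sf k u T (fun x => h x) from rfl, e1, e2]
    ring

end

end Pool.Agent.K4H66.HL
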