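import Pool.Agent.K4H66.HL.K

set_option autoImplicit false

/-! The master comparison. -/

namespace Pool.Agent.K4H66.HL

open Complex MeasureTheory Filter Topology Set Pool.Agent.TH535.SM Pool.Agent.K4H66.OL Pool.Agent.R446.KR
open scoped ComplexConjugate FourierTransform ContDiff ENNReal Convolution

noncomputable section

variable {φ : ℝ → ℂ}

/-- the defect of the partition of unity -/
def g0 (φ : ℝ → ℂ) (k : ℕ) (x : ℝ) : ℝ := ‖φ x‖ ^ 2 + ‖φ (k - x)‖ ^ 2 - 1

lemma g0_symm (φ : ℝ → ℂ) (k : ℕ) (x : ℝ) : g0 φ k (k - x) = g0 φ k x := by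
  unfold g0
  rw [sub_sub_cancel]
  ring

lemma nsq_cd {f : ℝ → ℂ} (hf : ContDiff ℝ ∞ f) : ContDiff ℝ ∞ (fun x => ‖f x‖ ^ 2) :=
  hf.norm_sq ℝ

lemma g0_cd (h : TS φ) (k : ℕ) : ContDiff ℝ ∞ (g0 φ k) := by
  unfold g0
  exact ((nsq_cd h.cd).add (nsq_cd (h.cd.comp (contDiff_const.sub contDiff_id)))).sub contDiff_const

/-- the edge term -/
def Jc (φ : ℝ → ℂ) (k : ℕ) : ℝ := H306R2.aF k * ∫ x in (0:ℝ)..1, we k x * g0 φ k x

theorem master {k : ℕ} (hk : 2 ≤ k) (h : TS φ)
    (hφ : ∀ x ∈ Icc (1:ℝ) (k - 1), ‖φ x‖ ^ 2 + ‖φ (k - x)‖ ^ 2 = 1) {ε : ℝ} (hε : 0 < ε) :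
    SmE k ε (fun T => 2 * mD φ k T - (M (zr k 0) (2 * T) - M (zr k 0) T) - 2 * Jc φ k * NN (k ^ 2) T) := by
  have hk1 : 1 ≤ k := by omega
  have hk2 : (2:ℝ) ≤ k := by exact_mod_cast hk
  obtain ⟨b, hb0, hb⟩ := h.bdd
  have hgc : Continuous (g0 φ k) := (g0_cd h k).continuous
  have hφ0 : ∀ x ∈ Icc (1:ℝ) (k - 1), g0 φ k x = 0 := by
    intro x hx
    unfold g0
    rw [hφ x hx]; ring
  have hgb : ∀ x, |g0 φ k x| ≤ 2 * b ^ 2 + 1 := by
    intro x
    unfold g0
    have h1 : ‖φ x‖ ^ 2 ≤ b ^ 2 := by gcongr; exact hb x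
    have h2 : ‖φ (k - x)‖ ^ 2 ≤ b ^ 2 := by gcongr; exact hb _
    have h3 : 0 ≤ ‖φ x‖ ^ 2 := by positivity
    have h4 : 0 ≤ ‖φ (k - x)‖ ^ 2 := by positivity
    rw [abs_le]
    constructor <;> nlinarith
  have haF : 0 < H306R2.aF k := H306R2.aF_pos (by linarith)
  set aF : ℝ := H306R2.aF k with haFd
  set η : ℝ := ε / (20 * (aF + 1)) with hη
  have hη0 : 0 < η := by positivity
  have hη1 : 2 * η ≤ ε / 10 := by
    rw [hη, mul_div_assoc', div_le_div_iff₀ (by positivity) (by norm_num)]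
    nlinarith
  have hη2 : 2 * aF * η ≤ ε / 10 := by
    rw [hη, mul_div_assoc', div_le_div_iff₀ (by positivity) (by norm_num)]
    nlinarith
  obtain ⟨δ0, hδ0, hδg⟩ := Metric.continuousAt_iff.1 (hgc.continuousAt (x := 1)) η hη0
  rw [hφ0 1 ⟨le_rfl, by linarith⟩] at hδg
  set δ : ℝ := min (1 / 8) (δ0 / 4) with hδ
  have hδp : 0 < δ := by positivity
  have hδ8 : δ ≤ 1 / 8 := min_le_left _ _
  have hδ4 : δ ≤ δ0 / 4 := min_le_right _ _
  have hnear : ∀ x, |x - 1| ≤ 2 * δ → |g0 φ k x| ≤ η := by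
    intro x hx
    have h1 := hδg (x := x) (by rw [Real.dist_eq]; linarith)
    rw [Real.dist_eq, sub_zero] at h1
    exact h1.le
  obtain ⟨u, hu'⟩ := exists_nat_ge (2 / δ)
  have huδ : 2 ≤ δ * u := by rw [div_le_iff₀ hδp] at hu'; linarith
  have hu1 : (1:ℝ) ≤ u := by nlinarith
  have hu : 1 ≤ u := by exact_mod_cast hu1
  -- the cut-offs
  let χ : ContDiffBump ((1 - 3 * δ) / 2 : ℝ) := ⟨(1 - δ) / 2, (1 + δ) / 2, by linarith, by linarith⟩
  let ψ : ContDiffBump ((1 - 3 * δ) / 2 : ℝ) := ⟨(1 + δ) / 2, (1 + 2 * δ) / 2, by linarith, by linarith⟩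
  have hχ1 : ∀ x, -δ ≤ x → x ≤ 1 - 2 * δ → χ x = 1 := by
    intro x h1 h2
    refine χ.one_of_mem_closedBall ?_
    rw [Metric.mem_closedBall, Real.dist_eq, abs_le]
    constructor <;> simp only [χ] <;> linarith
  have hχ0 : ∀ x, 1 - δ ≤ x → χ x = 0 := by
    intro x h1
    refine χ.zero_of_le_dist ?_
    rw [Real.dist_eq]
    refine le_trans ?_ (le_abs_self _)
    simp only [χ]
    linarith
  have hψ0 : ∀ x, 1 - δ / 2 ≤ x → ψ x = 0 := by
    intro x h1
    refine ψ.zero_of_le_dist ?_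
    rw [Real.dist_eq]
    refine le_trans ?_ (le_abs_self _)
    simp only [ψ]
    linarith
  have hψ1 : ∀ x, χ x ≠ 0 → ψ x = 1 := by
    intro x hx
    refine ψ.one_of_mem_closedBall ?_
    have h1 : x ∈ Function.support χ := hx
    rw [χ.support_eq, Metric.mem_ball] at h1
    rw [Metric.mem_closedBall]
    simp only [χ] at h1
    simp only [ψ]
    linarith
  set hh : ℝ → ℝ := fun x => g0 φ k x * χ x with hhd
  have hhcd : ContDiff ℝ ∞ hh := (g0_cd h k).mul χ.contDiff
  have hhcs : HasCompactSupport hh := χ.hasCompactSupport.mul_left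
  have hhc : Continuous hh := hhcd.continuous
  have hhb : ∀ x, |hh x| ≤ 2 * b ^ 2 + 1 := by
    intro x
    simp only [hhd]
    rw [abs_mul, abs_of_nonneg χ.nonneg]
    calc |g0 φ k x| * χ x ≤ (2 * b ^ 2 + 1) * 1 := mul_le_mul (hgb x) χ.le_one χ.nonneg (by positivity)
      _ = _ := mul_one _
  have hhle : ∀ x, |g0 φ k x - hh x| ≤ |g0 φ k x| := by
    intro x
    simp only [hhd]
    have e : g0 φ k x - g0 φ k x * χ x = g0 φ k x * (1 - χ x) := by ring
    rw [e, abs_mul, abs_of_nonneg (by linarith [χ.le_one (x := x)] : 0 ≤ 1 - χ x)]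
    have := χ.nonneg (x := x)
    have := abs_nonneg (g0 φ k x)
    nlinarith
  -- the remaining part is small
  set g4 : ℝ → ℝ := fun x => g0 φ k x - hh x - hh (k - x) with hg4
  have hg4c : Continuous g4 := (hgc.sub hhc).sub (hhc.comp (by fun_prop))
  have hg4b : ∀ x, |g4 x| ≤ 3 * (2 * b ^ 2 + 1) := by
    intro x
    simp only [hg4]
    have a1 := abs_sub (g0 φ k x - hh x) (hh (k - x))
    have a2 := abs_sub (g0 φ k x) (hh x)
    have a3 := hgb x
    have a4 := hhb x
    have a5 := hhb (k - x)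
    linarith
  have hg4s : ∀ x, g4 (k - x) = g4 x := by
    intro x
    simp only [hg4]
    rw [g0_symm, sub_sub_cancel]
    ring
  have hg4l : ∀ x, -δ ≤ x → x ≤ 1 → |g4 x| ≤ η := by
    intro x h1 h2
    have e : hh (k - x) = 0 := by
      simp only [hhd]
      rw [hχ0 (k - x) (by linarith), mul_zero]
    simp only [hg4]
    rw [e, sub_zero]
    rcases le_total x (1 - 2 * δ) with h3 | h3
    · simp only [hhd]
      rw [hχ1 x h1 h3, mul_one, sub_self, abs_zero]
      exact hη0.le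
    · refine (hhle x).trans (hnear x ?_)
      rw [abs_le]
      constructor <;> linarith
  have hg4η : ∀ x ∈ Icc (-δ) (k + δ), |g4 x| ≤ η := by
    intro x hx
    rcases le_total x 1 with h1 | h1
    · exact hg4l x hx.1 h1
    rcases le_total x (k - 1) with h2 | h2
    · have e1 : g0 φ k x = 0 := hφ0 x ⟨h1, h2⟩
      have e2 : g0 φ k (k - x) = 0 := by rw [g0_symm, e1]
      simp only [hg4, hhd]
      rw [e1, e2, zero_mul, zero_mul, sub_zero, sub_zero, abs_zero]
      exact hη0.le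
    · rw [← hg4s]
      exact hg4l (k - x) (by linarith [hx.2]) (by linarith)
  -- the pieces
  have a1 := SmE_of k hu (ε := ε / 60) (by positivity) (mD_close h k hu (ε := ε / 60) (by positivity))
  have a2 := SmE_of k hu (ε := ε / 60) (by positivity) (sym_close h k hu (ε := ε / 60) (by positivity))
  have a3 : SmE k (ε / 10) (fun T => (∫ t, ‖f1 (H k u) T t‖ ^ 2) - (M (zr k 0) (2 * T) - M (zr k 0) T)) := by
    obtain ⟨C, T0, hC, hT0, h1⟩ := mass_close k hu (ε := ε / 10) (by positivity)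
    refine ⟨C, T0, hC, hT0, fun T hT => (h1 T hT).trans ?_⟩
    have := NN_pos (k ^ 2) (T := T) (by linarith)
    have : 0 ≤ ε / 10 * NN (k ^ 2) T := by positivity
    linarith
  have a4 : SmE k (ε / 10) (fun T => Sf k u T g4) := by
    obtain ⟨C, T0, hC, hT0, h1⟩ := Sf_sup k hδp (by linarith) huδ hg4c hg4b hη0.le hg4η
    obtain ⟨C2, T2, hC2, hT2, h2⟩ := mass_le k hu
    refine ⟨C + η * C2, max T0 T2, by positivity, le_max_of_le_left hT0, fun T hT => ?_⟩
    have b1 := h1 T ((le_max_left _ _).trans hT)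
    have b2 := mul_le_mul_of_nonneg_left (h2 T ((le_max_right _ _).trans hT)) hη0.le
    have hT4 : 4 ≤ T := hT0.trans ((le_max_left _ _).trans hT)
    have b3 := NN_pos (k ^ 2) (T := T) (by linarith)
    have b4 := M_nonneg (zr k 0) (T := 2 * T) (by linarith)
    have b5 := Rm_pos (zr k 0) T
    have b6 : 2 * η * M (zr k 0) (2 * T) ≤ ε / 10 * M (zr k 0) (2 * T) := by gcongr
    have b7 : 0 ≤ ε / 10 * NN (k ^ 2) T := by positivity
    have b8 : C ≤ C * Rm (zr k 0) T := by nlinarith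
    linarith
  have a5 := edge_gen hk1 hu hhcd hhcs ψ.contDiff ψ.hasCompactSupport (fun x => ψ.nonneg)
    (fun x hx => hψ1 x (fun h0 => hx (by simp only [hhd]; rw [h0, mul_zero]))) (θ := 1 - δ / 2) (by linarith)
    (by linarith) hψ0 (ε := ε / 10) (by positivity)
  -- the constants
  set Jh : ℝ := aF * ∫ x in Ioi (0:ℝ), we k x * hh x with hJh
  have hJ1 : ∫ x in Ioi (0:ℝ), we k x * hh x = ∫ x in (0:ℝ)..1, we k x * hh x := by
    rw [intervalIntegral.integral_of_le zero_le_one]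
    refine (setIntegral_eq_of_subset_of_forall_diff_eq_zero measurableSet_Ioi Ioc_subset_Ioi_self ?_)
    intro x hx
    have hx1 : 1 < x := by
      by_contra hlt
      push Not at hlt
      exact hx.2 ⟨hx.1, hlt⟩
    simp only [hhd]
    rw [hχ0 x (by linarith)]
    ring
  have hJ2 : |Jh - Jc φ k| ≤ aF * η := by
    rw [hJh, hJ1]
    unfold Jc
    rw [← mul_sub, abs_mul, abs_of_pos haF]
    refine mul_le_mul_of_nonneg_left ?_ haF.le
    have i1 : IntervalIntegrable (fun x => we k x * hh x) volume 0 1 :=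
      ((we_cont k).mul hhc).intervalIntegrable _ _
    have i2 : IntervalIntegrable (fun x => we k x * g0 φ k x) volume 0 1 :=
      ((we_cont k).mul hgc).intervalIntegrable _ _
    rw [← intervalIntegral.integral_sub i1 i2]
    have := intervalIntegral.norm_integral_le_of_norm_le_const (a := 0) (b := 1) (C := η)
      (f := fun x => we k x * hh x - we k x * g0 φ k x) (fun x hx => by
        rw [uIoc_of_le zero_le_one] at hx
        have e : we k x * hh x - we k x * g0 φ k x = -(we k x * (g0 φ k x - hh x)) := by ring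
        rw [e, norm_neg, norm_mul, Real.norm_of_nonneg (we_nonneg k hx.1.le), Real.norm_eq_abs]
        have c1 := we_le k hx.1.le hx.2
        have c2 : |g0 φ k x - hh x| ≤ η := by
          rcases le_total x (1 - 2 * δ) with h3 | h3
          · simp only [hhd]
            rw [hχ1 x (by linarith [hx.1]) h3, mul_one, sub_self, abs_zero]
            exact hη0.le
          · refine (hhle x).trans (hnear x ?_)
            rw [abs_le]
            constructor <;> linarith [hx.2]
        calc we k x * |g0 φ k x - hh x| ≤ 1 * η := mul_le_mul c1 c2 (abs_nonneg _) zero_le_one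
          _ = η := one_mul η)
    rw [Real.norm_eq_abs] at this
    simpa using this
  have a6 : SmE k (ε / 10) (fun T => 2 * (Jh - Jc φ k) * NN (k ^ 2) T) := by
    refine ⟨0, 4, le_rfl, le_rfl, fun T hT => ?_⟩
    have b3 := NN_pos (k ^ 2) (T := T) (by linarith)
    have b4 := M_nonneg (zr k 0) (T := 2 * T) (by linarith)
    rw [abs_mul, abs_mul, abs_two, abs_of_pos b3]
    have b5 : 2 * |Jh - Jc φ k| * NN (k ^ 2) T ≤ ε / 10 * NN (k ^ 2) T := by
      gcongr
      linarith
    have b6 : 0 ≤ ε / 10 * M (zr k 0) (2 * T) := by positivity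
    linarith
  have tot := (((((a1.mul 2).add a2).add a3).add a4).add a5).add a6
  refine (tot.mono ?_).congr fun T hT => ?_
  · rw [abs_two]; linarith
  · have hT1 : 1 ≤ T := by linarith
    have c1 : Continuous (fun x => ‖φ x‖ ^ 2) := (nsq_cd h.cd).continuous
    have c2 : Continuous (fun x => ‖φ (k - x)‖ ^ 2) := c1.comp (by fun_prop)
    have l1 := Sf_add k hu hT1 c1 c2 (b1 := b ^ 2) (b2 := b ^ 2)
      (fun x => by rw [abs_of_nonneg (by positivity)]; gcongr; exact hb x)
      (fun x => by rw [abs_of_nonneg (by positivity)]; gcongr; exact hb _)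
    have l2 := Sf_add k hu hT1 (g1 := fun _ => 1) (g2 := g0 φ k) continuous_const hgc (b1 := 1)
      (b2 := 2 * b ^ 2 + 1) (fun x => by simp) hgb
    have l3 := Sf_add k hu hT1 (g1 := g4) (g2 := fun x => hh x + hh (k - x)) hg4c
      (hhc.add (hhc.comp (by fun_prop))) (b1 := 3 * (2 * b ^ 2 + 1)) (b2 := 2 * (2 * b ^ 2 + 1)) hg4b
      (fun x => by
        refine (abs_add_le _ _).trans ?_
        have := hhb x
        have := hhb (k - x)
        linarith)
    have l4 := Sf_add k hu hT1 (g1 := hh) (g2 := fun x => hh (k - x)) hhc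
      (hhc.comp (by fun_prop)) (b1 := 2 * b ^ 2 + 1) (b2 := 2 * b ^ 2 + 1) hhb (fun x => hhb _)
    have e1 : (fun x => ‖φ x‖ ^ 2 + ‖φ (k - x)‖ ^ 2) = fun x => 1 + g0 φ k x := by
      funext x; unfold g0; ring
    have e2 : (fun x => g4 x + (hh x + hh (k - x))) = g0 φ k := by
      funext x; simp only [hg4]; ring
    rw [e1, l2, Sf_one k hu hT1] at l1
    rw [e2, l4] at l3
    rw [l3] at l1
    linear_combination l1

end

end Pool.Agent.K4H66.HL
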