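import Pool.Agent.R446.KR.Slow

set_option autoImplicit false

/-! Tauberian steps for a monotone function whose dyadic increments are known. -/

namespace Pool.Agent.K4H66.HL

open MeasureTheory Filter Topology Set Pool.Agent.R446.KR

noncomputable section

/-- large jumps of a monotone function are rare -/
lemma mono_jump {l : ℝ → ℝ} (hl : Monotone l) (h0 : ∀ x, 0 ≤ l x) {X Y h lam : ℝ} (hXY : X ≤ Y)
    (hh : 0 ≤ h) (hlam : 0 < lam) :
    MeasurableSet (Icc X Y ∩ {T | lam ≤ l (T + h) - l (T - h)}) ∧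
    (volume : Measure ℝ).real (Icc X Y ∩ {T | lam ≤ l (T + h) - l (T - h)}) ≤ 2 * h * l (Y + h) / lam := by
  have m1 : Monotone (fun T => l (T + h)) := fun a b hab => hl (by linarith)
  have m2 : Monotone (fun T => l (T - h)) := fun a b hab => hl (by linarith)
  have hφm : Measurable (fun T => l (T + h) - l (T - h)) := m1.measurable.sub m2.measurable
  have hms : MeasurableSet {T | lam ≤ l (T + h) - l (T - h)} := measurableSet_le measurable_const hφm
  refine ⟨measurableSet_Icc.inter hms, ?_⟩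
  have hφ0 : ∀ T, 0 ≤ l (T + h) - l (T - h) := by
    intro T
    have := hl (show T - h ≤ T + h by linarith)
    linarith
  have c1 : IntervalIntegrable (fun T => l (T + h)) volume X Y := m1.intervalIntegrable
  have c2 : IntervalIntegrable (fun T => l (T - h)) volume X Y := m2.intervalIntegrable
  have hint : IntegrableOn (fun T => l (T + h) - l (T - h)) (Icc X Y) := by
    have := (intervalIntegrable_iff_integrableOn_Icc_of_le hXY).1 (c1.sub c2)
    exact this
  have hmk := mul_meas_ge_le_integral_of_nonneg (μ := volume.restrict (Icc X Y))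
    (f := fun T => l (T + h) - l (T - h)) (Eventually.of_forall hφ0) hint lam
  have e1 : (volume.restrict (Icc X Y)).real {T | lam ≤ l (T + h) - l (T - h)} =
      (volume : Measure ℝ).real (Icc X Y ∩ {T | lam ≤ l (T + h) - l (T - h)}) := by
    rw [measureReal_restrict_apply hms, inter_comm]
  rw [e1] at hmk
  have hii : ∀ a b : ℝ, IntervalIntegrable l volume a b := fun a b => hl.intervalIntegrable
  have e2 : ∫ T in Icc X Y, (l (T + h) - l (T - h)) ≤ 2 * h * l (Y + h) := by
    rw [integral_Icc_eq_integral_Ioc, ← intervalIntegral.integral_of_le hXY,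
      intervalIntegral.integral_sub c1 c2, intervalIntegral.integral_comp_add_right,
      intervalIntegral.integral_comp_sub_right]
    have s1 := intervalIntegral.integral_add_adjacent_intervals (hii (X - h) (X + h)) (hii (X + h) (Y + h))
    have s2 := intervalIntegral.integral_add_adjacent_intervals (hii (X - h) (Y - h)) (hii (Y - h) (Y + h))
    have s3 : 0 ≤ ∫ x in (X - h)..(X + h), l x :=
      intervalIntegral.integral_nonneg (by linarith) fun x hx => h0 x
    have s4 : ∫ x in (Y - h)..(Y + h), l x ≤ ∫ x in (Y - h)..(Y + h), l (Y + h) :=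
      intervalIntegral.integral_mono_on (by linarith) (hii _ _)
        (continuous_const.intervalIntegrable _ _) fun x hx => hl hx.2
    rw [intervalIntegral.integral_const, smul_eq_mul] at s4
    have e5 : (Y + h - (Y - h)) * l (Y + h) = 2 * h * l (Y + h) := by ring
    rw [e5] at s4
    linarith
  rw [le_div_iff₀ hlam]
  calc _ = lam * (volume : Measure ℝ).real (Icc X Y ∩ {T | lam ≤ l (T + h) - l (T - h)}) := mul_comm _ _
    _ ≤ _ := hmk.trans e2

/-- monotone functions of polynomial growth -/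
structure Gr (m : ℝ → ℝ) : Prop where
  mono : Monotone m
  nn : ∀ T, 0 ≤ T → 0 ≤ m T
  poly : ∃ (C : ℝ) (q : ℕ), 1 ≤ C ∧ ∀ T, 0 ≤ T → m T ≤ C * (1 + T) ^ q

variable {m : ℝ → ℝ}

/-- the local increments -/
def Rr (m : ℝ → ℝ) (T : ℝ) : ℝ := 1 + (m (T + √T) - m (T - √T)) + (m (2 * T + √T) - m (2 * T - √T))

/-- log of the growth -/
def lg (m : ℝ → ℝ) (T : ℝ) : ℝ := Real.log (1 + max (m T) 0)

lemma lg_mono (g : Gr m) : Monotone (lg m) := by
  intro a b hab
  unfold lg
  refine Real.log_le_log (by positivity) ?_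
  have := max_le_max_right 0 (g.mono hab)
  linarith

lemma lg_nonneg (m : ℝ → ℝ) (x : ℝ) : 0 ≤ lg m x := Real.log_nonneg (by linarith [le_max_right (m x) 0])

lemma lg_up (g : Gr m) : ∃ C : ℝ, 0 ≤ C ∧ ∀ X : ℝ, 4 ≤ X → lg m (6 * X) ≤ C * Real.log X := by
  obtain ⟨C, q, hC, hb⟩ := g.poly
  refine ⟨Real.log (2 * C) + 3 * q, by have := Real.log_nonneg (show 1 ≤ 2 * C by linarith); positivity,
    fun X hX => ?_⟩
  have hX0 : 0 < X := by linarith
  have h1 := hb (6 * X) (by linarith)
  have h2 : 1 + 6 * X ≤ X ^ 3 := by nlinarith [sq_nonneg (X - 4), mul_pos hX0 hX0]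
  have h3 : 1 + max (m (6 * X)) 0 ≤ 2 * C * (X ^ 3) ^ q := by
    rw [max_eq_left (g.nn _ (by linarith))]
    have h4 : (1 + 6 * X) ^ q ≤ (X ^ 3) ^ q := by gcongr
    have h5 : (1:ℝ) ≤ (X ^ 3) ^ q := one_le_pow₀ (one_le_pow₀ (by linarith))
    nlinarith
  have hl : 1 ≤ Real.log X := by
    rw [Real.le_log_iff_exp_le hX0]
    have := Real.exp_one_lt_d9
    linarith
  unfold lg
  refine (Real.log_le_log (by positivity) h3).trans ?_
  rw [Real.log_mul (by positivity) (by positivity), Real.log_pow, Real.log_pow]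
  have h6 := Real.log_nonneg (show 1 ≤ 2 * C by linarith)
  push_cast
  nlinarith

lemma lg_step (g : Gr m) {a b η : ℝ} (ha : 0 ≤ a) (hab : a ≤ b) (hη : 0 < η)
    (h : lg m b - lg m a < Real.log (1 + η)) : m b - m a ≤ η * (1 + m a) := by
  unfold lg at h
  have h1 := g.nn a ha
  have h2 := g.nn b (ha.trans hab)
  rw [max_eq_left h1, max_eq_left h2] at h
  have h3 : Real.log (1 + m b) < Real.log ((1 + η) * (1 + m a)) := by
    rw [Real.log_mul (by linarith) (by linarith)]
    linarith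
  have h4 := (Real.log_lt_log_iff (by linarith) (by positivity)).1 h3
  linarith

/-- the local increments are small off a small set -/
theorem exc2 (g : Gr m) {η : ℝ} (hη : 0 < η) : ∃ C : ℝ, 0 ≤ C ∧ ∀ X : ℝ, 4 ≤ X → ∃ E : Set ℝ,
    MeasurableSet E ∧ E ⊆ Icc X (2 * X) ∧ (volume : Measure ℝ).real E ≤ C * (√X * Real.log X) ∧
    ∀ T ∈ Icc X (2 * X), T ∉ E → Rr m T ≤ η * m (2 * T) + (1 + η) := by
  obtain ⟨C, hC, hl⟩ := lg_up g
  have hl1 : 0 < Real.log (1 + η / 2) := Real.log_pos (by linarith)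
  refine ⟨6 * C / Real.log (1 + η / 2), by positivity, fun X hX => ?_⟩
  have hX0 : 0 < X := by linarith
  have hs2 : 2 ≤ √X := by
    rw [show (2:ℝ) = √4 by rw [show (4:ℝ) = 2 ^ 2 by norm_num]; exact (Real.sqrt_sq (by norm_num)).symm]
    exact Real.sqrt_le_sqrt hX
  have hsX : √X * √X = X := Real.mul_self_sqrt hX0.le
  have hsX2 : 2 * √X ≤ X := by nlinarith
  have hlX := hl X hX
  have hlX0 : 0 ≤ Real.log X := Real.log_nonneg (by linarith)
  set h : ℝ := 2 * √X with hh
  have hh0 : 0 ≤ h := by positivity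
  -- first set
  obtain ⟨n1, n2⟩ := mono_jump (lg_mono g) (lg_nonneg m) (X := X) (Y := 2 * X) (h := h)
    (lam := Real.log (1 + η / 2)) (by linarith) hh0 hl1
  have hm2 : Monotone (fun T => lg m (2 * T)) := fun a b hab => lg_mono g (by linarith)
  obtain ⟨n3, n4⟩ := mono_jump hm2 (fun x => lg_nonneg m _) (X := X) (Y := 2 * X) (h := √X)
    (lam := Real.log (1 + η / 2)) (by linarith) (Real.sqrt_nonneg X) hl1
  set E1 := Icc X (2 * X) ∩ {T | Real.log (1 + η / 2) ≤ lg m (T + h) - lg m (T - h)} with hE1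
  set E2 := Icc X (2 * X) ∩ {T | Real.log (1 + η / 2) ≤ lg m (2 * (T + √X)) - lg m (2 * (T - √X))} with hE2
  refine ⟨E1 ∪ E2, n1.union n3, union_subset inter_subset_left inter_subset_left, ?_, fun T hT hTE => ?_⟩
  · have h1 : lg m (2 * X + h) ≤ C * Real.log X := (lg_mono g (by linarith)).trans hlX
    have h2 : lg m (2 * (2 * X + √X)) ≤ C * Real.log X := (lg_mono g (by linarith)).trans hlX
    calc (volume : Measure ℝ).real (E1 ∪ E2) ≤ volume.real E1 + volume.real E2 := measureReal_union_le _ _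
      _ ≤ 2 * h * lg m (2 * X + h) / Real.log (1 + η / 2) +
          2 * √X * lg m (2 * (2 * X + √X)) / Real.log (1 + η / 2) := add_le_add n2 n4
      _ ≤ 2 * h * (C * Real.log X) / Real.log (1 + η / 2) +
          2 * √X * (C * Real.log X) / Real.log (1 + η / 2) := by gcongr
      _ = _ := by rw [hh]; ring
  · have hT1 := hT.1
    have hT2 := hT.2
    have hsT : √T ≤ h := by
      rw [hh, show 2 * √X = √(4 * X) by
        rw [Real.sqrt_mul (by norm_num), show (4:ℝ) = 2 ^ 2 by norm_num, Real.sqrt_sq (by norm_num)]]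
      exact Real.sqrt_le_sqrt (by linarith)
    rw [mem_union, not_or] at hTE
    obtain ⟨t1, t2⟩ := hTE
    have t3 : lg m (T + h) - lg m (T - h) < Real.log (1 + η / 2) := by
      by_contra hcon
      push Not at hcon
      exact t1 ⟨hT, hcon⟩
    have t4 : lg m (2 * (T + √X)) - lg m (2 * (T - √X)) < Real.log (1 + η / 2) := by
      by_contra hcon
      push Not at hcon
      exact t2 ⟨hT, hcon⟩
    have a1 := lg_step g (a := T - h) (b := T + h) (by linarith) (by linarith) (by linarith) t3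
    have a2 := lg_step g (a := 2 * (T - √X)) (b := 2 * (T + √X)) (by linarith) (by linarith) (by linarith) t4
    have b1 := g.mono (show T + √T ≤ T + h by linarith)
    have b2 := g.mono (show T - h ≤ T - √T by linarith)
    have b3 := g.mono (show 2 * T + √T ≤ 2 * (T + √X) by linarith)
    have b4 := g.mono (show 2 * (T - √X) ≤ 2 * T - √T by linarith)
    have b5 := g.mono (show T - h ≤ 2 * T by linarith)
    have b6 := g.mono (show 2 * (T - √X) ≤ 2 * T by linarith)
    unfold Rr
    nlinarith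

/-- size of the exceptional sets -/
lemma exc_small (C : ℝ) {δ : ℝ} (hδ : 0 < δ) : ∀ᶠ X : ℝ in atTop, C * (√X * Real.log X) < δ * X := by
  have h1 : (fun x : ℝ => Real.log x) =o[atTop] fun x => x ^ (1 / 2 : ℝ) := isLittleO_log_rpow_atTop (by norm_num)
  have h2 := h1.bound (show 0 < δ / (2 * (|C| + 1)) by positivity)
  filter_upwards [h2, eventually_gt_atTop 1] with X h3 h4
  have hX0 : 0 < X := by linarith
  rw [Real.norm_of_nonneg (Real.log_nonneg h4.le), Real.norm_of_nonneg (by positivity), ← Real.sqrt_eq_rpow] at h3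
  have hs : √X * √X = X := Real.mul_self_sqrt hX0.le
  have hs0 : 0 < √X := Real.sqrt_pos.2 hX0
  have h5 : C * (√X * Real.log X) ≤ (|C| + 1) * (√X * Real.log X) := by
    have := Real.log_nonneg h4.le
    have h6 : 0 ≤ √X * Real.log X := by positivity
    exact mul_le_mul_of_nonneg_right (by linarith [le_abs_self C]) h6
  have h7 : (|C| + 1) * (√X * Real.log X) ≤ (|C| + 1) * (√X * (δ / (2 * (|C| + 1)) * √X)) := by gcongr
  have h8 : (|C| + 1) * (√X * (δ / (2 * (|C| + 1)) * √X)) = δ / 2 * X := by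
    rw [← hs]
    have : |C| + 1 ≠ 0 := by positivity
    field_simp
    rw [Real.sq_sqrt (by positivity)]
  nlinarith

/-- good points -/
lemma good1 (g : Gr m) {η δ : ℝ} (hη : 0 < η) (hδ : 0 < δ) (hδ1 : δ ≤ 1) : ∀ᶠ T : ℝ in atTop,
    ∃ t ∈ Icc T ((1 + δ) * T), Rr m t ≤ η * m (2 * t) + (1 + η) := by
  obtain ⟨C, hC, h1⟩ := exc2 g hη
  filter_upwards [exc_small C hδ, eventually_ge_atTop 4] with T h2 h3
  obtain ⟨E, -, e2, e3, e4⟩ := h1 T h3
  have hEf : volume E ≠ ⊤ := ne_top_of_le_ne_top (by rw [Real.volume_Icc]; exact ENNReal.ofReal_ne_top)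
    (measure_mono e2)
  obtain ⟨t, ht, ht2, htE⟩ := exists_good (X := T) (a := T) (b := (1 + δ) * T) (m := C * (√T * Real.log T)) e3 hEf
    (by linarith) le_rfl (by nlinarith)
  exact ⟨t, ht, e4 t ht2 htE⟩

/-- the comparison hypothesis -/
def Cmp (m F : ℝ → ℝ) (q : ℕ) : Prop := ∀ ε : ℝ, 0 < ε → ∃ C T0 : ℝ, 0 ≤ C ∧ 4 ≤ T0 ∧ ∀ T : ℝ, T0 ≤ T →
  |F T - (m (2 * T) - m T)| ≤ ε * (m (2 * T) + NN q T) + C * Rr m T

variable {F : ℝ → ℝ} {q : ℕ}

lemma NN_inf (q : ℕ) : Tendsto (NN q) atTop atTop := by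
  refine tendsto_atTop_mono' atTop ?_ tendsto_id
  filter_upwards [eventually_ge_atTop (Real.exp 1)] with T hT
  have h1 : 1 ≤ Real.log T := by
    rwa [Real.le_log_iff_exp_le (lt_of_lt_of_le (Real.exp_pos 1) hT)]
  have h2 : (1:ℝ) ≤ Real.log T ^ q := one_le_pow₀ h1
  have h3 : 0 < T := lt_of_lt_of_le (Real.exp_pos 1) hT
  unfold NN
  simp only [id]
  nlinarith

/-- the comparison off small sets -/
theorem cmp_exc (g : Gr m) (h : Cmp m F q) {ε : ℝ} (hε : 0 < ε) : ∃ C X0 : ℝ, 0 ≤ C ∧ 4 ≤ X0 ∧ ∀ X : ℝ, X0 ≤ X →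
    ∃ E : Set ℝ, MeasurableSet E ∧ E ⊆ Icc X (2 * X) ∧ (volume : Measure ℝ).real E ≤ C * (√X * Real.log X) ∧
    ∀ T ∈ Icc X (2 * X), T ∉ E → |F T - (m (2 * T) - m T)| ≤ ε * (m (2 * T) + NN q T) := by
  obtain ⟨C1, T0, hC1, hT0, h1⟩ := h (ε / 4) (by positivity)
  set η : ℝ := ε / (4 * (C1 + 1)) with hη
  have hηp : 0 < η := by positivity
  have hη1 : C1 * η ≤ ε / 4 := by
    rw [hη, mul_div_assoc', div_le_iff₀ (by positivity)]
    nlinarith
  obtain ⟨C, hC, h2⟩ := exc2 g hηp
  obtain ⟨T2, hT2⟩ := eventually_atTop.1 ((NN_inf q).eventually_ge_atTop (4 * (C1 * (1 + η)) / ε))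
  refine ⟨C, max (max T0 T2) 4, hC, le_max_right _ _, fun X hX => ?_⟩
  have x1 : T0 ≤ X := ((le_max_left _ _).trans (le_max_left _ _)).trans hX
  have x2 : T2 ≤ X := ((le_max_right _ _).trans (le_max_left _ _)).trans hX
  have x3 : 4 ≤ X := (le_max_right _ _).trans hX
  obtain ⟨E, e1, e2, e3, e4⟩ := h2 X x3
  refine ⟨E, e1, e2, e3, fun T hT hTE => ?_⟩
  have a1 := h1 T (x1.trans hT.1)
  have a2 := e4 T hT hTE
  have a3 := hT2 T (x2.trans hT.1)
  have a4 := mul_le_mul_of_nonneg_left a2 hC1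
  rw [div_le_iff₀ hε] at a3
  have a5 := g.nn (2 * T) (by linarith [hT.1])
  have a6 : C1 * η * m (2 * T) ≤ ε / 4 * m (2 * T) := mul_le_mul_of_nonneg_right hη1 a5
  nlinarith

lemma good2 (g : Gr m) (h : Cmp m F q) {ε δ : ℝ} (hε : 0 < ε) (hδ : 0 < δ) (hδ1 : δ ≤ 1) :
    ∀ᶠ T : ℝ in atTop, ∃ t ∈ Icc T ((1 + δ) * T), |F t - (m (2 * t) - m t)| ≤ ε * (m (2 * t) + NN q t) := by
  obtain ⟨C, X0, hC, hX0, h1⟩ := cmp_exc g h hε
  filter_upwards [exc_small C hδ, eventually_ge_atTop X0] with T h2 h3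
  obtain ⟨E, -, e2, e3, e4⟩ := h1 T h3
  have hEf : volume E ≠ ⊤ := ne_top_of_le_ne_top (by rw [Real.volume_Icc]; exact ENNReal.ofReal_ne_top)
    (measure_mono e2)
  obtain ⟨t, ht, ht2, htE⟩ := exists_good (X := T) (a := T) (b := (1 + δ) * T) (m := C * (√T * Real.log T)) e3 hEf
    (by linarith) le_rfl (by nlinarith)
  exact ⟨t, ht, e4 t ht2 htE⟩

lemma NN_le (q : ℕ) {a T : ℝ} (ha : a ≤ 1) (haT : 1 ≤ a * T) (hT : 0 < T) : NN q (a * T) ≤ a * NN q T := by
  have ha0 : 0 < a := by
    by_contra hcon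
    push Not at hcon
    nlinarith
  unfold NN
  have h1 : Real.log (a * T) ≤ Real.log T := Real.log_le_log (by linarith) (by nlinarith)
  have h2 : 0 ≤ Real.log (a * T) := Real.log_nonneg haT
  calc a * T * Real.log (a * T) ^ q ≤ a * T * Real.log T ^ q := by gcongr
    _ = _ := by ring

/-- ratio of the normalisations -/
lemma NN_ratio (q : ℕ) {s : ℝ → ℝ} {a : ℝ} (ha : 0 < a) (hs : Tendsto (fun T => s T / T) atTop (𝓝 a)) :
    Tendsto (fun T => NN q (s T) / NN q T) atTop (𝓝 a) ∧ Tendsto s atTop atTop := by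
  have hsinf : Tendsto s atTop atTop := by
    have h1 := Filter.Tendsto.pos_mul_atTop ha hs tendsto_id
    refine h1.congr' ?_
    filter_upwards [eventually_gt_atTop 0] with T hT
    simp only [id]
    field_simp
  refine ⟨?_, hsinf⟩
  have hlog : Tendsto (fun T => Real.log (s T) / Real.log T) atTop (𝓝 1) := by
    have h1 : Tendsto (fun T => Real.log (s T / T)) atTop (𝓝 (Real.log a)) :=
      (Real.continuousAt_log ha.ne').tendsto.comp hs
    have h2 : Tendsto (fun T => Real.log (s T / T) / Real.log T) atTop (𝓝 0) :=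
      h1.div_atTop Real.tendsto_log_atTop
    have h3 : Tendsto (fun T => 1 + Real.log (s T / T) / Real.log T) atTop (𝓝 (1 + 0)) := h2.const_add 1
    rw [add_zero] at h3
    refine h3.congr' ?_
    filter_upwards [eventually_gt_atTop 1, hsinf.eventually_gt_atTop 0] with T hT hT2
    have hl : 0 < Real.log T := Real.log_pos hT
    rw [Real.log_div hT2.ne' (by linarith)]
    field_simp
    ring
  have h4 := hs.mul (hlog.pow q)
  rw [one_pow, mul_one] at h4
  refine h4.congr' ?_
  filter_upwards [eventually_gt_atTop 1] with T hT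
  have hl : 0 < Real.log T := Real.log_pos hT
  unfold NN
  rw [div_pow]
  field_simp

lemma mratio (q : ℕ) {c : ℝ} (hm : Tendsto (fun T => m T / NN q T) atTop (𝓝 c)) {s : ℝ → ℝ} {a : ℝ} (ha : 0 < a)
    (hs : Tendsto (fun T => s T / T) atTop (𝓝 a)) :
    Tendsto (fun T => m (s T) / NN q T) atTop (𝓝 (c * a)) := by
  obtain ⟨h1, h2⟩ := NN_ratio q ha hs
  have h3 := (hm.comp h2).mul h1
  refine h3.congr' ?_
  filter_upwards [eventually_gt_atTop 1, h2.eventually_gt_atTop 1] with T hT hT2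
  have := NN_pos q hT
  have := NN_pos q hT2
  simp only [Function.comp]
  field_simp

lemma sqrt_ratio : Tendsto (fun T : ℝ => √T / T) atTop (𝓝 0) := by
  have h1 : Tendsto (fun T : ℝ => (√T)⁻¹) atTop (𝓝 0) := tendsto_inv_atTop_zero.comp Real.tendsto_sqrt_atTop
  refine h1.congr' ?_
  filter_upwards [eventually_gt_atTop 0] with T hT
  have hs : √T * √T = T := Real.mul_self_sqrt hT.le
  have hs0 : 0 < √T := Real.sqrt_pos.2 hT
  rw [inv_eq_one_div, div_eq_div_iff hs0.ne' hT.ne']
  linarith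

lemma Rr_small {c : ℝ} (hm : Tendsto (fun T => m T / NN q T) atTop (𝓝 c)) :
    Tendsto (fun T => Rr m T / NN q T) atTop (𝓝 0) := by
  have s1 : Tendsto (fun T : ℝ => (T + √T) / T) atTop (𝓝 1) := by
    have h := sqrt_ratio.const_add 1
    rw [add_zero] at h
    refine h.congr' ?_
    filter_upwards [eventually_gt_atTop 0] with T hT
    field_simp
  have s2 : Tendsto (fun T : ℝ => (T - √T) / T) atTop (𝓝 1) := by
    have h := sqrt_ratio.const_sub 1
    rw [sub_zero] at h
    refine h.congr' ?_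
    filter_upwards [eventually_gt_atTop 0] with T hT
    field_simp
  have s3 : Tendsto (fun T : ℝ => (2 * T + √T) / T) atTop (𝓝 2) := by
    have h := sqrt_ratio.const_add 2
    rw [add_zero] at h
    refine h.congr' ?_
    filter_upwards [eventually_gt_atTop 0] with T hT
    field_simp
  have s4 : Tendsto (fun T : ℝ => (2 * T - √T) / T) atTop (𝓝 2) := by
    have h := sqrt_ratio.const_sub 2
    rw [sub_zero] at h
    refine h.congr' ?_
    filter_upwards [eventually_gt_atTop 0] with T hT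
    field_simp
  have h0 : Tendsto (fun T => 1 / NN q T) atTop (𝓝 0) := (NN_inf q).const_div_atTop 1
  have h1 := (h0.add ((mratio q hm zero_lt_one s1).sub (mratio q hm zero_lt_one s2))).add
    ((mratio q hm two_pos s3).sub (mratio q hm two_pos s4))
  have e : (0:ℝ) + (c * 1 - c * 1) + (c * 2 - c * 2) = 0 := by ring
  rw [e] at h1
  refine h1.congr fun T => ?_
  unfold Rr
  ring

lemma two_ratio (a : ℝ) : Tendsto (fun T : ℝ => (a * T) / T) atTop (𝓝 a) := by
  refine tendsto_const_nhds.congr' ?_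
  filter_upwards [eventually_gt_atTop 0] with T hT
  field_simp

/-- asymptotics of `m` give those of `F` -/
theorem tb_direct (h : Cmp m F q) {c : ℝ} (hm : Tendsto (fun T => m T / NN q T) atTop (𝓝 c)) :
    Tendsto (fun T => F T / NN q T) atTop (𝓝 c) := by
  have h2 := mratio q hm two_pos (two_ratio 2)
  have h3 : Tendsto (fun T => (m (2 * T) - m T) / NN q T) atTop (𝓝 c) := by
    have := h2.sub hm
    have e : c * 2 - c = c := by ring
    rw [e] at this
    exact this.congr fun T => by ring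
  have hR := Rr_small hm
  rw [Metric.tendsto_atTop]
  intro ε hε
  obtain ⟨C, T0, hC, hT0, h1⟩ := h (ε / (4 * (|c * 2| + 2))) (by positivity)
  have ev1 := (Metric.tendsto_nhds.1 h3) (ε / 4) (by positivity)
  have ev2 := (Metric.tendsto_nhds.1 hR) (ε / (4 * (C + 1))) (by positivity)
  have ev3 := (Metric.tendsto_nhds.1 h2) 1 one_pos
  have ev : ∀ᶠ T in atTop, dist (F T / NN q T) c < ε := by
    filter_upwards [ev1, ev2, ev3, eventually_ge_atTop T0] with T a1 a2 a3 a4
    have hN := NN_pos q (show 1 < T by linarith)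
    have b1 := h1 T a4
    rw [Real.dist_eq] at a1 a2 a3 ⊢
    have b2 : m (2 * T) / NN q T ≤ |c * 2| + 1 := by
      have := (abs_lt.1 a3).2
      have := le_abs_self (c * 2)
      linarith
    have b3 : Rr m T / NN q T ≤ ε / (4 * (C + 1)) := by
      have := (abs_lt.1 a2).2
      linarith
    have b4 : |F T / NN q T - (m (2 * T) - m T) / NN q T| ≤
        ε / (4 * (|c * 2| + 2)) * (m (2 * T) / NN q T + 1) + C * (Rr m T / NN q T) := by
      rw [← sub_div, abs_div, abs_of_pos hN, div_le_iff₀ hN]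
      refine b1.trans (le_of_eq ?_)
      field_simp
    have b5 : ε / (4 * (|c * 2| + 2)) * (m (2 * T) / NN q T + 1) ≤ ε / 4 := by
      have : ε / (4 * (|c * 2| + 2)) * (m (2 * T) / NN q T + 1) ≤ ε / (4 * (|c * 2| + 2)) * (|c * 2| + 2) :=
        mul_le_mul_of_nonneg_left (by linarith) (by positivity)
      refine this.trans (le_of_eq ?_)
      field_simp
    have b6 : C * (Rr m T / NN q T) ≤ ε / 4 := by
      calc C * (Rr m T / NN q T) ≤ C * (ε / (4 * (C + 1))) := by gcongr
        _ ≤ (C + 1) * (ε / (4 * (C + 1))) := by gcongr; linarith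
        _ = ε / 4 := by field_simp
    have b7 := abs_add_le (F T / NN q T - (m (2 * T) - m T) / NN q T) ((m (2 * T) - m T) / NN q T - c)
    rw [sub_add_sub_cancel] at b7
    linarith
  exact eventually_atTop.1 ev

/-- boundedness -/
theorem tb_bdd (g : Gr m) (h : Cmp m F q) {b : ℝ} (hF : ∀ᶠ T : ℝ in atTop, F T ≤ b * NN q T) :
    ∃ B : ℝ, 0 ≤ B ∧ ∀ᶠ T : ℝ in atTop, m T ≤ B * NN q T := by
  wlog hb : 0 ≤ b with H
  · push Not at hb
    exact H g h (b := 0) (by
      filter_upwards [hF, eventually_gt_atTop 1] with T h1 h2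
      have := NN_pos q h2
      nlinarith) le_rfl
  have hg := good2 g h (ε := 1 / 8) (δ := 1 / 3) (by norm_num) (by norm_num) (by norm_num)
  have key : ∀ᶠ T : ℝ in atTop, m T ≤ 8 / 7 * (m (2 / 3 * T) + (b + 1) * (2 / 3 * NN q T)) := by
    have hT2 : Tendsto (fun T : ℝ => T / 2) atTop atTop := tendsto_id.atTop_div_const two_pos
    obtain ⟨T1, hT1⟩ := eventually_atTop.1 hF
    filter_upwards [hT2.eventually hg, eventually_ge_atTop (2 * T1), eventually_ge_atTop 4] with T h1 h2 h3
    obtain ⟨t, ht, h4⟩ := h1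
    have t1 := ht.1
    have t2 := ht.2
    have h5 := hT1 t (by linarith)
    have h6 := (abs_le.1 h4).1
    have h7 : NN q t ≤ 2 / 3 * NN q T := by
      have h8 := NN_mono q (show 1 ≤ t by linarith) (show t ≤ 2 / 3 * T by linarith)
      exact h8.trans (NN_le q (by norm_num) (by linarith) (by linarith))
    have h8 := g.mono (show T ≤ 2 * t by linarith)
    have h9 := g.mono (show t ≤ 2 / 3 * T by linarith)
    have h10 := NN_pos q (show 1 < t by linarith)
    have h11 : (b + 1) * NN q t ≤ (b + 1) * (2 / 3 * NN q T) := by gcongr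
    have h12 : 7 / 8 * m (2 * t) ≤ m t + (b + 1) * NN q t := by nlinarith
    linarith
  obtain ⟨T2, hT2⟩ := eventually_atTop.1 key
  set T3 : ℝ := max T2 4 with hT3
  have hT34 : 4 ≤ T3 := le_max_right _ _
  have hN3 : 0 < NN q (2 / 3 * T3) := NN_pos q (by linarith)
  set B : ℝ := max (16 * (b + 1) / 5) (m T3 / NN q (2 / 3 * T3)) with hB
  have hB0 : 0 ≤ B := le_trans (by positivity) (le_max_left _ _)
  have hB1 : 16 * (b + 1) ≤ 5 * B := by
    have := le_max_left (16 * (b + 1) / 5) (m T3 / NN q (2 / 3 * T3))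
    rw [← hB] at this
    linarith
  have hind : ∀ n : ℕ, ∀ T : ℝ, 2 / 3 * T3 ≤ T → T ≤ T3 * (3 / 2) ^ n → m T ≤ B * NN q T := by
    intro n
    induction n with
    | zero =>
      intro T h1 h2
      rw [pow_zero, mul_one] at h2
      have h3 : m T3 ≤ B * NN q (2 / 3 * T3) := by
        have := le_max_right (16 * (b + 1) / 5) (m T3 / NN q (2 / 3 * T3))
        rw [← hB, div_le_iff₀ hN3] at this
        exact this
      calc m T ≤ m T3 := g.mono h2
        _ ≤ B * NN q (2 / 3 * T3) := h3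
        _ ≤ B * NN q T := mul_le_mul_of_nonneg_left (NN_mono q (by linarith) h1) hB0
    | succ n ih =>
      intro T h1 h2
      rcases le_total T T3 with h3 | h3
      · refine ih T h1 (h3.trans ?_)
        have : (1:ℝ) ≤ (3 / 2) ^ n := one_le_pow₀ (by norm_num)
        nlinarith
      · have h4 := hT2 T ((le_max_left _ _).trans h3)
        have h5 := ih (2 / 3 * T) (by linarith) (by rw [pow_succ] at h2; nlinarith)
        have h6 := NN_le q (a := 2 / 3) (T := T) (by norm_num) (by linarith) (by linarith)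
        have h7 : B * NN q (2 / 3 * T) ≤ B * (2 / 3 * NN q T) := mul_le_mul_of_nonneg_left h6 hB0
        have hN := NN_pos q (show 1 < T by linarith)
        have h8 : 16 * (b + 1) * NN q T ≤ 5 * B * NN q T := mul_le_mul_of_nonneg_right hB1 hN.le
        nlinarith
  refine ⟨B, hB0, ?_⟩
  filter_upwards [eventually_ge_atTop (2 / 3 * T3)] with T hT
  obtain ⟨n, hn⟩ := pow_unbounded_of_one_lt (T / T3) (show (1:ℝ) < 3 / 2 by norm_num)
  rw [div_lt_iff₀ (by linarith)] at hn
  exact hind n T hT (by linarith)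

/-- upper bounds pass from `F` to `m` -/
theorem tb_up0 (g : Gr m) (h : Cmp m F q) {c : ℝ} (hc : 0 ≤ c)
    (hF : ∀ ε : ℝ, 0 < ε → ∀ᶠ T : ℝ in atTop, F T ≤ (c + ε) * NN q T) :
    ∀ ε : ℝ, 0 < ε → ∀ᶠ T : ℝ in atTop, m T ≤ (c + ε) * NN q T := by
  obtain ⟨B, hB0, hB⟩ := tb_bdd g h (hF 1 one_pos)
  -- one step
  have step : ∀ ε : ℝ, 0 < ε → ε ≤ 1 → ∀ u : ℝ, 0 ≤ u → u ≤ B + c + 2 → (∀ᶠ T : ℝ in atTop, m T ≤ u * NN q T) →
      ∀ᶠ T : ℝ in atTop, m T ≤ ((u + c) / 2 + ε) * NN q T := by
    intro ε hε hε1 u hu0 huB hu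
    set K : ℝ := B + 2 * c + 5 with hK
    have hK5 : 5 ≤ K := by linarith
    set e : ℝ := ε / (4 * K) with he
    have he0 : 0 < e := by positivity
    have heK : e * (4 * K) = ε := by rw [he]; field_simp
    have he1 : e ≤ 1 / 20 := by nlinarith
    have hg := good2 g h (ε := e) (δ := e) he0 he0 (by linarith)
    have hT2 : Tendsto (fun T : ℝ => T / 2) atTop atTop := tendsto_id.atTop_div_const two_pos
    obtain ⟨T1, hT1⟩ := eventually_atTop.1 (hF e he0)
    obtain ⟨T3, hT3⟩ := eventually_atTop.1 hu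
    filter_upwards [hT2.eventually hg, eventually_ge_atTop (2 * T1), eventually_ge_atTop 4,
      eventually_ge_atTop (2 * T3)] with T h1 h2 h3 h3'
    obtain ⟨t, ht, h4⟩ := h1
    have t1 := ht.1
    have t2 := ht.2
    have h5 := hT1 t (by linarith)
    have h6 := (abs_le.1 h4).1
    have h7 : NN q t ≤ (1 + e) / 2 * NN q T := by
      have h8 := NN_mono q (show 1 ≤ t by linarith) (show t ≤ (1 + e) / 2 * T by linarith)
      exact h8.trans (NN_le q (by linarith) (by nlinarith) (by linarith))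
    have h8 := g.mono (show T ≤ 2 * t by linarith)
    have h9 := hT3 t (by linarith)
    have hN := NN_pos q (show 1 < T by linarith)
    have hNt := NN_pos q (show 1 < t by linarith)
    have hm0 := g.nn (2 * t) (by linarith)
    -- (1 - e) m(2t) ≤ (u + c + 2e) N(t)
    have h10 : (1 - e) * m (2 * t) ≤ (u + c + 2 * e) * NN q t := by nlinarith
    have h11 : (u + c + 2 * e) * NN q t ≤ (u + c + 2 * e) * ((1 + e) / 2 * NN q T) := by gcongr
    have h12 : (u + c + 2 * e) * ((1 + e) / 2) ≤ (1 - e) * ((u + c) / 2 + ε) := by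
      have k1 : u + c ≤ K - 3 := by rw [hK]; linarith
      have k2 : 0 ≤ u + c := by linarith
      rw [← heK]
      nlinarith [mul_nonneg he0.le k2, mul_pos he0 he0, mul_nonneg (mul_nonneg he0.le he0.le) k2,
        mul_nonneg he0.le (show 0 ≤ K - 3 - (u + c) by linarith)]
    have h13 : (1 - e) * m (2 * t) ≤ (1 - e) * (((u + c) / 2 + ε) * NN q T) := by
      have := mul_le_mul_of_nonneg_right h12 hN.le
      nlinarith
    have h14 := le_of_mul_le_mul_left h13 (by linarith)
    linarith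
  intro ε hε
  wlog hε1 : ε ≤ 1 with H
  · push Not at hε1
    filter_upwards [H g h hc hF B hB0 hB step 1 one_pos le_rfl, eventually_gt_atTop 1] with T h1 h2
    have := NN_pos q h2
    nlinarith
  have hind : ∀ n : ℕ, ∀ᶠ T : ℝ in atTop, m T ≤ (c + 2 * (ε / 4) + B / 2 ^ n) * NN q T := by
    intro n
    induction n with
    | zero =>
      filter_upwards [hB, eventually_gt_atTop 1] with T h1 h2
      have := NN_pos q h2
      rw [pow_zero, div_one]
      nlinarith
    | succ n ih =>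
      have h1 : B / 2 ^ n ≤ B := div_le_self hB0 (one_le_pow₀ (by norm_num))
      have h0 : 0 ≤ B / 2 ^ n := by positivity
      have h2 := step (ε / 4) (by positivity) (by linarith) (c + 2 * (ε / 4) + B / 2 ^ n) (by positivity)
        (by linarith) ih
      have e : (c + 2 * (ε / 4) + B / 2 ^ n + c) / 2 + ε / 4 = c + 2 * (ε / 4) + B / 2 ^ (n + 1) := by
        rw [pow_succ]; field_simp; ring
      rwa [e] at h2
  obtain ⟨n, hn⟩ := pow_unbounded_of_one_lt (2 * B / ε) (show (1:ℝ) < 2 by norm_num)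
  filter_upwards [hind n, eventually_gt_atTop 1] with T h1 h2
  have hN := NN_pos q h2
  have h3 : B / 2 ^ n ≤ ε / 2 := by
    rw [div_lt_iff₀ hε] at hn
    rw [div_le_iff₀ (by positivity)]
    linarith
  refine h1.trans (mul_le_mul_of_nonneg_right (by linarith) hN.le)

theorem tb_up (g : Gr m) (h : Cmp m F q) {c : ℝ}
    (hF : ∀ ε : ℝ, 0 < ε → ∀ᶠ T : ℝ in atTop, F T ≤ (c + ε) * NN q T) :
    ∀ ε : ℝ, 0 < ε → ∀ᶠ T : ℝ in atTop, m T ≤ (c + ε) * NN q T := by
  rcases le_or_gt 0 c with hc | hc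
  · exact tb_up0 g h hc hF
  -- contradiction
  exfalso
  have h0 := tb_up0 g h (c := 0) le_rfl (fun ε hε => by
    filter_upwards [hF ε hε, eventually_gt_atTop 1] with T h1 h2
    have := NN_pos q h2
    nlinarith) (-c / 8) (by linarith)
  have hF2 := hF (-c / 8) (by linarith)
  obtain ⟨e, he, he2, he3⟩ : ∃ e : ℝ, 0 < e ∧ e ≤ -c / 8 ∧ e ≤ 1 / 2 :=
    ⟨min (-c / 8) (1 / 2), lt_min (by linarith) (by norm_num), min_le_left _ _, min_le_right _ _⟩
  have hg := good2 g h (ε := e) (δ := 1) he one_pos le_rfl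
  obtain ⟨T1, hT1⟩ := eventually_atTop.1 hF2
  obtain ⟨T2, hT2⟩ := eventually_atTop.1 h0
  obtain ⟨T, h1, h2, h3, h4⟩ := (hg.and ((eventually_ge_atTop T1).and ((eventually_ge_atTop T2).and
    (eventually_ge_atTop 4)))).exists
  obtain ⟨t, ht, h5⟩ := h1
  have t1 := ht.1
  have a1 := hT1 t (by linarith)
  have a2 := hT2 t (by linarith)
  have a3 := (abs_le.1 h5).1
  have hNt := NN_pos q (show 1 < t by linarith)
  have hm0 := g.nn (2 * t) (by linarith)
  nlinarith

/-- lower bounds pass from `F` to `m` -/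
theorem tb_low (g : Gr m) (h : Cmp m F q) {c : ℝ}
    (hF : ∀ ε : ℝ, 0 < ε → ∀ᶠ T : ℝ in atTop, (c - ε) * NN q T ≤ F T) :
    ∀ ε : ℝ, 0 < ε → ∀ᶠ T : ℝ in atTop, (c - ε) * NN q T ≤ m T := by
  rcases le_or_gt c 0 with hc | hc
  · intro ε hε
    filter_upwards [eventually_gt_atTop 1] with T h2
    have := NN_pos q h2
    have := g.nn T (by linarith)
    nlinarith
  -- one step
  have step : ∀ ε : ℝ, 0 < ε → ε ≤ min 1 c → ∀ v : ℝ, 0 ≤ v → v ≤ c → (∀ᶠ T : ℝ in atTop, v * NN q T ≤ m T) →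
      ∀ᶠ T : ℝ in atTop, ((v + c) / 2 - ε) * NN q T ≤ m T := by
    intro ε hε hεm v hv0 hvc hv
    have hε1 : ε ≤ 1 := hεm.trans (min_le_left _ _)
    have hεc : ε ≤ c := hεm.trans (min_le_right _ _)
    set K : ℝ := 2 * c + 5 with hK
    have hK5 : 5 ≤ K := by linarith
    set e : ℝ := ε / (4 * K) with he
    have he0 : 0 < e := by positivity
    have heK : e * (4 * K) = ε := by rw [he]; field_simp
    have he1 : e ≤ 1 / 20 := by nlinarith
    have he2 : 2 * e ≤ c := by nlinarith
    -- good points in `[(1-e) T/2, T/2]`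
    have hs : Tendsto (fun T : ℝ => (1 - e) * T / 2) atTop atTop := by
      have : Tendsto (fun T : ℝ => (1 - e) / 2 * T) atTop atTop := tendsto_id.const_mul_atTop (by linarith)
      exact this.congr fun T => by ring
    have hg := good2 g h (ε := e) (δ := e) he0 he0 (by linarith)
    obtain ⟨T1, hT1⟩ := eventually_atTop.1 (hF e he0)
    obtain ⟨T3, hT3⟩ := eventually_atTop.1 hv
    have hratio := (NN_ratio q (s := fun T => (1 - e) / 2 * T) (a := (1 - e) / 2) (by linarith) (two_ratio _)).1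
    have hr := hratio.eventually_const_lt (show (1 - 2 * e) / 2 < (1 - e) / 2 by linarith)
    filter_upwards [hs.eventually hg, eventually_ge_atTop (4 * T1), eventually_ge_atTop 8,
      eventually_ge_atTop (4 * T3), hr] with T h1 h2 h3 h3' hr'
    obtain ⟨t, ht, h4⟩ := h1
    have t1 := ht.1
    have t2 := ht.2
    have tlow : T / 4 ≤ t := by nlinarith
    have tup : 2 * t ≤ T := by nlinarith [mul_pos he0 he0]
    have h5 := hT1 t (by linarith)
    have h6 := (abs_le.1 h4).2
    have hN := NN_pos q (show 1 < T by linarith)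
    have hNt := NN_pos q (show 1 < t by linarith)
    have h7 : (1 - 2 * e) / 2 * NN q T ≤ NN q t := by
      rw [lt_div_iff₀ hN] at hr'
      have h8 := NN_mono q (show 1 ≤ (1 - e) / 2 * T by nlinarith) (show (1 - e) / 2 * T ≤ t by linarith)
      linarith
    have h8 := g.mono tup
    have h9 := hT3 t (by linarith)
    have hm0 := g.nn (2 * t) (by linarith)
    have h10 : (v + c - 2 * e) * NN q t ≤ (1 + e) * m (2 * t) := by nlinarith
    have h11 : (v + c - 2 * e) * ((1 - 2 * e) / 2 * NN q T) ≤ (v + c - 2 * e) * NN q t :=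
      mul_le_mul_of_nonneg_left h7 (by linarith)
    have h12 : (1 + e) * ((v + c) / 2 - ε) ≤ (v + c - 2 * e) * ((1 - 2 * e) / 2) := by
      have k1 : v + c ≤ K - 5 := by rw [hK]; linarith
      have k2 : 0 ≤ v + c := by linarith
      rw [← heK]
      nlinarith [mul_nonneg he0.le k2, mul_pos he0 he0, mul_nonneg (mul_nonneg he0.le he0.le) k2,
        mul_nonneg he0.le (show 0 ≤ K - 5 - (v + c) by linarith)]
    have h13 : (1 + e) * (((v + c) / 2 - ε) * NN q T) ≤ (1 + e) * m (2 * t) := by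
      have := mul_le_mul_of_nonneg_right h12 hN.le
      nlinarith
    have h14 := le_of_mul_le_mul_left h13 (by linarith)
    linarith
  intro ε hε
  obtain ⟨ε', h1, h2, h3⟩ : ∃ ε' : ℝ, 0 < ε' ∧ 4 * ε' ≤ ε ∧ 4 * ε' ≤ min 1 c :=
    ⟨min ε (min 1 c) / 4, by positivity, by linarith [min_le_left ε (min 1 c)], by linarith [min_le_right ε (min 1 c)]⟩
  have h3c : 4 * ε' ≤ c := h3.trans (min_le_right _ _)
  have hind : ∀ n : ℕ, ∀ᶠ T : ℝ in atTop, ((c - 2 * ε') * (1 - 1 / 2 ^ n)) * NN q T ≤ m T := by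
    intro n
    induction n with
    | zero =>
      filter_upwards [eventually_gt_atTop 1] with T h2
      have := g.nn T (by linarith)
      simpa using this
    | succ n ih =>
      have k1 : (1:ℝ) / 2 ^ n ≤ 1 := div_le_self zero_le_one (one_le_pow₀ (by norm_num))
      have k2 : (0:ℝ) < 1 / 2 ^ n := by positivity
      have h2 := step ε' h1 (by linarith [le_min zero_le_one hc.le]) ((c - 2 * ε') * (1 - 1 / 2 ^ n))
        (mul_nonneg (by linarith) (by linarith)) (by nlinarith) ih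
      have e : ((c - 2 * ε') * (1 - 1 / 2 ^ n) + c) / 2 - ε' = (c - 2 * ε') * (1 - 1 / 2 ^ (n + 1)) := by
        rw [pow_succ]; field_simp; ring
      rwa [e] at h2
  obtain ⟨n, hn⟩ := pow_unbounded_of_one_lt (c / ε') (show (1:ℝ) < 2 by norm_num)
  filter_upwards [hind n, eventually_gt_atTop 1] with T h4 h5
  have hN := NN_pos q h5
  have h6 : c / 2 ^ n ≤ ε' := by
    rw [div_lt_iff₀ h1] at hn
    rw [div_le_iff₀ (by positivity)]
    linarith
  have h7 : c - ε ≤ (c - 2 * ε') * (1 - 1 / 2 ^ n) := by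
    have : (c - 2 * ε') * (1 - 1 / 2 ^ n) = c - 2 * ε' - c / 2 ^ n + 2 * ε' * (1 / 2 ^ n) := by ring
    rw [this]
    have : 0 ≤ 2 * ε' * (1 / 2 ^ n) := by positivity
    linarith
  exact (mul_le_mul_of_nonneg_right h7 hN.le).trans h4

lemma lim_iff (G : ℝ → ℝ) (q : ℕ) (c : ℝ) : Tendsto (fun T => G T / NN q T) atTop (𝓝 c) ↔
    (∀ ε : ℝ, 0 < ε → ∀ᶠ T : ℝ in atTop, G T ≤ (c + ε) * NN q T) ∧
    (∀ ε : ℝ, 0 < ε → ∀ᶠ T : ℝ in atTop, (c - ε) * NN q T ≤ G T) := by
  constructor
  · intro h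
    constructor
    · intro ε hε
      filter_upwards [h.eventually_lt_const (show c < c + ε by linarith), eventually_gt_atTop 1] with T h1 h2
      have := NN_pos q h2
      rw [div_lt_iff₀ this] at h1
      exact h1.le
    · intro ε hε
      filter_upwards [h.eventually_const_lt (show c - ε < c by linarith), eventually_gt_atTop 1] with T h1 h2
      have := NN_pos q h2
      rw [lt_div_iff₀ this] at h1
      exact h1.le
  · rintro ⟨h1, h2⟩
    rw [Metric.tendsto_nhds]
    intro ε hε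
    filter_upwards [h1 (ε / 2) (by positivity), h2 (ε / 2) (by positivity), eventually_gt_atTop 1] with T a1 a2 a3
    have hN := NN_pos q a3
    rw [← div_le_iff₀ hN] at a1
    rw [← le_div_iff₀ hN] at a2
    rw [Real.dist_eq, abs_lt]
    constructor <;> linarith

/-- the Tauberian equivalence -/
theorem tb_iff (g : Gr m) (h : Cmp m F q) (c : ℝ) :
    Tendsto (fun T => m T / NN q T) atTop (𝓝 c) ↔ Tendsto (fun T => F T / NN q T) atTop (𝓝 c) :=
  ⟨fun h1 => tb_direct h h1, fun h1 => by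
    rw [lim_iff] at h1 ⊢
    exact ⟨tb_up g h h1.1, tb_low g h h1.2⟩⟩

/-- orders of magnitude -/
theorem tb_order (g : Gr m) (h : Cmp m F q) :
    (∃ B : ℝ, ∀ᶠ T : ℝ in atTop, m T ≤ B * NN q T) ↔ ∃ B : ℝ, ∀ᶠ T : ℝ in atTop, F T ≤ B * NN q T := by
  constructor
  · rintro ⟨B, hB⟩
    obtain ⟨C, T0, hC, hT0, h1⟩ := h 1 one_pos
    obtain ⟨T1, hT1⟩ := eventually_atTop.1 hB
    have hr := (NN_ratio q (s := fun T => 3 * T) (a := 3) (by norm_num) (two_ratio _)).1
    have hr2 := hr.eventually_lt_const (show (3:ℝ) < 4 by norm_num)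
    refine ⟨(2 + 2 * C) * (4 * |B|) + 1 + C, ?_⟩
    filter_upwards [hr2, eventually_ge_atTop T0, eventually_ge_atTop T1, eventually_ge_atTop 4] with T a1 a2 a3 a4
    have hN := NN_pos q (show 1 < T by linarith)
    rw [div_lt_iff₀ hN] at a1
    have b1 := hT1 (3 * T) (by linarith)
    have b2 : m (3 * T) ≤ 4 * |B| * NN q T := by
      have h5 : B * NN q (3 * T) ≤ |B| * NN q (3 * T) :=
        mul_le_mul_of_nonneg_right (le_abs_self B) (NN_pos q (by linarith)).le
      have h6 : |B| * NN q (3 * T) ≤ |B| * (4 * NN q T) := mul_le_mul_of_nonneg_left a1.le (abs_nonneg B)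
      linarith
    have hs : √T ≤ T := by
      rw [Real.sqrt_le_left (by linarith)]
      nlinarith
    have hs0 := Real.sqrt_nonneg T
    have c1 := g.mono (show T + √T ≤ 3 * T by linarith)
    have c2 := g.mono (show 2 * T + √T ≤ 3 * T by linarith)
    have c3 := g.mono (show 2 * T ≤ 3 * T by linarith)
    have c4 := g.nn (T - √T) (by linarith)
    have c5 := g.nn (2 * T - √T) (by linarith)
    have c6 := g.nn T (by linarith)
    have hR : Rr m T ≤ 1 + 2 * m (3 * T) := by unfold Rr; linarith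
    have c7 := (abs_le.1 (h1 T a2)).2
    have c8 := mul_le_mul_of_nonneg_left hR hC
    have hN1 : 1 ≤ NN q T := by
      unfold NN
      have h8 : 1 ≤ Real.log T := by
        rw [Real.le_log_iff_exp_le (by linarith)]
        have := Real.exp_one_lt_d9
        linarith
      have h9 : (1:ℝ) ≤ Real.log T ^ q := one_le_pow₀ h8
      nlinarith
    have c9 : C ≤ C * NN q T := by nlinarith
    have c10 := mul_le_mul_of_nonneg_left b2 (show 0 ≤ 2 + 2 * C by linarith)
    nlinarith
  · rintro ⟨B, hB⟩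
    obtain ⟨B', -, h'⟩ := tb_bdd g h hB
    exact ⟨B', h'⟩

end

end Pool.Agent.K4H66.HL
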