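import Pool.Agent.K4H66.HL.L
import Pool.Agent.K4H66.HL.M

set_option autoImplicit false

/-! The `2k`-th moment against the mean square of one smooth Dirichlet polynomial. -/

namespace Pool.Agent.K4H66.HL

open Complex MeasureTheory Filter Topology Set Pool.Agent.TH535.SM Pool.Agent.K4H66.OL Pool.Agent.R446.KR
open scoped ComplexConjugate FourierTransform ContDiff ENNReal Convolution

noncomputable section

variable {φ : ℝ → ℂ}

lemma mo_gr (k : ℕ) : Gr (M (zr k 0)) := by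
  have D := zdat k (u := 1) le_rfl
  exact ⟨fun a b h => M_mono D h, fun T hT => M_nonneg _ hT, M_upper D⟩

lemma Rr_eq (k : ℕ) (T : ℝ) : Rr (M (zr k 0)) T = Rm (zr k 0) T := by
  have D := zdat k (u := 1) le_rfl
  unfold Rr Rm
  rw [Osc_eq D, Osc_eq D, abs_of_nonneg (Real.sqrt_nonneg T)]

/-- the normalised functional -/
def Ff (φ : ℝ → ℂ) (k : ℕ) (T : ℝ) : ℝ := 2 * mD φ k T - 2 * Jc φ k * NN (k ^ 2) T

lemma mD_nonneg (φ : ℝ → ℂ) (k : ℕ) {T : ℝ} (hT : 0 ≤ T) : 0 ≤ mD φ k T :=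
  intervalIntegral.integral_nonneg (by linarith) fun t _ => by positivity

lemma cmp {k : ℕ} (hk : 2 ≤ k) (h : TS φ)
    (hφ : ∀ x ∈ Icc (1:ℝ) (k - 1), ‖φ x‖ ^ 2 + ‖φ (k - x)‖ ^ 2 = 1) : Cmp (M (zr k 0)) (Ff φ k) (k ^ 2) := by
  intro ε hε
  obtain ⟨C, T0, hC, hT0, h1⟩ := master hk h hφ hε
  refine ⟨C, T0, hC, hT0, fun T hT => ?_⟩
  rw [Rr_eq]
  have h2 := h1 T hT
  simp only at h2
  have e : Ff φ k T - (M (zr k 0) (2 * T) - M (zr k 0) T) =
      2 * mD φ k T - (M (zr k 0) (2 * T) - M (zr k 0) T) - 2 * Jc φ k * NN (k ^ 2) T := by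
    unfold Ff; ring
  rw [e]
  exact h2

theorem half_iff {k : ℕ} (hk : 2 ≤ k) (h : TS φ)
    (hφ : ∀ x ∈ Icc (1:ℝ) (k - 1), ‖φ x‖ ^ 2 + ‖φ (k - x)‖ ^ 2 = 1) (c : ℝ) :
    Tendsto (fun T => M (zr k 0) T / NN (k ^ 2) T) atTop (𝓝 c) ↔
    Tendsto (fun T => mD φ k T / NN (k ^ 2) T) atTop (𝓝 (c / 2 + Jc φ k)) := by
  rw [tb_iff (mo_gr k) (cmp hk h hφ) c]
  constructor
  · intro h1
    refine ((h1.div_const 2).add_const (Jc φ k)).congr' ?_
    filter_upwards [eventually_gt_atTop 1] with T hT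
    have := NN_pos (k ^ 2) hT
    unfold Ff
    field_simp
    ring
  · intro h1
    have h2 := (h1.sub_const (Jc φ k)).const_mul 2
    have e : 2 * (c / 2 + Jc φ k - Jc φ k) = c := by ring
    rw [e] at h2
    refine h2.congr' ?_
    filter_upwards [eventually_gt_atTop 1] with T hT
    have := NN_pos (k ^ 2) hT
    unfold Ff
    field_simp

theorem half_order {k : ℕ} (hk : 2 ≤ k) (h : TS φ)
    (hφ : ∀ x ∈ Icc (1:ℝ) (k - 1), ‖φ x‖ ^ 2 + ‖φ (k - x)‖ ^ 2 = 1) :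
    (∃ B : ℝ, ∀ᶠ T : ℝ in atTop, M (zr k 0) T ≤ B * NN (k ^ 2) T) ↔
    (∃ B : ℝ, ∀ᶠ T : ℝ in atTop, mD φ k T ≤ B * NN (k ^ 2) T) := by
  rw [tb_order (mo_gr k) (cmp hk h hφ)]
  constructor
  · rintro ⟨B, hB⟩
    refine ⟨B / 2 + Jc φ k, hB.mono fun T hT => ?_⟩
    unfold Ff at hT
    linarith
  · rintro ⟨B, hB⟩
    refine ⟨2 * B - 2 * Jc φ k, hB.mono fun T hT => ?_⟩
    unfold Ff
    linarith

theorem half_up {k : ℕ} (hk : 2 ≤ k) (h : TS φ)
    (hφ : ∀ x ∈ Icc (1:ℝ) (k - 1), ‖φ x‖ ^ 2 + ‖φ (k - x)‖ ^ 2 = 1) {c : ℝ}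
    (h1 : ∀ ε : ℝ, 0 < ε → ∀ᶠ T : ℝ in atTop, mD φ k T ≤ (c / 2 + Jc φ k + ε) * NN (k ^ 2) T) :
    ∀ ε : ℝ, 0 < ε → ∀ᶠ T : ℝ in atTop, M (zr k 0) T ≤ (c + ε) * NN (k ^ 2) T := by
  refine tb_up (mo_gr k) (cmp hk h hφ) fun ε hε => ?_
  filter_upwards [h1 (ε / 2) (by positivity)] with T hT
  unfold Ff
  linarith

theorem half_low {k : ℕ} (hk : 2 ≤ k) (h : TS φ)
    (hφ : ∀ x ∈ Icc (1:ℝ) (k - 1), ‖φ x‖ ^ 2 + ‖φ (k - x)‖ ^ 2 = 1) {c : ℝ}
    (h1 : ∀ ε : ℝ, 0 < ε → ∀ᶠ T : ℝ in atTop, (c / 2 + Jc φ k - ε) * NN (k ^ 2) T ≤ mD φ k T) :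
    ∀ ε : ℝ, 0 < ε → ∀ᶠ T : ℝ in atTop, (c - ε) * NN (k ^ 2) T ≤ M (zr k 0) T := by
  refine tb_low (mo_gr k) (cmp hk h hφ) fun ε hε => ?_
  filter_upwards [h1 (ε / 2) (by positivity)] with T hT
  unfold Ff
  linarith

/-- the lower bound of the right order -/
theorem low_bound {k : ℕ} (hk : 2 ≤ k) : ∃ c : ℝ, 0 < c ∧ ∀ᶠ T : ℝ in atTop,
    c * NN (k ^ 2) T ≤ M (zr k 0) T := by
  have hk2 : (2:ℝ) ≤ k := by exact_mod_cast hk
  let ψ : ContDiffBump ((k:ℝ) / 2) := ⟨k / 2 - 3 / 4, k / 2 - 1 / 2, by linarith, by linarith⟩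
  have hψ1 : ∀ x ∈ Icc (1:ℝ) (k - 1), ψ x = 1 := by
    intro x hx
    refine ψ.one_of_mem_closedBall ?_
    rw [Metric.mem_closedBall, Real.dist_eq, abs_le]
    show -((k:ℝ) / 2 - 3 / 4) ≤ x - k / 2 ∧ x - k / 2 ≤ k / 2 - 3 / 4
    constructor <;> linarith [hx.1, hx.2]
  have hψ0 : ∀ x : ℝ, x ≤ 1 / 2 ∨ k - 1 / 2 ≤ x → ψ x = 0 := by
    intro x hx
    refine ψ.zero_of_le_dist ?_
    show (k:ℝ) / 2 - 1 / 2 ≤ dist x ((k:ℝ) / 2)
    rw [Real.dist_eq]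
    rcases hx with hx | hx
    · rw [abs_of_nonpos (by linarith)]; linarith
    · rw [abs_of_nonneg (by linarith)]; linarith
  set s : ℝ := (√2)⁻¹ with hs
  have hs2 : s ^ 2 = 1 / 2 := by
    rw [hs, inv_pow, Real.sq_sqrt (by norm_num)]; norm_num
  set φ : ℝ → ℂ := fun x => ((s * ψ x : ℝ) : ℂ) with hφd
  have hφn : ∀ x, ‖φ x‖ ^ 2 = 1 / 2 * ψ x ^ 2 := by
    intro x
    simp only [hφd]
    rw [Complex.norm_real, Real.norm_eq_abs, sq_abs, mul_pow, hs2]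
  have hT : TS φ := by
    refine ⟨?_, ?_⟩
    · exact Complex.ofRealCLM.contDiff.comp (contDiff_const.mul ψ.contDiff)
    · refine (ψ.hasCompactSupport).mono' ?_
      intro x hx
      refine subset_tsupport _ ?_
      intro h0
      apply hx
      simp only [hφd]
      rw [h0, mul_zero, ofReal_zero]
  have hφ : ∀ x ∈ Icc (1:ℝ) (k - 1), ‖φ x‖ ^ 2 + ‖φ (k - x)‖ ^ 2 = 1 := by
    intro x hx
    rw [hφn, hφn, hψ1 x hx, hψ1 (k - x) ⟨by linarith [hx.2], by linarith [hx.1]⟩]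
    norm_num
  -- the constant is negative
  have hJ : Jc φ k < 0 := by
    unfold Jc
    have haF : 0 < H306R2.aF k := H306R2.aF_pos (by linarith)
    refine mul_neg_of_pos_of_neg haF ?_
    have hgc : Continuous (g0 φ k) := (g0_cd hT k).continuous
    have hle : ∀ x, g0 φ k x ≤ 0 := by
      intro x
      unfold g0
      rw [hφn, hφn]
      have h1 := ψ.le_one (x := x)
      have h2 := ψ.nonneg (x := x)
      have h3 := ψ.le_one (x := k - x)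
      have h4 := ψ.nonneg (x := k - x)
      nlinarith
    have hi : ∀ a b : ℝ, IntervalIntegrable (fun x => we k x * g0 φ k x) volume a b := fun a b =>
      ((we_cont k).mul hgc).intervalIntegrable _ _
    rw [← intervalIntegral.integral_add_adjacent_intervals (hi 0 (1 / 2)) (hi (1 / 2) 1)]
    have h1 : ∫ x in (0:ℝ)..(1 / 2), we k x * g0 φ k x < 0 := by
      have h2 : 0 < ∫ x in (0:ℝ)..(1 / 2), -(we k x * g0 φ k x) := by
        refine intervalIntegral.intervalIntegral_pos_of_pos_on (hi _ _).neg (fun x hx => ?_) (by norm_num)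
        have h3 : g0 φ k x = -1 := by
          unfold g0
          rw [hφn, hφn, hψ0 x (Or.inl hx.2.le), hψ0 (k - x) (Or.inr (by linarith [hx.2]))]
          norm_num
        rw [h3]
        have h4 : 0 < we k x := by
          unfold we
          have := hx.1
          positivity
        linarith
      rw [intervalIntegral.integral_neg] at h2
      linarith
    have h2 : ∫ x in (1 / 2 : ℝ)..1, we k x * g0 φ k x ≤ 0 := by
      have h3 : 0 ≤ ∫ x in (1 / 2 : ℝ)..1, -(we k x * g0 φ k x) := by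
        refine intervalIntegral.integral_nonneg (by norm_num) fun x hx => ?_
        have h4 := we_nonneg k (show 0 ≤ x by linarith [hx.1])
        have h5 := hle x
        nlinarith
      rw [intervalIntegral.integral_neg] at h3
      linarith
    linarith
  refine ⟨-Jc φ k, by linarith, ?_⟩
  have h1 := tb_low (mo_gr k) (cmp hk hT hφ) (c := -2 * Jc φ k) (fun ε hε => by
    filter_upwards [eventually_gt_atTop 1] with T hT1
    have h2 := NN_pos (k ^ 2) hT1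
    have h3 := mD_nonneg φ k (T := T) (by linarith)
    unfold Ff
    nlinarith) (-Jc φ k) (by linarith)
  filter_upwards [h1] with T h2
  linarith

/-- the comparison off small sets -/
theorem half_exc {k : ℕ} (hk : 2 ≤ k) (h : TS φ)
    (hφ : ∀ x ∈ Icc (1:ℝ) (k - 1), ‖φ x‖ ^ 2 + ‖φ (k - x)‖ ^ 2 = 1) {ε : ℝ} (hε : 0 < ε) :
    ∃ C X0 : ℝ, 0 ≤ C ∧ 4 ≤ X0 ∧ ∀ X : ℝ, X0 ≤ X → ∃ E : Set ℝ, MeasurableSet E ∧ E ⊆ Icc X (2 * X) ∧
      (volume : Measure ℝ).real E ≤ C * (√X * Real.log X) ∧ ∀ T ∈ Icc X (2 * X), T ∉ E →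
        |2 * mD φ k T - (M (zr k 0) (2 * T) - M (zr k 0) T) - 2 * Jc φ k * NN (k ^ 2) T| ≤
          ε * M (zr k 0) (2 * T) := by
  obtain ⟨c, hc, hl⟩ := low_bound hk
  obtain ⟨T1, hT1⟩ := eventually_atTop.1 hl
  obtain ⟨C, X0, hC, hX0, h1⟩ := cmp_exc (mo_gr k) (cmp hk h hφ) (ε := ε / (1 + c⁻¹)) (by positivity)
  refine ⟨C, max X0 T1, hC, le_max_of_le_left hX0, fun X hX => ?_⟩
  have x1 : X0 ≤ X := (le_max_left _ _).trans hX
  have x2 : T1 ≤ X := (le_max_right _ _).trans hX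
  obtain ⟨E, e1, e2, e3, e4⟩ := h1 X x1
  refine ⟨E, e1, e2, e3, fun T hT hTE => ?_⟩
  have h2 := e4 T hT hTE
  have e : Ff φ k T - (M (zr k 0) (2 * T) - M (zr k 0) T) =
      2 * mD φ k T - (M (zr k 0) (2 * T) - M (zr k 0) T) - 2 * Jc φ k * NN (k ^ 2) T := by
    unfold Ff; ring
  rw [e] at h2
  refine h2.trans ?_
  have h3 := hT1 T (x2.trans hT.1)
  have h4 := (mo_gr k).mono (show T ≤ 2 * T by linarith [hT.1])
  have h5 : NN (k ^ 2) T ≤ c⁻¹ * M (zr k 0) (2 * T) := by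
    rw [inv_mul_eq_div, le_div_iff₀ hc]
    linarith
  have h6 : ε / (1 + c⁻¹) * (M (zr k 0) (2 * T) + NN (k ^ 2) T) ≤
      ε / (1 + c⁻¹) * (M (zr k 0) (2 * T) + c⁻¹ * M (zr k 0) (2 * T)) := by gcongr
  refine h6.trans (le_of_eq ?_)
  field_simp

end

end Pool.Agent.K4H66.HL
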