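import Pool.Agent.K4H66.HL.N

set_option autoImplicit false

/-! Growth exponents, and the existence of cut-offs. -/

namespace Pool.Agent.K4H66.HL

open Complex MeasureTheory Filter Topology Set Pool.Agent.TH535.SM Pool.Agent.K4H66.OL Pool.Agent.R446.KR
open scoped ComplexConjugate FourierTransform ContDiff ENNReal Convolution

noncomputable section

variable {φ : ℝ → ℂ} {m F : ℝ → ℝ} {q : ℕ}

lemma NN_pow_small (q : ℕ) {θ : ℝ} (hθ : 1 < θ) : ∀ᶠ T : ℝ in atTop, NN q T ≤ T ^ θ := by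
  have h1 := (isLittleO_log_rpow_rpow_atTop (s := θ - 1) (q : ℝ) (by linarith)).bound (show (0:ℝ) < 1 by norm_num)
  filter_upwards [h1, eventually_gt_atTop 1] with T h2 h3
  have hl : 0 ≤ Real.log T := Real.log_nonneg h3.le
  rw [Real.norm_of_nonneg (Real.rpow_nonneg hl _), Real.norm_of_nonneg (by positivity), one_mul,
    Real.rpow_natCast] at h2
  unfold NN
  have h4 : T ^ θ = T * T ^ (θ - 1) := by
    rw [← Real.rpow_one_add' (by linarith) (by linarith)]
    congr 1; ring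
  rw [h4]
  gcongr

theorem pow_bdd (g : Gr m) (h : Cmp m F q) {θ b : ℝ} (hθ : 1 < θ) (hF : ∀ᶠ T : ℝ in atTop, F T ≤ b * T ^ θ) :
    ∃ B : ℝ, 0 ≤ B ∧ ∀ᶠ T : ℝ in atTop, m T ≤ B * T ^ θ := by
  wlog hb : 0 ≤ b with H
  · push Not at hb
    exact H g h hθ (b := 0) (by
      filter_upwards [hF, eventually_gt_atTop 0] with T h1 h2
      have : 0 < T ^ θ := Real.rpow_pos_of_pos h2 _
      nlinarith) le_rfl
  have hg := good2 g h (ε := 1 / 8) (δ := 1 / 3) (by norm_num) (by norm_num) (by norm_num)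
  have hmul : ∀ T : ℝ, 0 < T → (2 / 3 * T) ^ θ ≤ 2 / 3 * T ^ θ := by
    intro T hT
    rw [Real.mul_rpow (by norm_num) hT.le]
    have h1 : (2 / 3 : ℝ) ^ θ ≤ (2 / 3 : ℝ) ^ (1:ℝ) :=
      Real.rpow_le_rpow_of_exponent_ge (by norm_num) (by norm_num) hθ.le
    rw [Real.rpow_one] at h1
    exact mul_le_mul_of_nonneg_right h1 (Real.rpow_nonneg hT.le _)
  have key : ∀ᶠ T : ℝ in atTop, m T ≤ 8 / 7 * (m (2 / 3 * T) + (b + 1) * (2 / 3 * T ^ θ)) := by
    have hT2 : Tendsto (fun T : ℝ => T / 2) atTop atTop := tendsto_id.atTop_div_const two_pos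
    obtain ⟨T1, hT1⟩ := eventually_atTop.1 hF
    obtain ⟨T2, hT2'⟩ := eventually_atTop.1 (NN_pow_small q hθ)
    filter_upwards [hT2.eventually hg, eventually_ge_atTop (2 * T1), eventually_ge_atTop 4,
      eventually_ge_atTop (2 * T2)] with T h1 h2 h3 h3'
    obtain ⟨t, ht, h4⟩ := h1
    have t1 := ht.1
    have t2 := ht.2
    have h5 := hT1 t (by linarith)
    have h6 := (abs_le.1 h4).1
    have h7 : t ^ θ ≤ 2 / 3 * T ^ θ := by
      have h8 : t ^ θ ≤ (2 / 3 * T) ^ θ := Real.rpow_le_rpow (by linarith) (by linarith) (by linarith)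
      exact h8.trans (hmul T (by linarith))
    have h8 := g.mono (show T ≤ 2 * t by linarith)
    have h9 := g.mono (show t ≤ 2 / 3 * T by linarith)
    have h10 := hT2' t (by linarith)
    have h10' : 0 < t ^ θ := Real.rpow_pos_of_pos (by linarith) _
    have h11 : (b + 1) * t ^ θ ≤ (b + 1) * (2 / 3 * T ^ θ) := by gcongr
    have h12 : 7 / 8 * m (2 * t) ≤ m t + (b + 1) * t ^ θ := by nlinarith
    linarith
  obtain ⟨T2, hT2⟩ := eventually_atTop.1 key
  set T3 : ℝ := max T2 4 with hT3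
  have hT34 : 4 ≤ T3 := le_max_right _ _
  have hN3 : 0 < (2 / 3 * T3) ^ θ := Real.rpow_pos_of_pos (by linarith) _
  set B : ℝ := max (16 * (b + 1) / 5) (m T3 / (2 / 3 * T3) ^ θ) with hB
  have hB0 : 0 ≤ B := le_trans (by positivity) (le_max_left _ _)
  have hB1 : 16 * (b + 1) ≤ 5 * B := by
    have := le_max_left (16 * (b + 1) / 5) (m T3 / (2 / 3 * T3) ^ θ)
    rw [← hB] at this
    linarith
  have hind : ∀ n : ℕ, ∀ T : ℝ, 2 / 3 * T3 ≤ T → T ≤ T3 * (3 / 2) ^ n → m T ≤ B * T ^ θ := by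
    intro n
    induction n with
    | zero =>
      intro T h1 h2
      rw [pow_zero, mul_one] at h2
      have h3 : m T3 ≤ B * (2 / 3 * T3) ^ θ := by
        have := le_max_right (16 * (b + 1) / 5) (m T3 / (2 / 3 * T3) ^ θ)
        rw [← hB, div_le_iff₀ hN3] at this
        exact this
      calc m T ≤ m T3 := g.mono h2
        _ ≤ B * (2 / 3 * T3) ^ θ := h3
        _ ≤ B * T ^ θ := mul_le_mul_of_nonneg_left (Real.rpow_le_rpow (by linarith) h1 (by linarith)) hB0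
    | succ n ih =>
      intro T h1 h2
      rcases le_total T T3 with h3 | h3
      · refine ih T h1 (h3.trans ?_)
        have : (1:ℝ) ≤ (3 / 2) ^ n := one_le_pow₀ (by norm_num)
        nlinarith
      · have h4 := hT2 T ((le_max_left _ _).trans h3)
        have h5 := ih (2 / 3 * T) (by linarith) (by rw [pow_succ] at h2; nlinarith)
        have h6 := hmul T (by linarith)
        have h7 : B * (2 / 3 * T) ^ θ ≤ B * (2 / 3 * T ^ θ) := mul_le_mul_of_nonneg_left h6 hB0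
        have hN : 0 < T ^ θ := Real.rpow_pos_of_pos (by linarith) _
        have h8 : 16 * (b + 1) * T ^ θ ≤ 5 * B * T ^ θ := mul_le_mul_of_nonneg_right hB1 hN.le
        nlinarith
  refine ⟨B, hB0, ?_⟩
  filter_upwards [eventually_ge_atTop (2 / 3 * T3)] with T hT
  obtain ⟨n, hn⟩ := pow_unbounded_of_one_lt (T / T3) (show (1:ℝ) < 3 / 2 by norm_num)
  rw [div_lt_iff₀ (by linarith)] at hn
  exact hind n T hT (by linarith)

/-- growth exponents -/
theorem tb_pow (g : Gr m) (h : Cmp m F q) {θ : ℝ} (hθ : 1 < θ) :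
    (∃ B : ℝ, ∀ᶠ T : ℝ in atTop, m T ≤ B * T ^ θ) ↔ ∃ B : ℝ, ∀ᶠ T : ℝ in atTop, F T ≤ B * T ^ θ := by
  constructor
  · rintro ⟨B, hB⟩
    obtain ⟨C, T0, hC, hT0, h1⟩ := h 1 one_pos
    obtain ⟨T1, hT1⟩ := eventually_atTop.1 hB
    refine ⟨(2 + 2 * C) * (3 ^ θ * |B|) + 1 + C, ?_⟩
    filter_upwards [eventually_ge_atTop T0, eventually_ge_atTop T1, eventually_ge_atTop 4,
      NN_pow_small q hθ] with T a2 a3 a4 a5
    have hN : 0 < T ^ θ := Real.rpow_pos_of_pos (by linarith) _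
    have b1 := hT1 (3 * T) (by linarith)
    have b2 : m (3 * T) ≤ 3 ^ θ * |B| * T ^ θ := by
      have h5 : B * (3 * T) ^ θ ≤ |B| * (3 * T) ^ θ :=
        mul_le_mul_of_nonneg_right (le_abs_self B) (Real.rpow_nonneg (by linarith) _)
      rw [Real.mul_rpow (by norm_num) (by linarith : (0:ℝ) ≤ T)] at h5 b1
      linarith
    have hs : √T ≤ T := by
      rw [Real.sqrt_le_left (by linarith)]
      nlinarith
    have hs0 := Real.sqrt_nonneg T
    have c1 := g.mono (show T + √T ≤ 3 * T by linarith)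
    have c2 := g.mono (show 2 * T + √T ≤ 3 * T by linarith)
    have c3 := g.mono (show 2 * T ≤ 3 * T by linarith)
    have c4 := g.nn (T - √T) (by linarith)
    have c5 := g.nn (2 * T - √T) (by linarith)
    have c6 := g.nn T (by linarith)
    have hR : Rr m T ≤ 1 + 2 * m (3 * T) := by unfold Rr; linarith
    have c7 := (abs_le.1 (h1 T a2)).2
    have c8 := mul_le_mul_of_nonneg_left hR hC
    have hN1 : 1 ≤ T ^ θ := Real.one_le_rpow (by linarith) (by linarith)
    have c9 : C ≤ C * T ^ θ := by nlinarith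
    have c10 := mul_le_mul_of_nonneg_left b2 (show 0 ≤ 2 + 2 * C by linarith)
    nlinarith
  · rintro ⟨B, hB⟩
    obtain ⟨B', -, h'⟩ := pow_bdd g h hθ hB
    exact ⟨B', h'⟩

theorem half_pow {k : ℕ} (hk : 2 ≤ k) (h : TS φ)
    (hφ : ∀ x ∈ Icc (1:ℝ) (k - 1), ‖φ x‖ ^ 2 + ‖φ (k - x)‖ ^ 2 = 1) {θ : ℝ} (hθ : 1 < θ) :
    (∃ B : ℝ, ∀ᶠ T : ℝ in atTop, M (zr k 0) T ≤ B * T ^ θ) ↔
    (∃ B : ℝ, ∀ᶠ T : ℝ in atTop, mD φ k T ≤ B * T ^ θ) := by
  rw [tb_pow (mo_gr k) (cmp hk h hφ) hθ]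
  constructor
  · rintro ⟨B, hB⟩
    refine ⟨|B| / 2 + |Jc φ k|, ?_⟩
    filter_upwards [hB, NN_pow_small (k ^ 2) hθ, eventually_gt_atTop 1] with T h1 h2 h3
    have hN := NN_pos (k ^ 2) h3
    have hN : 0 < T ^ θ := Real.rpow_pos_of_pos (by linarith) _
    have h4 : B * T ^ θ ≤ |B| * T ^ θ := mul_le_mul_of_nonneg_right (le_abs_self B) hN.le
    have h5 : Jc φ k * NN (k ^ 2) T ≤ |Jc φ k| * T ^ θ :=
      mul_le_mul (le_abs_self _) h2 (NN_pos (k ^ 2) h3).le (abs_nonneg _)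
    unfold Ff at h1
    linarith
  · rintro ⟨B, hB⟩
    refine ⟨2 * |B| + 2 * |Jc φ k|, ?_⟩
    filter_upwards [hB, NN_pow_small (k ^ 2) hθ, eventually_gt_atTop 1] with T h1 h2 h3
    have hN : 0 < T ^ θ := Real.rpow_pos_of_pos (by linarith) _
    have h4 : B * T ^ θ ≤ |B| * T ^ θ := mul_le_mul_of_nonneg_right (le_abs_self B) hN.le
    have h5 : -Jc φ k * NN (k ^ 2) T ≤ |Jc φ k| * T ^ θ :=
      mul_le_mul (neg_le_abs _) h2 (NN_pos (k ^ 2) h3).le (abs_nonneg _)
    unfold Ff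
    linarith

/-- cut-offs -/
theorem exists_cut {k : ℕ} (hk : 2 ≤ k) {δ : ℝ} (hδ : 0 < δ) : ∃ f : ℝ → ℝ, ContDiff ℝ ∞ f ∧
    (∀ x, x ∉ Icc (1 - δ) (k / 2 + δ) → f x = 0) ∧ (∀ x, 0 ≤ f x ∧ f x ≤ 1) ∧
    ∀ x ∈ Icc (1:ℝ) (k - 1), f x ^ 2 + f (k - x) ^ 2 = 1 := by
  have hk2 : (2:ℝ) ≤ k := by exact_mod_cast hk
  have hp := Real.pi_pos
  set s : ℝ → ℝ := fun x => Real.smoothTransition ((k / 2 + δ - x) / (2 * δ)) with hs
  set τ : ℝ → ℝ := fun x => Real.smoothTransition ((x - 1 + δ) / δ) with hτ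
  have hs1 : ∀ x, s (k - x) = 1 - s x := by
    intro x
    simp only [hs]
    have e : ((k:ℝ) / 2 + δ - (k - x)) / (2 * δ) = 1 - (k / 2 + δ - x) / (2 * δ) := by
      field_simp
      ring
    rw [e]
    obtain ⟨y, hy⟩ : ∃ y, y = ((k:ℝ) / 2 + δ - x) / (2 * δ) := ⟨_, rfl⟩
    rw [← hy]
    unfold Real.smoothTransition
    have h1 := Real.smoothTransition.pos_denom y
    rw [sub_sub_cancel, add_comm (expNegInvGlue (1 - y))]
    field_simp
    ring
  have hs01 : ∀ x, 0 ≤ s x ∧ s x ≤ 1 := fun x => ⟨Real.smoothTransition.nonneg _, Real.smoothTransition.le_one _⟩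
  have hτ01 : ∀ x, 0 ≤ τ x ∧ τ x ≤ 1 := fun x => ⟨Real.smoothTransition.nonneg _, Real.smoothTransition.le_one _⟩
  refine ⟨fun x => Real.sin (Real.pi / 2 * s x) * τ x, ?_, ?_, ?_, ?_⟩
  · have c1 : ContDiff ℝ ∞ s := Real.smoothTransition.contDiff.comp
      ((contDiff_const.sub contDiff_id).div_const _)
    have c2 : ContDiff ℝ ∞ τ := Real.smoothTransition.contDiff.comp
      (((contDiff_id.sub contDiff_const).add contDiff_const).div_const _)
    exact (Real.contDiff_sin.comp (contDiff_const.mul c1)).mul c2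
  · intro x hx
    simp only
    rw [mem_Icc, not_and_or, not_le, not_le] at hx
    rcases hx with hx | hx
    · have : τ x = 0 := Real.smoothTransition.zero_of_nonpos (div_nonpos_of_nonpos_of_nonneg (by linarith) hδ.le)
      rw [this, mul_zero]
    · have : s x = 0 := Real.smoothTransition.zero_of_nonpos
        (div_nonpos_of_nonpos_of_nonneg (by linarith) (by linarith))
      rw [this, mul_zero, Real.sin_zero, zero_mul]
  · intro x
    simp only
    have h1 := hs01 x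
    have h2 := hτ01 x
    have h3 : 0 ≤ Real.sin (Real.pi / 2 * s x) := Real.sin_nonneg_of_nonneg_of_le_pi (by nlinarith) (by nlinarith)
    have h4 := Real.sin_le_one (Real.pi / 2 * s x)
    exact ⟨mul_nonneg h3 h2.1, mul_le_one₀ h4 h2.1 h2.2⟩
  · intro x hx
    simp only
    have t1 : ∀ y : ℝ, 1 ≤ y → τ y = 1 := fun y hy =>
      Real.smoothTransition.one_of_one_le (by rw [le_div_iff₀ hδ]; linarith)
    rw [t1 x hx.1, t1 (k - x) (by linarith [hx.2]), hs1, mul_one, mul_one,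
      show Real.pi / 2 * (1 - s x) = Real.pi / 2 - Real.pi / 2 * s x by ring, Real.sin_pi_div_two_sub]
    exact Real.sin_sq_add_cos_sq _

end

end Pool.Agent.K4H66.HL
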