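import Pool.Agent.K4H66.HL.O

set_option autoImplicit false

/-! Symmetric test functions at the two edges of the spectrum. -/

namespace Pool.Agent.K4H66.HL

open Complex MeasureTheory Filter Topology Set Pool.Agent.TH535.SM Pool.Agent.K4H66.OL Pool.Agent.R446.KR
open scoped ComplexConjugate FourierTransform ContDiff ENNReal Convolution

noncomputable section

/-- the edges for a symmetric function that vanishes in the middle -/
theorem edge_sym {k : ℕ} (hk : 2 ≤ k) {G : ℝ → ℝ} (hG : ContDiff ℝ ∞ G) (hGs : ∀ x, G (k - x) = G x)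
    (hφ0 : ∀ x ∈ Icc (1:ℝ) (k - 1), G x = 0) {b : ℝ} (hb0 : 0 ≤ b) (hgb : ∀ x, |G x| ≤ b) {ε : ℝ} (hε : 0 < ε) :
    ∃ u0 : ℕ, ∀ u : ℕ, u0 ≤ u → SmE k ε (fun T => Sf k u T G -
      2 * (H306R2.aF k * ∫ x in (0:ℝ)..1, we k x * G x) * NN (k ^ 2) T) := by
  have hk1 : 1 ≤ k := by omega
  have hk2 : (2:ℝ) ≤ k := by exact_mod_cast hk
  have hgc : Continuous G := hG.continuous
  have haF : 0 < H306R2.aF k := H306R2.aF_pos (by linarith)
  set aF : ℝ := H306R2.aF k with haFd
  set J : ℝ := aF * ∫ x in (0:ℝ)..1, we k x * G x with hJd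
  set η : ℝ := ε / (20 * (aF + 1)) with hη
  have hη0 : 0 < η := by positivity
  have hη1 : 2 * η ≤ ε / 10 := by
    rw [hη, mul_div_assoc', div_le_div_iff₀ (by positivity) (by norm_num)]
    nlinarith
  have hη2 : 2 * aF * η ≤ ε / 10 := by
    rw [hη, mul_div_assoc', div_le_div_iff₀ (by positivity) (by norm_num)]
    nlinarith
  obtain ⟨δ0, hδ0, hδg⟩ := Metric.continuousAt_iff.1 (hgc.continuousAt (x := 1)) η hη0
  rw [hφ0 1 ⟨le_rfl, by linarith⟩] at hδg
  set δ : ℝ := min (1 / 8) (δ0 / 4) with hδ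
  have hδp : 0 < δ := by positivity
  have hδ8 : δ ≤ 1 / 8 := min_le_left _ _
  have hδ4 : δ ≤ δ0 / 4 := min_le_right _ _
  have hnear : ∀ x, |x - 1| ≤ 2 * δ → |G x| ≤ η := by
    intro x hx
    have h1 := hδg (x := x) (by rw [Real.dist_eq]; linarith)
    rw [Real.dist_eq, sub_zero] at h1
    exact h1.le
  obtain ⟨u0, hu'⟩ := exists_nat_ge (2 / δ)
  refine ⟨u0, fun u hu0 => ?_⟩
  have hu0' : (u0:ℝ) ≤ u := by exact_mod_cast hu0
  have huδ : 2 ≤ δ * u := by
    rw [div_le_iff₀ hδp] at hu'
    nlinarith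
  have hu1 : (1:ℝ) ≤ u := by nlinarith
  have hu : 1 ≤ u := by exact_mod_cast hu1
  -- the cut-offs
  let χ : ContDiffBump ((1 - 3 * δ) / 2 : ℝ) := ⟨(1 - δ) / 2, (1 + δ) / 2, by linarith, by linarith⟩
  let ψ : ContDiffBump ((1 - 3 * δ) / 2 : ℝ) := ⟨(1 + δ) / 2, (1 + 2 * δ) / 2, by linarith, by linarith⟩
  have hχ1 : ∀ x, -δ ≤ x → x ≤ 1 - 2 * δ → χ x = 1 := by
    intro x h1 h2
    refine χ.one_of_mem_closedBall ?_
    rw [Metric.mem_closedBall, Real.dist_eq, abs_le]
    constructor <;> simp only [χ] <;> linarith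
  have hχ0 : ∀ x, 1 - δ ≤ x → χ x = 0 := by
    intro x h1
    refine χ.zero_of_le_dist ?_
    rw [Real.dist_eq]
    refine le_trans ?_ (le_abs_self _)
    simp only [χ]
    linarith
  have hψ0 : ∀ x, 1 - δ / 2 ≤ x → ψ x = 0 := by
    intro x h1
    refine ψ.zero_of_le_dist ?_
    rw [Real.dist_eq]
    refine le_trans ?_ (le_abs_self _)
    simp only [ψ]
    linarith
  have hψ1 : ∀ x, χ x ≠ 0 → ψ x = 1 := by
    intro x hx
    refine ψ.one_of_mem_closedBall ?_
    have h1 : x ∈ Function.support χ := hx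
    rw [χ.support_eq, Metric.mem_ball] at h1
    rw [Metric.mem_closedBall]
    simp only [χ] at h1
    simp only [ψ]
    linarith
  set hh : ℝ → ℝ := fun x => G x * χ x with hhd
  have hhcd : ContDiff ℝ ∞ hh := hG.mul χ.contDiff
  have hhcs : HasCompactSupport hh := χ.hasCompactSupport.mul_left
  have hhc : Continuous hh := hhcd.continuous
  have hhb : ∀ x, |hh x| ≤ b := by
    intro x
    simp only [hhd]
    rw [abs_mul, abs_of_nonneg χ.nonneg]
    calc |G x| * χ x ≤ (b) * 1 := mul_le_mul (hgb x) χ.le_one χ.nonneg (by positivity)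
      _ = _ := mul_one _
  have hhle : ∀ x, |G x - hh x| ≤ |G x| := by
    intro x
    simp only [hhd]
    have e : G x - G x * χ x = G x * (1 - χ x) := by ring
    rw [e, abs_mul, abs_of_nonneg (by linarith [χ.le_one (x := x)] : 0 ≤ 1 - χ x)]
    have := χ.nonneg (x := x)
    have := abs_nonneg (G x)
    nlinarith
  -- the remaining part is small
  set g4 : ℝ → ℝ := fun x => G x - hh x - hh (k - x) with hg4
  have hg4c : Continuous g4 := (hgc.sub hhc).sub (hhc.comp (by fun_prop))
  have hg4b : ∀ x, |g4 x| ≤ 3 * (b) := by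
    intro x
    simp only [hg4]
    have a1 := abs_sub (G x - hh x) (hh (k - x))
    have a2 := abs_sub (G x) (hh x)
    have a3 := hgb x
    have a4 := hhb x
    have a5 := hhb (k - x)
    linarith
  have hg4s : ∀ x, g4 (k - x) = g4 x := by
    intro x
    simp only [hg4]
    rw [hGs, sub_sub_cancel]
    ring
  have hg4l : ∀ x, -δ ≤ x → x ≤ 1 → |g4 x| ≤ η := by
    intro x h1 h2
    have e : hh (k - x) = 0 := by
      simp only [hhd]
      rw [hχ0 (k - x) (by linarith), mul_zero]
    simp only [hg4]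
    rw [e, sub_zero]
    rcases le_total x (1 - 2 * δ) with h3 | h3
    · simp only [hhd]
      rw [hχ1 x h1 h3, mul_one, sub_self, abs_zero]
      exact hη0.le
    · refine (hhle x).trans (hnear x ?_)
      rw [abs_le]
      constructor <;> linarith
  have hg4η : ∀ x ∈ Icc (-δ) (k + δ), |g4 x| ≤ η := by
    intro x hx
    rcases le_total x 1 with h1 | h1
    · exact hg4l x hx.1 h1
    rcases le_total x (k - 1) with h2 | h2
    · have e1 : G x = 0 := hφ0 x ⟨h1, h2⟩
      have e2 : G (k - x) = 0 := by rw [hGs, e1]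
      simp only [hg4, hhd]
      rw [e1, e2, zero_mul, zero_mul, sub_zero, sub_zero, abs_zero]
      exact hη0.le
    · rw [← hg4s]
      exact hg4l (k - x) (by linarith [hx.2]) (by linarith)
  have a4 : SmE k (ε / 10) (fun T => Sf k u T g4) := by
    obtain ⟨C, T0, hC, hT0, h1⟩ := Sf_sup k hδp (by linarith) huδ hg4c hg4b hη0.le hg4η
    obtain ⟨C2, T2, hC2, hT2, h2⟩ := mass_le k hu
    refine ⟨C + η * C2, max T0 T2, by positivity, le_max_of_le_left hT0, fun T hT => ?_⟩
    have b1 := h1 T ((le_max_left _ _).trans hT)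
    have b2 := mul_le_mul_of_nonneg_left (h2 T ((le_max_right _ _).trans hT)) hη0.le
    have hT4 : 4 ≤ T := hT0.trans ((le_max_left _ _).trans hT)
    have b3 := NN_pos (k ^ 2) (T := T) (by linarith)
    have b4 := M_nonneg (zr k 0) (T := 2 * T) (by linarith)
    have b5 := Rm_pos (zr k 0) T
    have b6 : 2 * η * M (zr k 0) (2 * T) ≤ ε / 10 * M (zr k 0) (2 * T) := by gcongr
    have b7 : 0 ≤ ε / 10 * NN (k ^ 2) T := by positivity
    have b8 : C ≤ C * Rm (zr k 0) T := by nlinarith
    linarith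
  have a5 := edge_gen hk1 hu hhcd hhcs ψ.contDiff ψ.hasCompactSupport (fun x => ψ.nonneg)
    (fun x hx => hψ1 x (fun h0 => hx (by simp only [hhd]; rw [h0, mul_zero]))) (θ := 1 - δ / 2) (by linarith)
    (by linarith) hψ0 (ε := ε / 10) (by positivity)
  -- the constants
  set Jh : ℝ := aF * ∫ x in Ioi (0:ℝ), we k x * hh x with hJh
  have hJ1 : ∫ x in Ioi (0:ℝ), we k x * hh x = ∫ x in (0:ℝ)..1, we k x * hh x := by
    rw [intervalIntegral.integral_of_le zero_le_one]
    refine (setIntegral_eq_of_subset_of_forall_diff_eq_zero measurableSet_Ioi Ioc_subset_Ioi_self ?_)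
    intro x hx
    have hx1 : 1 < x := by
      by_contra hlt
      push Not at hlt
      exact hx.2 ⟨hx.1, hlt⟩
    simp only [hhd]
    rw [hχ0 x (by linarith)]
    ring
  have hJ2 : |Jh - J| ≤ aF * η := by
    rw [hJh, hJ1]
    rw [← mul_sub, abs_mul, abs_of_pos haF]
    refine mul_le_mul_of_nonneg_left ?_ haF.le
    have i1 : IntervalIntegrable (fun x => we k x * hh x) volume 0 1 :=
      ((we_cont k).mul hhc).intervalIntegrable _ _
    have i2 : IntervalIntegrable (fun x => we k x * G x) volume 0 1 :=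
      ((we_cont k).mul hgc).intervalIntegrable _ _
    rw [← intervalIntegral.integral_sub i1 i2]
    have := intervalIntegral.norm_integral_le_of_norm_le_const (a := 0) (b := 1) (C := η)
      (f := fun x => we k x * hh x - we k x * G x) (fun x hx => by
        rw [uIoc_of_le zero_le_one] at hx
        have e : we k x * hh x - we k x * G x = -(we k x * (G x - hh x)) := by ring
        rw [e, norm_neg, norm_mul, Real.norm_of_nonneg (we_nonneg k hx.1.le), Real.norm_eq_abs]
        have c1 := we_le k hx.1.le hx.2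
        have c2 : |G x - hh x| ≤ η := by
          rcases le_total x (1 - 2 * δ) with h3 | h3
          · simp only [hhd]
            rw [hχ1 x (by linarith [hx.1]) h3, mul_one, sub_self, abs_zero]
            exact hη0.le
          · refine (hhle x).trans (hnear x ?_)
            rw [abs_le]
            constructor <;> linarith [hx.2]
        calc we k x * |G x - hh x| ≤ 1 * η := mul_le_mul c1 c2 (abs_nonneg _) zero_le_one
          _ = η := one_mul η)
    rw [Real.norm_eq_abs] at this
    simpa using this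
  have a6 : SmE k (ε / 10) (fun T => 2 * (Jh - J) * NN (k ^ 2) T) := by
    refine ⟨0, 4, le_rfl, le_rfl, fun T hT => ?_⟩
    have b3 := NN_pos (k ^ 2) (T := T) (by linarith)
    have b4 := M_nonneg (zr k 0) (T := 2 * T) (by linarith)
    rw [abs_mul, abs_mul, abs_two, abs_of_pos b3]
    have b5 : 2 * |Jh - J| * NN (k ^ 2) T ≤ ε / 10 * NN (k ^ 2) T := by
      gcongr
      linarith
    have b6 : 0 ≤ ε / 10 * M (zr k 0) (2 * T) := by positivity
    linarith
  have tot := (a4.add a5).add a6
  refine (tot.mono ?_).congr fun T hT => ?_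
  · linarith
  · have hT1 : 1 ≤ T := by linarith
    have l3 := Sf_add k hu hT1 (g1 := g4) (g2 := fun x => hh x + hh (k - x)) hg4c
      (hhc.add (hhc.comp (by fun_prop))) (b1 := 3 * b) (b2 := 2 * b) hg4b
      (fun x => by
        refine (abs_add_le _ _).trans ?_
        have := hhb x
        have := hhb (k - x)
        linarith)
    have l4 := Sf_add k hu hT1 (g1 := hh) (g2 := fun x => hh (k - x)) hhc
      (hhc.comp (by fun_prop)) (b1 := b) (b2 := b) hhb (fun x => hhb _)
    have e2 : (fun x => g4 x + (hh x + hh (k - x))) = G := by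
      funext x; simp only [hg4]; ring
    rw [e2, l4] at l3
    rw [l3]
    ring

end

end Pool.Agent.K4H66.HL
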