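import Pool.Agent.K4H66.HL.P

set_option autoImplicit false

/-! Shifted correlations over `[T, 2T]`. -/

namespace Pool.Agent.K4H66.HL

open Complex MeasureTheory Filter Topology Set Pool.Agent.TH535.SM Pool.Agent.K4H66.OL Pool.Agent.R446.KR
open scoped ComplexConjugate FourierTransform ContDiff ENNReal Convolution

noncomputable section

variable {z : ℝ → ℂ} {G : ℂ → ℂ} {u K : ℕ} {φ : ℝ → ℂ}

lemma dcl (D : Dat z G u K) : ∃ C : ℝ, 1 ≤ C ∧ ∀ T : ℝ, 1 ≤ T → ∀ t a : ℝ, |a| ≤ 1 →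
    ‖f1 G T (t + a) - wd T t * z (t + a)‖ ^ 2 ≤
      C * ((Wq (2 * T) (t + a) + Wq T (t + a)) * ‖z (t + a)‖ ^ 2) := by
  obtain ⟨C, hC, hcl⟩ := close D
  refine ⟨2 * C, by linarith, fun T hT t a ha => ?_⟩
  have a1 := hcl T hT t a ha
  have a2 := hcl (2 * T) (by linarith) t a ha
  have e : f1 G T (t + a) - wd T t * z (t + a) = (Fn G (2 * T) 0 (t + a) - ind (2 * T) t * z (t + a)) -
      (Fn G T 0 (t + a) - ind T t * z (t + a)) := by
    unfold f1 wd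
    push_cast
    ring
  rw [e]
  have h2 := norm_sub_le (Fn G (2 * T) 0 (t + a) - ind (2 * T) t * z (t + a))
    (Fn G T 0 (t + a) - ind T t * z (t + a))
  refine (pow_le_pow_left₀ (norm_nonneg _) h2 2).trans ?_
  nlinarith [sq_nonneg (‖Fn G (2 * T) 0 (t + a) - ind (2 * T) t * z (t + a)‖ -
    ‖Fn G T 0 (t + a) - ind T t * z (t + a)‖)]

lemma wd_int {T : ℝ} (hT : 0 ≤ T) {E : Type} [NormedAddCommGroup E] [NormedSpace ℝ E] {g : ℝ → E}
    (hg : Continuous g) :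
    Integrable (fun t => wd T t • g t) ∧ ∫ t, wd T t • g t = ∫ t in T..(2 * T), g t := by
  have e : (fun t => wd T t • g t) = (Ioc T (2 * T)).indicator g := by
    funext t
    rw [wd_eq hT]
    by_cases ht : t ∈ Ioc T (2 * T)
    · rw [indicator_of_mem ht, indicator_of_mem ht, one_smul]
    · rw [indicator_of_notMem ht, indicator_of_notMem ht, zero_smul]
  rw [e]
  refine ⟨(integrable_indicator_iff measurableSet_Ioc).2
    ((hg.continuousOn.integrableOn_Icc (a := T) (b := 2 * T)).mono_set Ioc_subset_Icc_self), ?_⟩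
  rw [integral_indicator measurableSet_Ioc, intervalIntegral.integral_of_le (by linarith)]

/-- the correlation over `[T, 2T]` -/
def Qd (z : ℝ → ℂ) (a T : ℝ) : ℂ := Cor z a (2 * T) - Cor z a T

lemma cor_cont (hz : Continuous z) (a : ℝ) : Continuous (fun t => z (t + a) * conj (z (t + -a))) :=
  (hz.comp (by fun_prop)).mul (Complex.continuous_conj.comp (hz.comp (by fun_prop)))

lemma Qd_eq (hz : Continuous z) (a T : ℝ) : Qd z a T = ∫ t in T..(2 * T), z (t + a) * conj (z (t + -a)) := by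
  have hc := cor_cont hz a
  unfold Qd Cor
  rw [intervalIntegral.integral_interval_sub_left (hc.intervalIntegrable _ _) (hc.intervalIntegrable _ _)]

lemma shift_mass2 (D : Dat z G u K) {T a : ℝ} (hT : 4 ≤ T) (ha : |a| ≤ 1) :
    ∫ t in T..(2 * T), ‖z (t + a)‖ ^ 2 ≤ M z (2 * T) + Rm z T := by
  have hs : 1 ≤ √T := by
    rw [Real.one_le_sqrt]; linarith
  obtain ⟨h1, h2⟩ := abs_le.1 ha
  rw [intervalIntegral.integral_comp_add_right (fun t => ‖z t‖ ^ 2)]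
  have e : ∫ t in (T + a)..(2 * T + a), ‖z t‖ ^ 2 = M z (2 * T + a) - M z (T + a) := by
    unfold M
    rw [intervalIntegral.integral_interval_sub_left (D.sc.intervalIntegrable _ _) (D.sc.intervalIntegrable _ _)]
  rw [e]
  have m1 := M_mono D (show 2 * T + a ≤ 2 * T + √T by linarith)
  have m2 := M_nonneg z (T := T + a) (by linarith)
  have o := Osc_eq D (2 * T) (√T)
  rw [abs_of_nonneg (Real.sqrt_nonneg T)] at o
  have m3 := M_mono D (show 2 * T - √T ≤ 2 * T by linarith)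
  have o2 := Osc_nonneg z T (√T)
  unfold Rm
  linarith

/-- the correlation over `[T, 2T]` against its spectral side -/
theorem dy_close (k : ℕ) {u : ℕ} (hu : 1 ≤ u) {ε : ℝ} (hε : 0 < ε) :
    ∃ C T0 : ℝ, 0 ≤ C ∧ 4 ≤ T0 ∧ ∀ T : ℝ, T0 ≤ T → ∀ a : ℝ, |a| ≤ 1 →
      ‖Qd (zr k 0) a T - SpC (f1 (H k u) T) a‖ ≤ ε * M (zr k 0) (2 * T) + C * Rm (zr k 0) T := by
  have D := zdat k hu
  obtain ⟨C1, hC1, hcl⟩ := dcl D
  set η : ℝ := ε / 2 with hη
  have hη0 : 0 < η := by positivity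
  have hKK : 0 < (η⁻¹ + 1) * C1 := by positivity
  obtain ⟨c3, T3, hc3, hT3, hOm⟩ := Om_Rm k (ε := ε / ((η⁻¹ + 1) * C1) / 2) (by positivity)
  refine ⟨η + (η⁻¹ + 1) * C1 * c3, T3, by positivity, hT3, fun T hTT3 a ha => ?_⟩
  have hT4 : 4 ≤ T := hT3.trans hTT3
  have hT1 : 1 ≤ T := by linarith
  have hTn : 0 ≤ T := by linarith
  set z := zr k 0 with hz
  set F := f1 (H k u) T with hF
  have hdec : Dec F := f1_dec D hT1
  have hzc : Continuous z := D.zc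
  have hgc := cor_cont hzc a
  have i1 := prod_int hdec a
  obtain ⟨i2, v2⟩ := wd_int hTn hgc
  have j1 := ((iadd (Om_int D (2 * T)) (Om_int D T)).comp_add_right a)
  have j2 := ((iadd (Om_int D (2 * T)) (Om_int D T)).comp_add_right (-a))
  have hca : Continuous (fun t => ‖z (t + a)‖ ^ 2) := D.sc.comp (by fun_prop)
  have hcb : Continuous (fun t => ‖z (t + -a)‖ ^ 2) := D.sc.comp (by fun_prop)
  obtain ⟨j3, v3⟩ := wd_int hTn hca
  obtain ⟨j4, v4⟩ := wd_int hTn hcb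
  have e1 : Qd z a T - SpC F a = ∫ t, (wd T t • (z (t + a) * conj (z (t + -a))) -
      F (t + a) * conj (F (t + -a))) := by
    rw [integral_sub i2 i1, v2, spec_eq hdec, Qd_eq hzc]
  have hA : ∀ x y e : ℝ, 0 < e → x * y ≤ e / 2 * x ^ 2 + e⁻¹ / 2 * y ^ 2 := by
    intro x y e he
    have h4 : 0 ≤ (e * x - y) ^ 2 * e⁻¹ := by positivity
    have h5 : (e * x - y) ^ 2 * e⁻¹ = e * x ^ 2 + e⁻¹ * y ^ 2 - 2 * (x * y) := by
      field_simp
      ring
    linarith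
  have hpt : ∀ t, ‖wd T t • (z (t + a) * conj (z (t + -a))) - F (t + a) * conj (F (t + -a))‖ ≤
      η / 2 * (wd T t • ‖z (t + a)‖ ^ 2 + wd T t • ‖z (t + -a)‖ ^ 2) +
      (η⁻¹ + 1) * C1 / 2 * ((Wq (2 * T) (t + a) * ‖z (t + a)‖ ^ 2 + Wq T (t + a) * ‖z (t + a)‖ ^ 2) +
        (Wq (2 * T) (t + -a) * ‖z (t + -a)‖ ^ 2 + Wq T (t + -a) * ‖z (t + -a)‖ ^ 2)) := by
    intro t
    have h2 := hcl T hT1 t a ha
    have h3 := hcl T hT1 t (-a) (by rwa [abs_neg])
    rw [← hF] at h2 h3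
    obtain ⟨E1, hE1⟩ : ∃ E1, E1 = F (t + a) - wd T t * z (t + a) := ⟨_, rfl⟩
    obtain ⟨E2, hE2⟩ : ∃ E2, E2 = F (t + -a) - wd T t * z (t + -a) := ⟨_, rfl⟩
    rw [← hE1] at h2
    rw [← hE2] at h3
    have f1 : F (t + a) = wd T t * z (t + a) + E1 := by rw [hE1]; ring
    have f2 : F (t + -a) = wd T t * z (t + -a) + E2 := by rw [hE2]; ring
    have hw : wd T t = 1 ∨ wd T t = 0 := by
      by_cases h : t ∈ Ioc T (2 * T)
      · exact Or.inl (wd_mem hTn h)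
      · exact Or.inr (wd_not hTn h)
    have hi : ((wd T t : ℝ) : ℂ) * (wd T t : ℂ) = (wd T t : ℂ) := by
      rcases hw with h | h <;> rw [h] <;> norm_num
    have hisq : ∀ x : ℂ, ‖(wd T t : ℂ) * x‖ ^ 2 = wd T t * ‖x‖ ^ 2 := by
      intro x
      rcases hw with h | h <;> rw [h] <;> simp
    have e2 : wd T t • (z (t + a) * conj (z (t + -a))) - F (t + a) * conj (F (t + -a)) =
        -(((wd T t : ℂ) * z (t + a)) * conj E2 + E1 * ((wd T t : ℂ) * conj (z (t + -a))) + E1 * conj E2) := by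
      rw [f1, f2, map_add, map_mul, Complex.conj_ofReal, Complex.real_smul]
      have : ((wd T t : ℂ) * z (t + a) + E1) * ((wd T t : ℂ) * conj (z (t + -a)) + conj E2) =
          ((wd T t : ℂ) * (wd T t : ℂ)) * (z (t + a) * conj (z (t + -a))) + ((wd T t : ℂ) * z (t + a)) * conj E2 +
          E1 * ((wd T t : ℂ) * conj (z (t + -a))) + E1 * conj E2 := by ring
      rw [this, hi]
      ring
    rw [e2, norm_neg]
    simp only [smul_eq_mul]
    have n1 : ‖((wd T t : ℂ) * z (t + a)) * conj E2‖ ≤ η / 2 * (wd T t * ‖z (t + a)‖ ^ 2) + η⁻¹ / 2 * ‖E2‖ ^ 2 := by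
      rw [norm_mul, RCLike.norm_conj, ← hisq]
      exact hA _ _ _ hη0
    have n2 : ‖E1 * ((wd T t : ℂ) * conj (z (t + -a)))‖ ≤ η / 2 * (wd T t * ‖z (t + -a)‖ ^ 2) + η⁻¹ / 2 * ‖E1‖ ^ 2 := by
      have e3 : ‖(wd T t : ℂ) * conj (z (t + -a))‖ = ‖(wd T t : ℂ) * z (t + -a)‖ := by
        rw [norm_mul, norm_mul, RCLike.norm_conj]
      rw [norm_mul, e3, mul_comm, ← hisq]
      exact hA _ _ _ hη0
    have n3 : ‖E1 * conj E2‖ ≤ 1 / 2 * ‖E1‖ ^ 2 + 1 / 2 * ‖E2‖ ^ 2 := by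
      rw [norm_mul, RCLike.norm_conj]
      nlinarith [sq_nonneg (‖E1‖ - ‖E2‖)]
    have n4 := norm_add_le (((wd T t : ℂ) * z (t + a)) * conj E2 + E1 * ((wd T t : ℂ) * conj (z (t + -a)))) (E1 * conj E2)
    have n5 := norm_add_le (((wd T t : ℂ) * z (t + a)) * conj E2) (E1 * ((wd T t : ℂ) * conj (z (t + -a))))
    have hηi : 0 < η⁻¹ := by positivity
    have n6 : (η⁻¹ + 1) / 2 * (‖E1‖ ^ 2 + ‖E2‖ ^ 2) ≤ (η⁻¹ + 1) / 2 *
        (C1 * ((Wq (2 * T) (t + a) + Wq T (t + a)) * ‖z (t + a)‖ ^ 2) +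
          C1 * ((Wq (2 * T) (t + -a) + Wq T (t + -a)) * ‖z (t + -a)‖ ^ 2)) := by gcongr
    calc _ ≤ η / 2 * (wd T t * ‖z (t + a)‖ ^ 2 + wd T t * ‖z (t + -a)‖ ^ 2) +
        (η⁻¹ + 1) / 2 * (‖E1‖ ^ 2 + ‖E2‖ ^ 2) := by linarith
      _ ≤ _ := by linarith
  have hint := iadd ((iadd j3 j4).const_mul (η / 2)) ((iadd j1 j2).const_mul ((η⁻¹ + 1) * C1 / 2))
  have hmain : ‖Qd z a T - SpC F a‖ ≤ η / 2 * ((∫ t in T..(2 * T), ‖z (t + a)‖ ^ 2) +
      ∫ t in T..(2 * T), ‖z (t + -a)‖ ^ 2) + (η⁻¹ + 1) * C1 * (Om z (2 * T) + Om z T) := by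
    rw [e1]
    refine (norm_integral_le_of_norm_le hint (Eventually.of_forall hpt)).trans (le_of_eq ?_)
    rw [integral_add ((iadd j3 j4).const_mul _) ((iadd j1 j2).const_mul _), integral_const_mul,
      integral_const_mul, integral_add j3 j4, integral_add j1 j2, v3, v4,
      integral_add_right_eq_self (μ := volume) (fun t : ℝ => Wq (2 * T) t * ‖z t‖ ^ 2 + Wq T t * ‖z t‖ ^ 2) a,
      integral_add_right_eq_self (μ := volume) (fun t : ℝ => Wq (2 * T) t * ‖z t‖ ^ 2 + Wq T t * ‖z t‖ ^ 2) (-a),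
      integral_add (Om_int D _) (Om_int D _)]
    unfold Om
    ring
  have s1 := shift_mass2 D hT4 ha
  have s2 := shift_mass2 D hT4 (a := -a) (by rwa [abs_neg])
  have hom := hOm T hTT3
  have hM := M_nonneg z (T := 2 * T) (by linarith)
  have h4 := mul_le_mul_of_nonneg_left hom hKK.le
  have e5 : (η⁻¹ + 1) * C1 * (ε / ((η⁻¹ + 1) * C1) / 2 * M z (2 * T) + c3 * Rm z T) =
      ε / 2 * M z (2 * T) + (η⁻¹ + 1) * C1 * c3 * Rm z T := by
    field_simp
  rw [e5] at h4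
  have h5 : η / 2 * ((∫ t in T..(2 * T), ‖z (t + a)‖ ^ 2) + ∫ t in T..(2 * T), ‖z (t + -a)‖ ^ 2) ≤
      η / 2 * (2 * (M z (2 * T) + Rm z T)) := by
    refine mul_le_mul_of_nonneg_left ?_ (by positivity)
    linarith
  have h8 : η * M z (2 * T) = ε / 2 * M z (2 * T) := by rw [hη]
  linarith

/-- real and imaginary parts of the rotated spectral correlation -/
lemma SpC_re (k : ℕ) {u : ℕ} (hu : 1 ≤ u) {T : ℝ} (hT : 1 < T) (α κ : ℝ) :
    (cexp (((k * α + κ : ℝ) : ℂ) * I) * SpC (f1 (H k u) T) (α / Real.log T)).re =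
      Sf k u T (fun x => Real.cos (α * (k - 2 * x) + κ)) := by
  have hL : 0 < Real.log T := Real.log_pos hT
  rw [← spec_eq (f1_dec (zdat k hu) hT.le), spec_re (f1_dec (zdat k hu) hT.le)]
  unfold Sf
  refine integral_congr_ae (Eventually.of_forall fun w => ?_)
  simp only
  congr 2
  field_simp
  ring

end

end Pool.Agent.K4H66.HL
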