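import Pool.Agent.K4H66.HL.Q

set_option autoImplicit false

/-! The rotated autocorrelation of the polynomial. -/

namespace Pool.Agent.K4H66.HL

open Complex MeasureTheory Filter Topology Set Pool.Agent.TH535.SM Pool.Agent.K4H66.OL Pool.Agent.R446.KR
open scoped ComplexConjugate FourierTransform ContDiff ENNReal Convolution

noncomputable section

variable {φ : ℝ → ℂ}

/-- the polarised test function -/
def ps (φ : ℝ → ℂ) (k : ℕ) (α s : ℝ) (x : ℝ) : ℂ :=
  φ x * (cexp (((α * (k - x) : ℝ) : ℂ) * I) + s * cexp (((α * x : ℝ) : ℂ) * I))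

lemma exp_cd (a b : ℝ) : ContDiff ℝ ∞ (fun x : ℝ => cexp (((a * x + b : ℝ) : ℂ) * I)) := by
  have h1 : ContDiff ℝ ∞ (fun x : ℝ => ((a * x + b : ℝ) : ℂ)) :=
    Complex.ofRealCLM.contDiff.comp ((contDiff_const.mul contDiff_id).add contDiff_const)
  exact (Complex.contDiff_exp (𝕜 := ℝ)).comp (h1.mul contDiff_const)

lemma ps_TS (h : TS φ) (k : ℕ) (α s : ℝ) : TS (ps φ k α s) := by
  refine ⟨?_, ?_⟩
  · unfold ps
    have e1 : (fun x : ℝ => cexp (((α * (k - x) : ℝ) : ℂ) * I)) =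
        fun x : ℝ => cexp (((-α * x + α * k : ℝ) : ℂ) * I) := by
      funext x; congr 3; ring
    have e2 : (fun x : ℝ => cexp (((α * x : ℝ) : ℂ) * I)) =
        fun x : ℝ => cexp (((α * x + 0 : ℝ) : ℂ) * I) := by
      funext x; congr 3; ring
    have c1 : ContDiff ℝ ∞ (fun x : ℝ => cexp (((α * (k - x) : ℝ) : ℂ) * I)) := by rw [e1]; exact exp_cd _ _
    have c2 : ContDiff ℝ ∞ (fun x : ℝ => cexp (((α * x : ℝ) : ℂ) * I)) := by rw [e2]; exact exp_cd _ _
    exact h.cd.mul (c1.add (contDiff_const.mul c2))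
  · exact h.cs.mul_right

lemma norm_two (A B s : ℝ) (hs : s ^ 2 = 1) :
    ‖cexp ((A : ℂ) * I) + s * cexp ((B : ℂ) * I)‖ ^ 2 = 2 + 2 * s * Real.cos (A - B) := by
  rw [← Complex.normSq_eq_norm_sq, Complex.normSq_apply]
  have e1 : (cexp ((A : ℂ) * I)).re = Real.cos A := Complex.exp_ofReal_mul_I_re A
  have e2 : (cexp ((A : ℂ) * I)).im = Real.sin A := Complex.exp_ofReal_mul_I_im A
  have e3 : (cexp ((B : ℂ) * I)).re = Real.cos B := Complex.exp_ofReal_mul_I_re B
  have e4 : (cexp ((B : ℂ) * I)).im = Real.sin B := Complex.exp_ofReal_mul_I_im B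
  rw [Complex.add_re, Complex.add_im, Complex.re_ofReal_mul, Complex.im_ofReal_mul, e1, e2, e3, e4, Real.cos_sub]
  have h1 := Real.sin_sq_add_cos_sq A
  have h2 := Real.sin_sq_add_cos_sq B
  linear_combination h1 + s ^ 2 * h2 + hs

lemma ps_sq (φ : ℝ → ℂ) (k : ℕ) (α s : ℝ) (hs : s ^ 2 = 1) (x : ℝ) :
    ‖ps φ k α s x‖ ^ 2 = 2 * ‖φ x‖ ^ 2 + 2 * s * (‖φ x‖ ^ 2 * Real.cos (α * (k - 2 * x))) := by
  unfold ps
  rw [norm_mul, mul_pow, norm_two _ _ _ hs]
  have e : α * (k - x) - α * x = α * (k - 2 * x) := by ring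
  rw [e]
  ring

lemma DP_sum' {f : ℝ → ℂ} {X : ℝ} (hf : ∀ x, X < x → f x = 0) (k : ℕ) {T : ℝ} (hT : 1 < T) (t : ℝ) :
    DP f k T t = ∑ n ∈ Finset.range (⌈Real.exp (X * Real.log T)⌉₊ + 1),
      (W182.KO.dk k n : ℂ) * f (Real.log n / Real.log T) * (n : ℂ) ^ (-(1 / 2 + I * t) : ℂ) := by
  have hL : 0 < Real.log T := Real.log_pos hT
  refine tsum_eq_sum fun n hn => ?_
  rw [Finset.mem_range, not_lt] at hn
  have h1 : Real.exp (X * Real.log T) < n := by
    refine (Nat.le_ceil _).trans_lt ?_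
    exact_mod_cast hn
  have hn0 : (0:ℝ) < n := (Real.exp_pos _).trans h1
  have h2 : X * Real.log T < Real.log n := (Real.lt_log_iff_exp_lt hn0).2 h1
  rw [hf _ ((lt_div_iff₀ hL).2 h2)]
  simp

lemma cpow_shift {n : ℕ} (hn : n ≠ 0) (t a : ℝ) :
    (n : ℂ) ^ (-(1 / 2 + I * ((t + a : ℝ) : ℂ)) : ℂ) =
      (n : ℂ) ^ (-(1 / 2 + I * t) : ℂ) * cexp (((-(a * Real.log n) : ℝ) : ℂ) * I) := by
  have hn' : (n : ℂ) ≠ 0 := by exact_mod_cast hn
  rw [Complex.cpow_def_of_ne_zero hn', Complex.cpow_def_of_ne_zero hn', ← Complex.exp_add]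
  congr 1
  rw [← Complex.natCast_log]
  push_cast
  ring

/-- the polynomial of the polarised test function -/
lemma DP_ps (h : TS φ) (k : ℕ) (α s : ℝ) {T : ℝ} (hT : 1 < T) (t : ℝ) :
    DP (ps φ k α s) k T t = cexp (((k * α : ℝ) : ℂ) * I) * DP φ k T (t + α / Real.log T) +
      s * DP φ k T (t - α / Real.log T) := by
  have hL : 0 < Real.log T := Real.log_pos hT
  obtain ⟨X, -, hX⟩ := h.tf
  have hf : ∀ x, X < x → φ x = 0 := fun x hx => hX.sp x hx
  have hf2 : ∀ x, X < x → ps φ k α s x = 0 := fun x hx => by unfold ps; rw [hf x hx, zero_mul]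
  rw [DP_sum' hf k hT, DP_sum' hf k hT, DP_sum' hf2 k hT, Finset.mul_sum, Finset.mul_sum, ← Finset.sum_add_distrib]
  refine Finset.sum_congr rfl fun n _ => ?_
  rcases Nat.eq_zero_or_pos n with h0 | h0
  · subst h0; rw [dk_zero]; simp
  · rw [cpow_shift h0.ne', sub_eq_add_neg, cpow_shift h0.ne']
    unfold ps
    have e1 : cexp (((k * α : ℝ) : ℂ) * I) * cexp (((-(α / Real.log T * Real.log n) : ℝ) : ℂ) * I) =
        cexp (((α * (k - Real.log n / Real.log T) : ℝ) : ℂ) * I) := by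
      rw [← Complex.exp_add, ← add_mul, ← Complex.ofReal_add]
      congr 3
      field_simp
      ring
    have e2 : cexp (((-(-(α / Real.log T) * Real.log n) : ℝ) : ℂ) * I) =
        cexp (((α * (Real.log n / Real.log T) : ℝ) : ℂ) * I) := by
      congr 3
      field_simp
    rw [e2, ← e1]
    ring

/-- the autocorrelation of the polynomial over the window -/
def Ac (φ : ℝ → ℂ) (k : ℕ) (α T : ℝ) : ℂ :=
  ∫ t in T..(2 * T), DP φ k T (t + α / Real.log T) * conj (DP φ k T (t - α / Real.log T))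

lemma Ac_pol (h : TS φ) (k : ℕ) (α : ℝ) {T : ℝ} (hT : 1 < T) :
    (cexp (((k * α : ℝ) : ℂ) * I) * Ac φ k α T).re = (mD (ps φ k α 1) k T - mD (ps φ k α (-1)) k T) / 4 := by
  have hc := DP_cont h k hT
  set e : ℂ := cexp (((k * α : ℝ) : ℂ) * I) with he
  set a : ℝ → ℂ := fun t => e * DP φ k T (t + α / Real.log T) with ha
  set b : ℝ → ℂ := fun t => DP φ k T (t - α / Real.log T) with hb
  have hac : Continuous a := continuous_const.mul (hc.comp (by fun_prop))
  have hbc : Continuous b := hc.comp (by fun_prop)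
  have e1 : e * Ac φ k α T = ∫ t in T..(2 * T), a t * conj (b t) := by
    unfold Ac
    rw [← intervalIntegral.integral_const_mul]
    refine intervalIntegral.integral_congr fun t _ => ?_
    simp only [ha, hb]
    ring
  have hcc : Continuous (fun t => a t * conj (b t)) := hac.mul (Complex.continuous_conj.comp hbc)
  have e2 : (∫ t in T..(2 * T), a t * conj (b t)).re = ∫ t in T..(2 * T), (a t * conj (b t)).re := by
    have h1 := intervalIntegral.integral_of_le (μ := volume) (f := fun t => a t * conj (b t))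
      (show T ≤ 2 * T by linarith)
    have h2 := intervalIntegral.integral_of_le (μ := volume) (f := fun t => (a t * conj (b t)).re)
      (show T ≤ 2 * T by linarith)
    rw [h1, h2]
    exact (integral_re ((hcc.continuousOn.integrableOn_Icc (a := T) (b := 2 * T)).mono_set Ioc_subset_Icc_self)).symm
  have e3 : mD (ps φ k α 1) k T = ∫ t in T..(2 * T), ‖a t + b t‖ ^ 2 := by
    unfold mD
    refine intervalIntegral.integral_congr fun t _ => ?_
    rw [DP_ps h k α 1 hT]
    simp only [ha, hb, ofReal_one, one_mul]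
    rfl
  have e4 : mD (ps φ k α (-1)) k T = ∫ t in T..(2 * T), ‖a t - b t‖ ^ 2 := by
    unfold mD
    refine intervalIntegral.integral_congr fun t _ => ?_
    rw [DP_ps h k α (-1) hT]
    simp only [ha, hb, ofReal_neg, ofReal_one, neg_one_mul]
    rw [← sub_eq_add_neg]
  have c3 : Continuous (fun t => ‖a t + b t‖ ^ 2) := by fun_prop
  have c4 : Continuous (fun t => ‖a t - b t‖ ^ 2) := by fun_prop
  rw [e1, e2, e3, e4, ← intervalIntegral.integral_sub (c3.intervalIntegrable _ _) (c4.intervalIntegrable _ _),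
    ← intervalIntegral.integral_div]
  refine intervalIntegral.integral_congr fun t _ => ?_
  rw [← Complex.normSq_eq_norm_sq, ← Complex.normSq_eq_norm_sq, Complex.normSq_apply, Complex.normSq_apply]
  simp only [Complex.add_re, Complex.add_im, Complex.sub_re, Complex.sub_im, Complex.mul_re, Complex.conj_re,
    Complex.conj_im]
  ring

/-- the comparison of the autocorrelation with the spectral functional -/
theorem pol_close (h : TS φ) (k : ℕ) (α : ℝ) {u : ℕ} (hu : 1 ≤ u) {ε : ℝ} (hε : 0 < ε) :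
    SmE k ε (fun T => 2 * (cexp (((k * α : ℝ) : ℂ) * I) * Ac φ k α T).re -
      (Sf k u T (fun x => ‖φ x‖ ^ 2 * Real.cos (α * (k - 2 * x))) +
        Sf k u T (fun x => ‖φ (k - x)‖ ^ 2 * Real.cos (α * (k - 2 * x))))) := by
  obtain ⟨b, hb0, hb⟩ := h.bdd
  have x1 := SmE_of k hu (ε := ε / 12) (by positivity) (mD_close (ps_TS h k α 1) k hu (ε := ε / 12) (by positivity))
  have x2 := SmE_of k hu (ε := ε / 12) (by positivity)
    (mD_close (ps_TS h k α (-1)) k hu (ε := ε / 12) (by positivity))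
  have y1 := SmE_of k hu (ε := ε / 12) (by positivity) (sym_close (ps_TS h k α 1) k hu (ε := ε / 12) (by positivity))
  have y2 := SmE_of k hu (ε := ε / 12) (by positivity)
    (sym_close (ps_TS h k α (-1)) k hu (ε := ε / 12) (by positivity))
  have tot := (((x1.mul (1 / 2)).add (x2.mul (-(1 / 2)))).add (y1.mul (1 / 4))).add (y2.mul (-(1 / 4)))
  refine (tot.mono ?_).congr fun T hT => ?_
  · rw [abs_neg, abs_neg, abs_of_pos (by norm_num : (0:ℝ) < 1 / 2), abs_of_pos (by norm_num : (0:ℝ) < 1 / 4)]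
    linarith
  · have hT1 : 1 ≤ T := by linarith
    have hT1' : 1 < T := by linarith
    rw [Ac_pol h k α hT1']
    have hcn : Continuous (fun x => ‖φ x‖ ^ 2) := (nsq_cd h.cd).continuous
    have hcos : Continuous (fun x : ℝ => Real.cos (α * (k - 2 * x))) := by fun_prop
    have key : ∀ τ : ℝ → ℝ, Continuous τ → ∀ s : ℝ, s ^ 2 = 1 →
        Sf k u T (fun x => ‖ps φ k α s (τ x)‖ ^ 2) = 2 * Sf k u T (fun x => ‖φ (τ x)‖ ^ 2) +
          2 * s * Sf k u T (fun x => ‖φ (τ x)‖ ^ 2 * Real.cos (α * (k - 2 * τ x))) := by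
      intro τ hτ s hs
      have e1 : (fun x => ‖ps φ k α s (τ x)‖ ^ 2) = fun x => 2 * ‖φ (τ x)‖ ^ 2 +
          2 * s * (‖φ (τ x)‖ ^ 2 * Real.cos (α * (k - 2 * τ x))) := by
        funext x; exact ps_sq φ k α s hs (τ x)
      have hs1 : |s| = 1 := by
        have := abs_le_one_iff_mul_self_le_one (a := s)
        rcases eq_or_eq_neg_of_abs_eq (a := s) (b := |s|) rfl with h1 | h1
        all_goals
          have h2 : |s| ^ 2 = 1 := by rw [sq_abs]; exact hs
          nlinarith [abs_nonneg s]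
      have hbb : ∀ x, ‖φ (τ x)‖ ^ 2 ≤ b ^ 2 := fun x => by gcongr; exact hb _
      rw [e1, Sf_add k hu hT1 (g1 := fun x => 2 * ‖φ (τ x)‖ ^ 2)
        (g2 := fun x => 2 * s * (‖φ (τ x)‖ ^ 2 * Real.cos (α * (k - 2 * τ x)))) (b1 := 2 * b ^ 2) (b2 := 2 * b ^ 2)
        (continuous_const.mul (hcn.comp hτ))
        (continuous_const.mul ((hcn.comp hτ).mul (hcos.comp hτ))) (fun x => ?_) (fun x => ?_), Sf_mul, Sf_mul]
      · rw [abs_of_nonneg (by positivity)]
        have := hbb x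
        linarith
      · rw [abs_mul, abs_mul, abs_mul, hs1, abs_two, mul_one, abs_of_nonneg (by positivity : 0 ≤ ‖φ (τ x)‖ ^ 2)]
        have h1 := Real.abs_cos_le_one (α * (k - 2 * τ x))
        have h2 : ‖φ (τ x)‖ ^ 2 * |Real.cos (α * (k - 2 * τ x))| ≤ b ^ 2 * 1 :=
          mul_le_mul (hbb x) h1 (abs_nonneg _) (by positivity)
        linarith
    have k1 := key (fun x => x) continuous_id 1 (by norm_num)
    have k2 := key (fun x => x) continuous_id (-1) (by norm_num)
    have k3 := key (fun x => k - x) (by fun_prop) 1 (by norm_num)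
    have k4 := key (fun x => k - x) (by fun_prop) (-1) (by norm_num)
    have e3 : (fun x => ‖φ (k - x)‖ ^ 2 * Real.cos (α * (k - 2 * (k - x)))) =
        fun x => ‖φ (k - x)‖ ^ 2 * Real.cos (α * (k - 2 * x)) := by
      funext x
      rw [show α * (k - 2 * (k - x)) = -(α * (k - 2 * x)) by ring, Real.cos_neg]
    rw [e3] at k3 k4
    rw [k1, k2, k3, k4]
    ring

/-- odd functions are invisible -/
theorem odd_small (k : ℕ) (α : ℝ) {u : ℕ} (hu : 2 ≤ u) {ε : ℝ} (hε : 0 < ε) :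
    SmE k ε (fun T => Sf k u T (fun x => Real.sin (α * (k - 2 * x)))) := by
  have hu1 : 1 ≤ u := by omega
  have hk0 : (0:ℝ) ≤ k := Nat.cast_nonneg k
  let χ : ContDiffBump ((k:ℝ) / 2) := ⟨k / 2 + 1, k / 2 + 2, by linarith, by linarith⟩
  have hχs : ∀ x : ℝ, χ (k - x) = χ x := by
    intro x
    have h1 := χ.sub ((k:ℝ) / 2 - x)
    rw [show (k:ℝ) / 2 - (k / 2 - x) = x by ring, show (k:ℝ) / 2 + (k / 2 - x) = k - x by ring] at h1
    exact h1.symm
  have hχ1 : ∀ x ∈ Icc (-1:ℝ) (k + 1), χ x = 1 := by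
    intro x hx
    refine χ.one_of_mem_closedBall ?_
    rw [Metric.mem_closedBall, Real.dist_eq, abs_le]
    show -((k:ℝ) / 2 + 1) ≤ x - k / 2 ∧ x - k / 2 ≤ k / 2 + 1
    constructor <;> linarith [hx.1, hx.2]
  have hχ01 : ∀ x, 0 ≤ χ x ∧ χ x ≤ 1 := fun x => ⟨χ.nonneg, χ.le_one⟩
  set g : ℝ → ℝ := fun x => Real.sin (α * (k - 2 * x)) with hg
  have hgc : Continuous g := by rw [hg]; fun_prop
  have hgo : ∀ x, g (k - x) = -g x := by
    intro x
    simp only [hg]
    rw [show α * (k - 2 * (k - x)) = -(α * (k - 2 * x)) by ring, Real.sin_neg]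
  have hg1 : ∀ x, |g x| ≤ 1 := fun x => Real.abs_sin_le_one _
  set p : ℝ → ℂ := fun x => ((χ x * (2 + g x) : ℝ) : ℂ) with hp
  have hpT : TS p := by
    refine cx_TS (p := fun x => χ x * (2 + g x)) ?_ ?_
    · refine χ.contDiff.mul (contDiff_const.add ?_)
      exact Real.contDiff_sin.comp (contDiff_const.mul (contDiff_const.sub (contDiff_const.mul contDiff_id)))
    · exact χ.hasCompactSupport.mul_right
  have hn : ∀ x, ‖p x‖ ^ 2 = χ x ^ 2 * (2 + g x) ^ 2 := by
    intro x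
    simp only [hp]
    rw [Complex.norm_real, Real.norm_eq_abs, sq_abs, mul_pow]
  have s1 := SmE_of k hu1 (ε := ε / 4) (by positivity) (sym_close hpT k hu1 (ε := ε / 4) (by positivity))
  -- the part off the spectrum
  have s2 : SmE k (ε / 4) (fun T => Sf k u T (fun x => g x * (1 - χ x ^ 2))) := by
    obtain ⟨C, T0, hC, hT0, h1⟩ := Sf_sup k (u := u) (δ := 1) one_pos le_rfl (by
      have : (2:ℝ) ≤ u := by exact_mod_cast hu
      linarith) (g := fun x => g x * (1 - χ x ^ 2)) (hgc.mul (continuous_const.sub (χ.continuous.pow 2))) (b := 1)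
      (η := 0) (fun x => by
        rw [abs_mul]
        have h2 := hg1 x
        have h3 := hχ01 x
        have h4 : |1 - χ x ^ 2| ≤ 1 := by rw [abs_le]; constructor <;> nlinarith
        calc |g x| * |1 - χ x ^ 2| ≤ 1 * 1 := mul_le_mul h2 h4 (abs_nonneg _) zero_le_one
          _ = 1 := one_mul 1) le_rfl (fun x hx => by
        rw [hχ1 x hx]; simp)
    refine ⟨C, T0, hC, hT0, fun T hT => ?_⟩
    have h2 := h1 T hT
    rw [zero_mul, zero_add] at h2
    have b3 := NN_pos (k ^ 2) (T := T) (by linarith)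
    have b4 := M_nonneg (zr k 0) (T := 2 * T) (by linarith)
    have b5 := Rm_pos (zr k 0) T
    have b6 : 0 ≤ ε / 4 * (M (zr k 0) (2 * T) + NN (k ^ 2) T) := by positivity
    have b8 : C ≤ C * Rm (zr k 0) T := by nlinarith
    linarith
  have tot := (s1.mul (1 / 8)).add s2
  refine (tot.mono ?_).congr fun T hT => ?_
  · rw [abs_of_pos (by norm_num : (0:ℝ) < 1 / 8)]; linarith
  · have hT1 : 1 ≤ T := by linarith
    have hc1 : Continuous (fun x => ‖p x‖ ^ 2) := (nsq_cd hpT.cd).continuous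
    have hb1 : ∀ x, |‖p x‖ ^ 2| ≤ 9 := by
      intro x
      rw [hn, abs_of_nonneg (by positivity)]
      have h3 := hχ01 x
      have h2 := abs_le.1 (hg1 x)
      have h4 : (2 + g x) ^ 2 ≤ 9 := by nlinarith
      have h5 : χ x ^ 2 ≤ 1 := by nlinarith
      calc χ x ^ 2 * (2 + g x) ^ 2 ≤ 1 * 9 := mul_le_mul h5 h4 (by positivity) zero_le_one
        _ = 9 := one_mul 9
    have l1 := Sf_add k hu1 hT1 (g1 := fun x => ‖p (k - x)‖ ^ 2) (g2 := fun x => 8 * (g x * χ x ^ 2))
      (hc1.comp (by fun_prop)) (continuous_const.mul (hgc.mul (χ.continuous.pow 2))) (b1 := 9) (b2 := 8)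
      (fun x => hb1 _) (fun x => by
        rw [abs_mul, abs_mul]
        have h2 := hg1 x
        have h3 := hχ01 x
        have h4 : |χ x ^ 2| ≤ 1 := by rw [abs_le]; constructor <;> nlinarith
        have h5 : |g x| * |χ x ^ 2| ≤ 1 * 1 := mul_le_mul h2 h4 (abs_nonneg _) zero_le_one
        have h6 : |(8:ℝ)| = 8 := abs_of_pos (by norm_num)
        rw [h6]
        linarith)
    have e1 : (fun x => ‖p (k - x)‖ ^ 2 + 8 * (g x * χ x ^ 2)) = fun x => ‖p x‖ ^ 2 := by
      funext x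
      rw [hn, hn, hχs, hgo]
      ring
    have l2 := Sf_add k hu1 hT1 (g1 := fun x => g x * χ x ^ 2) (g2 := fun x => g x * (1 - χ x ^ 2))
      (hgc.mul (χ.continuous.pow 2)) (hgc.mul (continuous_const.sub (χ.continuous.pow 2))) (b1 := 1) (b2 := 1)
      (fun x => by
        rw [abs_mul]
        have h2 := hg1 x
        have h3 := hχ01 x
        have h4 : |χ x ^ 2| ≤ 1 := by rw [abs_le]; constructor <;> nlinarith
        calc |g x| * |χ x ^ 2| ≤ 1 * 1 := mul_le_mul h2 h4 (abs_nonneg _) zero_le_one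
          _ = 1 := one_mul 1) (fun x => by
        rw [abs_mul]
        have h2 := hg1 x
        have h3 := hχ01 x
        have h4 : |1 - χ x ^ 2| ≤ 1 := by rw [abs_le]; constructor <;> nlinarith
        calc |g x| * |1 - χ x ^ 2| ≤ 1 * 1 := mul_le_mul h2 h4 (abs_nonneg _) zero_le_one
          _ = 1 := one_mul 1)
    have e2 : (fun x => g x * χ x ^ 2 + g x * (1 - χ x ^ 2)) = g := by
      funext x; ring
    rw [e1, Sf_mul] at l1
    rw [e2] at l2
    rw [l2, l1]
    ring

end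

end Pool.Agent.K4H66.HL
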