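import Pool.Agent.K4H66.HL.R

set_option autoImplicit false

/-! The comparison at all shifts. -/

namespace Pool.Agent.K4H66.HL

open Complex MeasureTheory Filter Topology Set Pool.Agent.TH535.SM Pool.Agent.K4H66.OL Pool.Agent.R446.KR
open scoped ComplexConjugate FourierTransform ContDiff ENNReal Convolution

noncomputable section

variable {φ : ℝ → ℂ}

/-- the edge term at the shift `α` -/
def Js (φ : ℝ → ℂ) (k : ℕ) (α : ℝ) : ℝ :=
  H306R2.aF k * ∫ x in (0:ℝ)..1, we k x * (g0 φ k x * Real.cos (α * (k - 2 * x)))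

/-- the rotation -/
def ro (k : ℕ) (α : ℝ) : ℂ := cexp (((k * α : ℝ) : ℂ) * I)

lemma ro_norm (k : ℕ) (α : ℝ) : ‖ro k α‖ = 1 := Complex.norm_exp_ofReal_mul_I _

lemma SmE_dy (k : ℕ) (α : ℝ) {u : ℕ} (hu : 1 ≤ u) {ε : ℝ} (hε : 0 < ε) (c : ℂ) (hc : ‖c‖ = 1) :
    SmE k ε (fun T => (c * Qd (zr k 0) (α / Real.log T) T).re -
      (c * SpC (f1 (H k u) T) (α / Real.log T)).re) := by
  obtain ⟨C, T0, hC, hT0, h1⟩ := dy_close k hu hε
  refine ⟨C, max T0 (Real.exp (|α| + 1)), hC, le_max_of_le_left hT0, fun T hT => ?_⟩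
  have t1 : T0 ≤ T := (le_max_left _ _).trans hT
  have t2 : Real.exp (|α| + 1) ≤ T := (le_max_right _ _).trans hT
  have hT0' : 0 < T := (Real.exp_pos _).trans_le t2
  have hL : |α| + 1 ≤ Real.log T := by rwa [Real.le_log_iff_exp_le hT0']
  have hL0 : 0 < Real.log T := by have := abs_nonneg α; linarith
  have ha : |α / Real.log T| ≤ 1 := by
    rw [abs_div, abs_of_pos hL0, div_le_one hL0]; linarith
  have h2 := h1 T t1 _ ha
  have e : (c * Qd (zr k 0) (α / Real.log T) T).re - (c * SpC (f1 (H k u) T) (α / Real.log T)).re =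
      (c * (Qd (zr k 0) (α / Real.log T) T - SpC (f1 (H k u) T) (α / Real.log T))).re := by
    rw [mul_sub, Complex.sub_re]
  beta_reduce
  rw [e]
  refine (Complex.abs_re_le_norm _).trans ?_
  rw [norm_mul, hc, one_mul]
  have h3 := NN_pos (k ^ 2) (T := T) (by linarith)
  have h4 : 0 ≤ ε * NN (k ^ 2) T := by positivity
  linarith

/-- the comparison theorem at the shift `α` -/
theorem master_shift {k : ℕ} (hk : 2 ≤ k) (h : TS φ)
    (hφ : ∀ x ∈ Icc (1:ℝ) (k - 1), ‖φ x‖ ^ 2 + ‖φ (k - x)‖ ^ 2 = 1) (α : ℝ) {ε : ℝ} (hε : 0 < ε) :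
    SmE k ε (fun T => 2 * (ro k α * Ac φ k α T).re - (ro k α * Qd (zr k 0) (α / Real.log T) T).re -
      2 * Js φ k α * NN (k ^ 2) T) := by
  obtain ⟨b, hb0, hb⟩ := h.bdd
  have hgb : ∀ x, |g0 φ k x| ≤ 2 * b ^ 2 + 1 := by
    intro x
    unfold g0
    have h1 : ‖φ x‖ ^ 2 ≤ b ^ 2 := by gcongr; exact hb x
    have h2 : ‖φ (k - x)‖ ^ 2 ≤ b ^ 2 := by gcongr; exact hb _
    have h3 : 0 ≤ ‖φ x‖ ^ 2 := by positivity
    have h4 : 0 ≤ ‖φ (k - x)‖ ^ 2 := by positivity
    rw [abs_le]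
    constructor <;> nlinarith
  set c : ℝ → ℝ := fun x => Real.cos (α * (k - 2 * x)) with hc
  have hcc : Continuous c := by rw [hc]; fun_prop
  have hccd : ContDiff ℝ ∞ c :=
    Real.contDiff_cos.comp (contDiff_const.mul (contDiff_const.sub (contDiff_const.mul contDiff_id)))
  have hcs : ∀ x, c (k - x) = c x := by
    intro x
    simp only [hc]
    rw [show α * (k - 2 * (k - x)) = -(α * (k - 2 * x)) by ring, Real.cos_neg]
  have hc1 : ∀ x, |c x| ≤ 1 := fun x => Real.abs_cos_le_one _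
  set G : ℝ → ℝ := fun x => g0 φ k x * c x with hG
  have hGcd : ContDiff ℝ ∞ G := (g0_cd h k).mul hccd
  have hGb : ∀ x, |G x| ≤ 2 * b ^ 2 + 1 := by
    intro x
    simp only [hG]
    rw [abs_mul]
    calc |g0 φ k x| * |c x| ≤ (2 * b ^ 2 + 1) * 1 := mul_le_mul (hgb x) (hc1 x) (abs_nonneg _) (by positivity)
      _ = _ := mul_one _
  obtain ⟨u0, hu0⟩ := edge_sym hk (G := G) hGcd (fun x => by simp only [hG]; rw [g0_symm, hcs])
    (fun x hx => by
      simp only [hG]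
      unfold g0
      rw [hφ x hx]; ring) (b := 2 * b ^ 2 + 1) (by positivity) hGb (ε := ε / 3) (by positivity)
  set u : ℕ := max u0 1 with hud
  have hu : 1 ≤ u := le_max_right _ _
  have a1 := pol_close h k α hu (ε := ε / 3) (by positivity)
  have a2 := hu0 u (le_max_left _ _)
  have a3 := SmE_dy k α hu (ε := ε / 3) (by positivity) (ro k α) (ro_norm k α)
  have tot := (a1.add a2).add (a3.mul (-1))
  refine (tot.mono ?_).congr fun T hT => ?_
  · rw [abs_neg, abs_one]; linarith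
  · have hT1 : 1 ≤ T := by linarith
    have c1 : Continuous (fun x => ‖φ x‖ ^ 2) := (nsq_cd h.cd).continuous
    have l1 := Sf_add k hu hT1 (g1 := fun x => ‖φ x‖ ^ 2 * c x) (g2 := fun x => ‖φ (k - x)‖ ^ 2 * c x)
      (c1.mul hcc) ((c1.comp (by fun_prop)).mul hcc) (b1 := b ^ 2) (b2 := b ^ 2)
      (fun x => by
        rw [abs_mul, abs_of_nonneg (by positivity : 0 ≤ ‖φ x‖ ^ 2)]
        have : ‖φ x‖ ^ 2 ≤ b ^ 2 := by gcongr; exact hb x
        calc ‖φ x‖ ^ 2 * |c x| ≤ b ^ 2 * 1 := mul_le_mul this (hc1 x) (abs_nonneg _) (by positivity)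
          _ = _ := mul_one _)
      (fun x => by
        rw [abs_mul, abs_of_nonneg (by positivity : 0 ≤ ‖φ (k - x)‖ ^ 2)]
        have : ‖φ (k - x)‖ ^ 2 ≤ b ^ 2 := by gcongr; exact hb _
        calc ‖φ (k - x)‖ ^ 2 * |c x| ≤ b ^ 2 * 1 := mul_le_mul this (hc1 x) (abs_nonneg _) (by positivity)
          _ = _ := mul_one _)
    have l2 := Sf_add k hu hT1 (g1 := c) (g2 := G) hcc hGcd.continuous (b1 := 1) (b2 := 2 * b ^ 2 + 1) hc1 hGb
    have e1 : (fun x => ‖φ x‖ ^ 2 * c x + ‖φ (k - x)‖ ^ 2 * c x) = fun x => c x + G x := by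
      funext x
      simp only [hG]
      unfold g0
      ring
    have l3 := SpC_re k hu (T := T) (by linarith) α 0
    have e2 : (fun x : ℝ => Real.cos (α * (k - 2 * x) + 0)) = c := by funext x; rw [add_zero]
    rw [e2, add_zero] at l3
    rw [e1, l2] at l1
    have l1' : Sf k u T (fun x => ‖φ x‖ ^ 2 * Real.cos (α * (k - 2 * x))) +
        Sf k u T (fun x => ‖φ (k - x)‖ ^ 2 * Real.cos (α * (k - 2 * x))) = Sf k u T c + Sf k u T G := l1.symm
    have hro : ro k α = cexp (((k * α : ℝ) : ℂ) * I) := rfl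
    rw [l1', ← hro]
    rw [← hro] at l3
    rw [l3]
    unfold Js
    simp only [hG, hc]
    ring

/-- the rotated correlation over the window is nearly real -/
theorem im_small (k : ℕ) (α : ℝ) {ε : ℝ} (hε : 0 < ε) :
    SmE k ε (fun T => (ro k α * Qd (zr k 0) (α / Real.log T) T).im) := by
  have h1 := odd_small k α (u := 2) le_rfl (ε := ε / 2) (by positivity)
  set c : ℂ := cexp (((k * α + -(Real.pi / 2) : ℝ) : ℂ) * I) with hc
  have hcn : ‖c‖ = 1 := Complex.norm_exp_ofReal_mul_I _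
  have h2 := SmE_dy k α (u := 2) (by norm_num) (ε := ε / 2) (by positivity) c hcn
  refine ((h1.add h2).mono (by linarith)).congr fun T hT => ?_
  have l3 := SpC_re k (u := 2) (by norm_num) (T := T) (by linarith) α (-(Real.pi / 2))
  have e2 : (fun x : ℝ => Real.cos (α * (k - 2 * x) + -(Real.pi / 2))) = fun x => Real.sin (α * (k - 2 * x)) := by
    funext x; rw [← sub_eq_add_neg, Real.cos_sub_pi_div_two]
  rw [e2, ← hc] at l3
  rw [l3]
  have e3 : c = ro k α * (-I) := by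
    rw [hc]
    unfold ro
    rw [Complex.ofReal_add, add_mul, Complex.exp_add]
    congr 1
    have : ((-(Real.pi / 2) : ℝ) : ℂ) * I = -Real.pi / 2 * I := by push_cast; ring
    rw [this, Complex.exp_neg_pi_div_two_mul_I]
  have e4 : (c * Qd (zr k 0) (α / Real.log T) T).re = (ro k α * Qd (zr k 0) (α / Real.log T) T).im := by
    rw [e3, show ro k α * -I * Qd (zr k 0) (α / Real.log T) T =
      -(I * (ro k α * Qd (zr k 0) (α / Real.log T) T)) by ring, Complex.neg_re, Complex.I_mul_re, neg_neg]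
  rw [e4]
  ring

lemma exp_lip2 (a b : ℝ) : ‖cexp ((a : ℂ) * I) - cexp ((b : ℂ) * I)‖ ≤ 2 := by
  refine (norm_sub_le _ _).trans ?_
  rw [Complex.norm_exp_ofReal_mul_I, Complex.norm_exp_ofReal_mul_I]
  norm_num

/-- equicontinuity of the correlations -/
theorem cor_equi (k : ℕ) {ε R : ℝ} (hε : 0 < ε) (hR : 0 ≤ R) : ∃ δ C T0 : ℝ, 0 < δ ∧ 0 ≤ C ∧ 4 ≤ T0 ∧
    ∀ T : ℝ, T0 ≤ T → ∀ α β : ℝ, |α| ≤ R → |β| ≤ R → |α - β| ≤ δ →
      ‖Cor (zr k 0) (α / Real.log T) T - Cor (zr k 0) (β / Real.log T) T‖ ≤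
        ε * M (zr k 0) T + C * (1 + B (zr k 0) T) := by
  have hk0 : (0:ℝ) ≤ k := Nat.cast_nonneg k
  obtain ⟨C1, T1, hC1, hT1, h1⟩ := cor_close k (u := 1) le_rfl (b := 0) le_rfl (ε := ε / 4) (by positivity)
  obtain ⟨C2, T2, hC2, hT2, h2⟩ := sq_close k (u := 1) le_rfl (b := 0) le_rfl (ε := 1) one_pos
  obtain ⟨C3, hC3, h3⟩ := tails k (u := 1) le_rfl (δ := 1) one_pos le_rfl (by norm_num)
  set δ : ℝ := ε / (8 * (k + 1)) with hδ
  have hδ0 : 0 < δ := by positivity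
  have hδ1 : 2 * (k + 1) * δ = ε / 4 := by
    rw [hδ]
    have : (k:ℝ) + 1 ≠ 0 := by positivity
    field_simp
    norm_num
  refine ⟨δ, 2 * C1 + ε / 4 * C2 + 4 * C3, max (max T1 T2) (max 4 (Real.exp (R + 1))), hδ0, by positivity,
    (le_max_left _ _).trans (le_max_right _ _), fun T hT α β hα hβ hαβ => ?_⟩
  have t1 : T1 ≤ T := ((le_max_left _ _).trans (le_max_left _ _)).trans hT
  have t2 : T2 ≤ T := ((le_max_right _ _).trans (le_max_left _ _)).trans hT
  have t3 : 4 ≤ T := ((le_max_left _ _).trans (le_max_right _ _)).trans hT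
  have t4 : Real.exp (R + 1) ≤ T := ((le_max_right _ _).trans (le_max_right _ _)).trans hT
  have hT0 : 0 < T := by linarith
  have hTone : 1 ≤ T := by linarith
  have hL : R + 1 ≤ Real.log T := by rwa [Real.le_log_iff_exp_le hT0]
  have hL0 : 0 < Real.log T := by linarith
  have hp := Real.pi_pos
  have ha : ∀ x : ℝ, |x| ≤ R → |x / Real.log T| ≤ 1 := by
    intro x hx
    rw [abs_div, abs_of_pos hL0, div_le_one hL0]; linarith
  have c1 := h1 T t1 0 (by simp) (by norm_num) _ (ha α hα)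
  have c2 := h1 T t1 0 (by simp) (by norm_num) _ (ha β hβ)
  have c3 := h2 T t2 0 (by simp) (by norm_num)
  obtain ⟨c4, c5⟩ := h3 T hTone 0 (by simp)
  set F := Fn (H k 1) T 0 with hF
  have hd : Dec F := Fn_decr k le_rfl hTone (by simp)
  have hpl := planch hd
  set A1 : Set ℝ := Ici (1 * Real.log T / (2 * Real.pi)) with hA1
  set A2 : Set ℝ := Iic (-((k + 1) * Real.log T / (2 * Real.pi))) with hA2
  have i1 := SpC_int hd (α / Real.log T)
  have i2 := SpC_int hd (β / Real.log T)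
  have hpt : ∀ w : ℝ, ‖cexp ((4 * Real.pi * (α / Real.log T) * w : ℝ) * I) * ((‖𝓕 F w‖ ^ 2 : ℝ) : ℂ) -
      cexp ((4 * Real.pi * (β / Real.log T) * w : ℝ) * I) * ((‖𝓕 F w‖ ^ 2 : ℝ) : ℂ)‖ ≤
      ε / 4 * ‖𝓕 F w‖ ^ 2 + (A1.indicator (fun w => 2 * ‖𝓕 F w‖ ^ 2) w + A2.indicator (fun w => 2 * ‖𝓕 F w‖ ^ 2) w) := by
    intro w
    rw [← sub_mul, norm_mul, Complex.norm_real, Real.norm_of_nonneg (sq_nonneg ‖𝓕 F w‖)]
    have j1 : 0 ≤ A1.indicator (fun w => 2 * ‖𝓕 F w‖ ^ 2) w := indicator_nonneg (fun _ _ => by positivity) w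
    have j2 : 0 ≤ A2.indicator (fun w => 2 * ‖𝓕 F w‖ ^ 2) w := indicator_nonneg (fun _ _ => by positivity) w
    have j3 : 0 ≤ ε / 4 * ‖𝓕 F w‖ ^ 2 := by positivity
    by_cases hw1 : w ∈ A1
    · have e1 : A1.indicator (fun w => 2 * ‖𝓕 F w‖ ^ 2) w = 2 * ‖𝓕 F w‖ ^ 2 := indicator_of_mem hw1 _
      have := mul_le_mul_of_nonneg_right (exp_lip2 (4 * Real.pi * (α / Real.log T) * w)
        (4 * Real.pi * (β / Real.log T) * w)) (sq_nonneg ‖𝓕 F w‖)
      linarith
    by_cases hw2 : w ∈ A2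
    · have e1 : A2.indicator (fun w => 2 * ‖𝓕 F w‖ ^ 2) w = 2 * ‖𝓕 F w‖ ^ 2 := indicator_of_mem hw2 _
      have := mul_le_mul_of_nonneg_right (exp_lip2 (4 * Real.pi * (α / Real.log T) * w)
        (4 * Real.pi * (β / Real.log T) * w)) (sq_nonneg ‖𝓕 F w‖)
      linarith
    have hw : |w| ≤ (k + 1) * Real.log T / (2 * Real.pi) := by
      rw [hA1, mem_Ici, not_le] at hw1
      rw [hA2, mem_Iic, not_le] at hw2
      rw [abs_le]
      refine ⟨hw2.le, hw1.le.trans ?_⟩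
      gcongr
      linarith
    have h5 : ‖cexp ((4 * Real.pi * (α / Real.log T) * w : ℝ) * I) -
        cexp ((4 * Real.pi * (β / Real.log T) * w : ℝ) * I)‖ ≤ ε / 4 := by
      refine (exp_lip _ _).trans ?_
      have e : 4 * Real.pi * (α / Real.log T) * w - 4 * Real.pi * (β / Real.log T) * w =
          4 * Real.pi / Real.log T * ((α - β) * w) := by ring
      rw [e, abs_mul, abs_mul, abs_of_pos (by positivity : 0 < 4 * Real.pi / Real.log T)]
      calc 4 * Real.pi / Real.log T * (|α - β| * |w|) ≤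
            4 * Real.pi / Real.log T * (δ * ((k + 1) * Real.log T / (2 * Real.pi))) := by gcongr
        _ = 2 * (k + 1) * δ := by field_simp; norm_num
        _ = ε / 4 := hδ1
    have := mul_le_mul_of_nonneg_right h5 (sq_nonneg ‖𝓕 F w‖)
    linarith
  have k1 : Integrable (A1.indicator (fun w => 2 * ‖𝓕 F w‖ ^ 2)) := (hpl.1.const_mul 2).indicator measurableSet_Ici
  have k2 : Integrable (A2.indicator (fun w => 2 * ‖𝓕 F w‖ ^ 2)) := (hpl.1.const_mul 2).indicator measurableSet_Iic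
  have hS : ‖SpC F (α / Real.log T) - SpC F (β / Real.log T)‖ ≤ ε / 4 * (∫ t, ‖F t‖ ^ 2) + 4 * C3 := by
    unfold SpC
    rw [← integral_sub i1 i2]
    refine (norm_integral_le_of_norm_le (iadd (hpl.1.const_mul _) (iadd k1 k2)) (Eventually.of_forall hpt)).trans ?_
    rw [integral_add (hpl.1.const_mul _) (iadd k1 k2), integral_const_mul, integral_add k1 k2,
      integral_indicator measurableSet_Ici, integral_indicator measurableSet_Iic, integral_const_mul,
      integral_const_mul, hpl.2]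
    have e1 : ∫ w in A1, ‖𝓕 F w‖ ^ 2 = ms F A1 := rfl
    have e2 : ∫ w in A2, ‖𝓕 F w‖ ^ 2 = ms F A2 := rfl
    rw [e1, e2]
    linarith
  have hB := B_nonneg (zr k 0) T
  have hM := M_nonneg (zr k 0) (T := T) (by linarith)
  have c6 := (abs_le.1 c3).1
  have c7 : ε / 4 * (∫ t, ‖F t‖ ^ 2) ≤ ε / 4 * (2 * M (zr k 0) T + C2 * (1 + B (zr k 0) T)) :=
    mul_le_mul_of_nonneg_left (by linarith) (by positivity)
  have c8 : C3 ≤ C3 * (1 + B (zr k 0) T) := by nlinarith
  have tri : ‖Cor (zr k 0) (α / Real.log T) T - Cor (zr k 0) (β / Real.log T) T‖ ≤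
      ‖Cor (zr k 0) (α / Real.log T) T - SpC F (α / Real.log T)‖ +
      ‖SpC F (α / Real.log T) - SpC F (β / Real.log T)‖ +
      ‖Cor (zr k 0) (β / Real.log T) T - SpC F (β / Real.log T)‖ := by
    have e : Cor (zr k 0) (α / Real.log T) T - Cor (zr k 0) (β / Real.log T) T =
        (Cor (zr k 0) (α / Real.log T) T - SpC F (α / Real.log T)) +
        (SpC F (α / Real.log T) - SpC F (β / Real.log T)) -
        (Cor (zr k 0) (β / Real.log T) T - SpC F (β / Real.log T)) := by ring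
    rw [e]
    exact (norm_sub_le _ _).trans (add_le_add (norm_add_le _ _) le_rfl)
  linarith

end

end Pool.Agent.K4H66.HL
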