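import Pool.Agent.K4H66.HL.S

set_option autoImplicit false

/-! From windows to the full moment, at all shifts. -/

namespace Pool.Agent.K4H66.HL

open Complex MeasureTheory Filter Topology Set Pool.Agent.TH535.SM Pool.Agent.K4H66.OL Pool.Agent.R446.KR
open scoped ComplexConjugate FourierTransform ContDiff ENNReal Convolution

noncomputable section

variable {φ : ℝ → ℂ} {k : ℕ} {c : ℝ}

/-- small quantities are negligible if the moment is asymptotic -/
lemma SmE_lim (hm : Tendsto (fun T => M (zr k 0) T / NN (k ^ 2) T) atTop (𝓝 c)) {F : ℝ → ℝ}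
    (h : ∀ ε : ℝ, 0 < ε → SmE k ε F) : Tendsto (fun T => F T / NN (k ^ 2) T) atTop (𝓝 0) := by
  have h2 := mratio (k ^ 2) hm two_pos (two_ratio 2)
  have hR := Rr_small hm
  rw [Metric.tendsto_nhds]
  intro ε hε
  obtain ⟨C, T0, hC, hT0, h1⟩ := h (ε / (4 * (|c * 2| + 2))) (by positivity)
  have ev2 := (Metric.tendsto_nhds.1 hR) (ε / (4 * (C + 1))) (by positivity)
  have ev3 := (Metric.tendsto_nhds.1 h2) 1 one_pos
  filter_upwards [ev2, ev3, eventually_ge_atTop T0] with T a2 a3 a4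
  have hN := NN_pos (k ^ 2) (show 1 < T by linarith)
  have b1 := h1 T a4
  rw [← Rr_eq] at b1
  rw [Real.dist_eq] at a2 a3 ⊢
  have b2 : M (zr k 0) (2 * T) / NN (k ^ 2) T ≤ |c * 2| + 1 := by
    have := (abs_lt.1 a3).2
    have := le_abs_self (c * 2)
    linarith
  have b3 : Rr (M (zr k 0)) T / NN (k ^ 2) T ≤ ε / (4 * (C + 1)) := by
    have := (abs_lt.1 a2).2
    linarith
  have b4 : |F T / NN (k ^ 2) T| ≤
      ε / (4 * (|c * 2| + 2)) * (M (zr k 0) (2 * T) / NN (k ^ 2) T + 1) + C * (Rr (M (zr k 0)) T / NN (k ^ 2) T) := by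
    rw [abs_div, abs_of_pos hN, div_le_iff₀ hN]
    refine b1.trans (le_of_eq ?_)
    field_simp
  have b5 : ε / (4 * (|c * 2| + 2)) * (M (zr k 0) (2 * T) / NN (k ^ 2) T + 1) ≤ ε / 4 := by
    have : ε / (4 * (|c * 2| + 2)) * (M (zr k 0) (2 * T) / NN (k ^ 2) T + 1) ≤ ε / (4 * (|c * 2| + 2)) * (|c * 2| + 2) :=
      mul_le_mul_of_nonneg_left (by linarith) (by positivity)
    refine this.trans (le_of_eq ?_)
    field_simp
  have b6 : C * (Rr (M (zr k 0)) T / NN (k ^ 2) T) ≤ ε / 4 := by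
    calc C * (Rr (M (zr k 0)) T / NN (k ^ 2) T) ≤ C * (ε / (4 * (C + 1))) := by gcongr
      _ ≤ (C + 1) * (ε / (4 * (C + 1))) := by gcongr; linarith
      _ = ε / 4 := by field_simp
  rw [sub_zero]
  linarith

/-- the normalised shifted moment -/
def Xs (k : ℕ) (α T : ℝ) : ℂ := Cor (zr k 0) (α / Real.log T) T / ((NN (k ^ 2) T : ℝ) : ℂ)

lemma ratio_small {G : ℝ → ℂ}
    (hG : ∀ ε : ℝ, 0 < ε → ∃ C T0 : ℝ, 0 ≤ C ∧ ∀ T : ℝ, T0 ≤ T → ‖G T‖ ≤ ε * M (zr k 0) T + C * (1 + B (zr k 0) T))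
    (hm : Tendsto (fun T => M (zr k 0) T / NN (k ^ 2) T) atTop (𝓝 c)) :
    Tendsto (fun T => G T / ((NN (k ^ 2) T : ℝ) : ℂ)) atTop (𝓝 0) := by
  have D := zdat k (u := 1) le_rfl
  rw [Metric.tendsto_nhds]
  intro ε hε
  obtain ⟨C, T0, hC, h1⟩ := hG (ε / (4 * (|c| + 1))) (by positivity)
  have hB := bsmall D hm (ε := ε / (8 * (C + 1))) (by positivity)
  have h0 : Tendsto (fun T => 1 / NN (k ^ 2) T) atTop (𝓝 0) := (NN_inf (k ^ 2)).const_div_atTop 1
  have ev1 := (Metric.tendsto_nhds.1 h0) (ε / (8 * (C + 1))) (by positivity)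
  have ev2 := (Metric.tendsto_nhds.1 hm) 1 one_pos
  filter_upwards [hB, ev1, ev2, eventually_ge_atTop T0, eventually_gt_atTop 1] with T a1 a2 a3 a4 a5
  have hN := NN_pos (k ^ 2) a5
  have b1 := h1 T a4
  rw [Real.dist_eq] at a2 a3
  rw [dist_zero_right, norm_div, Complex.norm_real, Real.norm_of_nonneg hN.le, div_lt_iff₀ hN]
  have b2 : M (zr k 0) T ≤ (|c| + 1) * NN (k ^ 2) T := by
    rw [← div_le_iff₀ hN]
    have := (abs_lt.1 a3).2
    have := le_abs_self c
    linarith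
  have b3 : 1 ≤ ε / (8 * (C + 1)) * NN (k ^ 2) T := by
    rw [← div_le_iff₀ hN]
    have := (abs_lt.1 a2).2
    linarith
  have b4 : ε / (4 * (|c| + 1)) * M (zr k 0) T ≤ ε / 4 * NN (k ^ 2) T := by
    calc ε / (4 * (|c| + 1)) * M (zr k 0) T ≤ ε / (4 * (|c| + 1)) * ((|c| + 1) * NN (k ^ 2) T) := by gcongr
      _ = ε / 4 * NN (k ^ 2) T := by field_simp
  have b5 : C * (1 + B (zr k 0) T) ≤ ε / 4 * NN (k ^ 2) T := by
    calc C * (1 + B (zr k 0) T) ≤ (C + 1) * (ε / (8 * (C + 1)) * NN (k ^ 2) T + ε / (8 * (C + 1)) * NN (k ^ 2) T) := by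
          have hB0 := B_nonneg (zr k 0) T
          gcongr
          linarith
      _ = ε / 4 * NN (k ^ 2) T := by field_simp; ring
  have b6 : 0 < ε * NN (k ^ 2) T := by positivity
  linarith

/-- moving the shift -/
lemma move {α β : ℝ → ℝ} {R : ℝ} (hR : 0 ≤ R) (hα : ∀ᶠ T in atTop, |α T| ≤ R) (hβ : ∀ᶠ T in atTop, |β T| ≤ R)
    (hd : Tendsto (fun T => α T - β T) atTop (𝓝 0))
    (hm : Tendsto (fun T => M (zr k 0) T / NN (k ^ 2) T) atTop (𝓝 c)) :
    Tendsto (fun T => (Cor (zr k 0) (α T / Real.log T) T - Cor (zr k 0) (β T / Real.log T) T) /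
      ((NN (k ^ 2) T : ℝ) : ℂ)) atTop (𝓝 0) := by
  refine ratio_small ?_ hm
  intro ε hε
  obtain ⟨δ, C, T0, hδ, hC, hT0, h1⟩ := cor_equi k hε hR
  have ev := (Metric.tendsto_nhds.1 hd) δ hδ
  obtain ⟨T1, hT1⟩ := eventually_atTop.1 (hα.and (hβ.and ev))
  refine ⟨C, max T0 T1, hC, fun T hT => ?_⟩
  obtain ⟨a1, a2, a3⟩ := hT1 T ((le_max_right _ _).trans hT)
  rw [Real.dist_eq, sub_zero] at a3
  exact h1 T ((le_max_left _ _).trans hT) _ _ a1 a2 a3.le

lemma log_ratio2 : Tendsto (fun T : ℝ => Real.log (2 * T) / Real.log T) atTop (𝓝 1) := by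
  have h2 : Tendsto (fun T : ℝ => Real.log 2 / Real.log T) atTop (𝓝 0) :=
    tendsto_const_nhds.div_atTop Real.tendsto_log_atTop
  have h3 := h2.const_add 1
  rw [add_zero] at h3
  refine h3.congr' ?_
  filter_upwards [eventually_gt_atTop 1] with T hT
  have hl : 0 < Real.log T := Real.log_pos hT
  rw [Real.log_mul (by norm_num) (by linarith)]
  field_simp
  ring

/-- the change of the scale of the shift over `[0, 2T]` -/
lemma move2 (α : ℝ) (hm : Tendsto (fun T => M (zr k 0) T / NN (k ^ 2) T) atTop (𝓝 c)) :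
    Tendsto (fun T => (Cor (zr k 0) (α / Real.log T) (2 * T) - Cor (zr k 0) (α / Real.log (2 * T)) (2 * T)) /
      ((NN (k ^ 2) (2 * T) : ℝ) : ℂ)) atTop (𝓝 0) := by
  have hlr : Tendsto (fun S : ℝ => Real.log S / Real.log (S / 2)) atTop (𝓝 1) := by
    have h1 : Tendsto (fun S : ℝ => S / 2) atTop atTop := tendsto_id.atTop_div_const two_pos
    have h2 := log_ratio2.comp h1
    refine h2.congr fun S => ?_
    simp only [Function.comp]
    congr 2
    ring
  have h1 := hlr.const_mul α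
  rw [mul_one] at h1
  have h := move (k := k) (α := fun S => α * (Real.log S / Real.log (S / 2))) (β := fun _ => α) (R := |α| + 1)
    (by positivity) ?_ (Eventually.of_forall fun _ => by linarith) ?_ hm
  · have h2 : Tendsto (fun T : ℝ => 2 * T) atTop atTop := tendsto_id.const_mul_atTop two_pos
    refine (h.comp h2).congr' ?_
    filter_upwards [eventually_gt_atTop 1] with T hT
    simp only [Function.comp]
    have e1 : 2 * T / 2 = T := by ring
    have hl : 0 < Real.log T := Real.log_pos hT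
    have hl2 : 0 < Real.log (2 * T) := Real.log_pos (by linarith)
    rw [e1]
    congr 3
    field_simp
  · have := (h1.abs).eventually_lt_const (show |α| < |α| + 1 by linarith)
    exact this.mono fun T hT => hT.le
  · have := h1.sub_const α
    rwa [sub_self] at this

/-- halving lemma -/
lemma halving {Y : ℝ → ℝ} (hY : ∀ T, 0 ≤ Y T) {Bd : ℝ} (hB : ∀ᶠ T in atTop, Y T ≤ Bd)
    (h : ∀ ε : ℝ, 0 < ε → ∀ᶠ T in atTop, Y (2 * T) ≤ Y T / 2 + ε) : Tendsto Y atTop (𝓝 0) := by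
  rw [Metric.tendsto_nhds]
  intro ε hε
  have hind : ∀ n : ℕ, ∀ᶠ T in atTop, Y T ≤ |Bd| / 2 ^ n + 2 * (ε / 4) := by
    intro n
    induction n with
    | zero =>
      filter_upwards [hB] with T hT
      rw [pow_zero, div_one]
      have := le_abs_self Bd
      linarith
    | succ n ih =>
      have hT2 : Tendsto (fun T : ℝ => T / 2) atTop atTop := tendsto_id.atTop_div_const two_pos
      filter_upwards [hT2.eventually ih, hT2.eventually (h (ε / 4) (by positivity))] with T a1 a2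
      have e : 2 * (T / 2) = T := by ring
      rw [e] at a2
      have e3 : |Bd| / 2 ^ (n + 1) = |Bd| / 2 ^ n / 2 := by rw [pow_succ]; field_simp
      rw [e3]
      linarith
  obtain ⟨n, hn⟩ := pow_unbounded_of_one_lt (4 * |Bd| / ε) (show (1:ℝ) < 2 by norm_num)
  filter_upwards [hind n] with T hT
  rw [Real.dist_eq, sub_zero, abs_of_nonneg (hY T)]
  have h3 : |Bd| / 2 ^ n < ε / 4 := by
    rw [div_lt_iff₀ hε] at hn
    rw [div_lt_iff₀ (by positivity)]
    linarith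
  linarith

/-- the shifted moments are bounded -/
lemma Xs_bdd (α : ℝ) (hm : Tendsto (fun T => M (zr k 0) T / NN (k ^ 2) T) atTop (𝓝 c)) :
    ∃ Bd : ℝ, ∀ᶠ T in atTop, ‖Xs k α T‖ ≤ Bd := by
  have D := zdat k (u := 1) le_rfl
  obtain ⟨C1, T1, hC1, hT1, h1⟩ := cor_close k (u := 1) le_rfl (b := 0) le_rfl (ε := 1) one_pos
  obtain ⟨C2, T2, hC2, hT2, h2⟩ := sq_close k (u := 1) le_rfl (b := 0) le_rfl (ε := 1) one_pos
  have hB := bsmall D hm (ε := 1) one_pos
  have ev2 := (Metric.tendsto_nhds.1 hm) 1 one_pos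
  refine ⟨3 * (|c| + 1) + (C1 + C2) * 2, ?_⟩
  filter_upwards [hB, ev2, eventually_ge_atTop T1, eventually_ge_atTop T2,
    eventually_ge_atTop (Real.exp (|α| + 1)), (NN_inf (k ^ 2)).eventually_ge_atTop 1] with T a1 a2 a3 a4 a5 a6
  have hT0 : 0 < T := (Real.exp_pos _).trans_le a5
  have hL : |α| + 1 ≤ Real.log T := by rwa [Real.le_log_iff_exp_le hT0]
  have hL0 : 0 < Real.log T := by have := abs_nonneg α; linarith
  have ha : |α / Real.log T| ≤ 1 := by
    rw [abs_div, abs_of_pos hL0, div_le_one hL0]; linarith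
  have hT1' : 1 ≤ T := by linarith
  have hN : 0 < NN (k ^ 2) T := by linarith
  have b1 := h1 T a3 0 (by simp) (by norm_num) _ ha
  have b2 := h2 T a4 0 (by simp) (by norm_num)
  set F := Fn (H k 1) T 0 with hF
  have hd : Dec F := Fn_decr k le_rfl hT1' (by simp)
  have hpl := planch hd
  have b3 : ‖SpC F (α / Real.log T)‖ ≤ ∫ t, ‖F t‖ ^ 2 := by
    unfold SpC
    refine (norm_integral_le_of_norm_le hpl.1 (Eventually.of_forall fun w => ?_)).trans (le_of_eq hpl.2)
    rw [norm_mul, Complex.norm_exp_ofReal_mul_I, one_mul, Complex.norm_real, Real.norm_of_nonneg (by positivity)]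
  have b4 := (abs_le.1 b2).1
  have b5 : ‖Cor (zr k 0) (α / Real.log T) T‖ ≤ ‖Cor (zr k 0) (α / Real.log T) T - SpC F (α / Real.log T)‖ +
      ‖SpC F (α / Real.log T)‖ := by
    have := norm_add_le (Cor (zr k 0) (α / Real.log T) T - SpC F (α / Real.log T)) (SpC F (α / Real.log T))
    rwa [sub_add_cancel] at this
  rw [Real.dist_eq] at a2
  have b6 : M (zr k 0) T ≤ (|c| + 1) * NN (k ^ 2) T := by
    rw [← div_le_iff₀ hN]
    have := (abs_lt.1 a2).2
    have := le_abs_self c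
    linarith
  unfold Xs
  rw [norm_div, Complex.norm_real, Real.norm_of_nonneg hN.le, div_le_iff₀ hN]
  have b7 : (C1 + C2) * (1 + B (zr k 0) T) ≤ (C1 + C2) * (2 * NN (k ^ 2) T) := by
    gcongr
    linarith
  nlinarith

lemma NN_two (k : ℕ) : Tendsto (fun T : ℝ => NN (k ^ 2) (2 * T) / NN (k ^ 2) T) atTop (𝓝 2) :=
  (NN_ratio (k ^ 2) (s := fun T => 2 * T) (a := 2) two_pos (two_ratio 2)).1

lemma Qd_of_Xs (α : ℝ) (hm : Tendsto (fun T => M (zr k 0) T / NN (k ^ 2) T) atTop (𝓝 c)) {x : ℂ}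
    (hX : Tendsto (Xs k α) atTop (𝓝 x)) :
    Tendsto (fun T => Qd (zr k 0) (α / Real.log T) T / ((NN (k ^ 2) T : ℝ) : ℂ)) atTop (𝓝 x) := by
  have h1 := move2 (k := k) α hm
  have h2 : Tendsto (fun T : ℝ => ((NN (k ^ 2) (2 * T) / NN (k ^ 2) T : ℝ) : ℂ)) atTop (𝓝 ((2:ℝ):ℂ)) :=
    (Complex.continuous_ofReal.tendsto 2).comp (NN_two k)
  have h3 : Tendsto (fun T : ℝ => 2 * T) atTop atTop := tendsto_id.const_mul_atTop two_pos
  have h4 := (((h1.mul h2).add ((hX.comp h3).mul h2))).sub hX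
  have e : (0:ℂ) * ((2:ℝ):ℂ) + x * ((2:ℝ):ℂ) - x = x := by push_cast; ring
  rw [e] at h4
  refine h4.congr' ?_
  filter_upwards [eventually_gt_atTop 1] with T hT
  have hN : ((NN (k ^ 2) T : ℝ) : ℂ) ≠ 0 := by exact_mod_cast (NN_pos (k ^ 2) hT).ne'
  have hN2 : ((NN (k ^ 2) (2 * T) : ℝ) : ℂ) ≠ 0 := by
    exact_mod_cast (NN_pos (k ^ 2) (show 1 < 2 * T by linarith)).ne'
  simp only [Function.comp]
  unfold Xs Qd
  push_cast
  field_simp
  ring

lemma Xs_of_Qd (α : ℝ) (hm : Tendsto (fun T => M (zr k 0) T / NN (k ^ 2) T) atTop (𝓝 c)) {x : ℂ}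
    (hQ : Tendsto (fun T => Qd (zr k 0) (α / Real.log T) T / ((NN (k ^ 2) T : ℝ) : ℂ)) atTop (𝓝 x)) :
    Tendsto (Xs k α) atTop (𝓝 x) := by
  obtain ⟨Bd, hBd⟩ := Xs_bdd (k := k) α hm
  have h1 := move2 (k := k) α hm
  have hr : Tendsto (fun T : ℝ => NN (k ^ 2) T / NN (k ^ 2) (2 * T)) atTop (𝓝 (1 / 2)) := by
    have h := (NN_two k).inv₀ two_ne_zero
    rw [one_div]
    exact h.congr fun T => inv_div _ _
  have hrc : Tendsto (fun T : ℝ => ((NN (k ^ 2) T / NN (k ^ 2) (2 * T) : ℝ) : ℂ)) atTop (𝓝 ((1 / 2 : ℝ) : ℂ)) :=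
    (Complex.continuous_ofReal.tendsto _).comp hr
  have hb : Tendsto (fun T : ℝ => ((NN (k ^ 2) T / NN (k ^ 2) (2 * T) - 1 / 2 : ℝ) : ℂ) * Xs k α T) atTop (𝓝 0) := by
    have h2 : Tendsto (fun T : ℝ => |NN (k ^ 2) T / NN (k ^ 2) (2 * T) - 1 / 2| * Bd) atTop (𝓝 0) := by
      have h3 := (hr.sub_const (1 / 2)).abs.mul_const Bd
      simpa using h3
    refine squeeze_zero_norm' ?_ h2
    filter_upwards [hBd] with T hT
    rw [norm_mul, Complex.norm_real, Real.norm_eq_abs]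
    gcongr
  have hE : Tendsto (fun T : ℝ => Xs k α (2 * T) - (Xs k α T + x) / 2) atTop (𝓝 0) := by
    have h4 := ((hrc.mul hQ).sub h1).add hb
    have h5 := h4.sub_const (x / 2)
    have e : ((1 / 2 : ℝ) : ℂ) * x - 0 + 0 - x / 2 = 0 := by push_cast; ring
    rw [e] at h5
    refine h5.congr' ?_
    filter_upwards [eventually_gt_atTop 1] with T hT
    have hN : ((NN (k ^ 2) T : ℝ) : ℂ) ≠ 0 := by exact_mod_cast (NN_pos (k ^ 2) hT).ne'
    have hN2 : ((NN (k ^ 2) (2 * T) : ℝ) : ℂ) ≠ 0 := by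
      exact_mod_cast (NN_pos (k ^ 2) (show 1 < 2 * T by linarith)).ne'
    unfold Xs Qd
    push_cast
    field_simp
    ring
  have hY : Tendsto (fun T => ‖Xs k α T - x‖) atTop (𝓝 0) := by
    refine halving (fun T => norm_nonneg _) (Bd := Bd + ‖x‖) ?_ ?_
    · filter_upwards [hBd] with T hT
      exact (norm_sub_le _ _).trans (by linarith)
    · intro ε hε
      filter_upwards [(Metric.tendsto_nhds.1 hE) ε hε] with T hT
      rw [dist_zero_right] at hT
      have e : Xs k α (2 * T) - x = (Xs k α T - x) / 2 + (Xs k α (2 * T) - (Xs k α T + x) / 2) := by ring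
      rw [e]
      refine (norm_add_le _ _).trans ?_
      rw [norm_div, Complex.norm_ofNat]
      linarith
  exact tendsto_iff_norm_sub_tendsto_zero.2 hY

lemma ro_zero (k : ℕ) : ro k 0 = 1 := by unfold ro; simp

lemma Xs_zero (k : ℕ) (T : ℝ) : Xs k 0 T = ((M (zr k 0) T / NN (k ^ 2) T : ℝ) : ℂ) := by
  unfold Xs
  rw [zero_div, Cor_zero']
  push_cast
  rfl

lemma Ac_zero (φ : ℝ → ℂ) (k : ℕ) (T : ℝ) : Ac φ k 0 T = ((mD φ k T : ℝ) : ℂ) := by
  unfold Ac mD
  rw [← intervalIntegral.integral_ofReal]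
  refine intervalIntegral.integral_congr fun t _ => ?_
  simp only [zero_div, add_zero, sub_zero]
  rw [Complex.mul_conj, Complex.normSq_eq_norm_sq]

lemma Js_zero (φ : ℝ → ℂ) (k : ℕ) : Js φ k 0 = Jc φ k := by
  unfold Js Jc
  simp

/-- **The equivalence at all shifts.** -/
theorem shift_iff (hk : 2 ≤ k) (h : TS φ)
    (hφ : ∀ x ∈ Icc (1:ℝ) (k - 1), ‖φ x‖ ^ 2 + ‖φ (k - x)‖ ^ 2 = 1) {A : Set ℝ} (h0 : (0:ℝ) ∈ A) (q : ℝ → ℝ) :
    (∀ α ∈ A, Tendsto (fun T => ro k α * Xs k α T) atTop (𝓝 (q α : ℂ))) ↔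
    (∀ α ∈ A, Tendsto (fun T => (ro k α * Ac φ k α T).re / NN (k ^ 2) T) atTop (𝓝 (q α / 2 + Js φ k α))) := by
  have hne : ∀ α, ro k α ≠ 0 := fun α => Complex.exp_ne_zero _
  constructor
  · intro hX
    have hm : Tendsto (fun T => M (zr k 0) T / NN (k ^ 2) T) atTop (𝓝 (q 0)) := by
      have h1 := (Complex.continuous_re.tendsto _).comp (hX 0 h0)
      refine h1.congr fun T => ?_
      simp only [Function.comp]
      rw [ro_zero, one_mul, Xs_zero, Complex.ofReal_re]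
    intro α hα
    have h1 : Tendsto (Xs k α) atTop (𝓝 ((ro k α)⁻¹ * (q α : ℂ))) := by
      refine ((hX α hα).const_mul (ro k α)⁻¹).congr fun T => ?_
      rw [← mul_assoc, inv_mul_cancel₀ (hne α), one_mul]
    have h2 := (Qd_of_Xs α hm h1).const_mul (ro k α)
    rw [← mul_assoc, mul_inv_cancel₀ (hne α), one_mul] at h2
    have h3 := (Complex.continuous_re.tendsto _).comp h2
    have h4 := SmE_lim hm (fun ε hε => master_shift hk h hφ α hε)
    have h5 := ((h4.add h3).add_const (2 * Js φ k α)).div_const 2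
    have e : (0 + (q α : ℂ).re + 2 * Js φ k α) / 2 = q α / 2 + Js φ k α := by
      rw [Complex.ofReal_re]; ring
    rw [e] at h5
    refine h5.congr' ?_
    filter_upwards [eventually_gt_atTop 1] with T hT
    have hN := NN_pos (k ^ 2) hT
    simp only [Function.comp]
    have e2 : (ro k α * (Qd (zr k 0) (α / Real.log T) T / ((NN (k ^ 2) T : ℝ) : ℂ))).re =
        (ro k α * Qd (zr k 0) (α / Real.log T) T).re / NN (k ^ 2) T := by
      rw [← mul_div_assoc, Complex.div_ofReal_re]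
    rw [e2]
    field_simp
    ring
  · intro hA
    have hm : Tendsto (fun T => M (zr k 0) T / NN (k ^ 2) T) atTop (𝓝 (q 0)) := by
      refine (half_iff hk h hφ (q 0)).2 ?_
      have h1 := hA 0 h0
      rw [Js_zero] at h1
      refine h1.congr fun T => ?_
      rw [ro_zero, one_mul, Ac_zero, Complex.ofReal_re]
    intro α hα
    have h4 := SmE_lim hm (fun ε hε => master_shift hk h hφ α hε)
    have h5 := SmE_lim hm (fun ε hε => im_small k α hε)
    have h6 := (((hA α hα).const_mul 2).sub h4).sub_const (2 * Js φ k α)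
    have e : 2 * (q α / 2 + Js φ k α) - 0 - 2 * Js φ k α = q α := by ring
    rw [e] at h6
    have h7 : Tendsto (fun T => ro k α * (Qd (zr k 0) (α / Real.log T) T / ((NN (k ^ 2) T : ℝ) : ℂ))) atTop
        (𝓝 (q α : ℂ)) := by
      have h8 : Tendsto (fun T => (((ro k α * Qd (zr k 0) (α / Real.log T) T).re / NN (k ^ 2) T : ℝ) : ℂ) +
          (((ro k α * Qd (zr k 0) (α / Real.log T) T).im / NN (k ^ 2) T : ℝ) : ℂ) * I) atTop
          (𝓝 ((q α : ℂ) + ((0:ℝ) : ℂ) * I)) := by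
        refine Tendsto.add ?_ (Tendsto.mul_const _ ?_)
        · refine (Complex.continuous_ofReal.tendsto _).comp (h6.congr' ?_)
          filter_upwards [eventually_gt_atTop 1] with T hT
          have hN := NN_pos (k ^ 2) hT
          field_simp
          ring
        · exact (Complex.continuous_ofReal.tendsto _).comp h5
      rw [ofReal_zero, zero_mul, add_zero] at h8
      refine h8.congr fun T => ?_
      rw [← mul_div_assoc]
      apply Complex.ext
      · simp [Complex.div_ofReal_re]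
      · simp [Complex.div_ofReal_im]
    have h9 : Tendsto (fun T => Qd (zr k 0) (α / Real.log T) T / ((NN (k ^ 2) T : ℝ) : ℂ)) atTop
        (𝓝 ((ro k α)⁻¹ * (q α : ℂ))) := by
      refine (h7.const_mul (ro k α)⁻¹).congr fun T => ?_
      rw [← mul_assoc, inv_mul_cancel₀ (hne α), one_mul]
    have h10 := (Xs_of_Qd α hm h9).const_mul (ro k α)
    rw [← mul_assoc, mul_inv_cancel₀ (hne α), one_mul] at h10
    exact h10

end

end Pool.Agent.K4H66.HL
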