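import Pool.Agent.K4H66.HL.T
import Pool.Agent.R446.KR.Fin

set_option autoImplicit false

/-! Exceptional sets at all shifts; the matrix side is real. -/

namespace Pool.Agent.K4H66.HL

open Complex MeasureTheory Filter Topology Set Pool.Agent.TH535.SM Pool.Agent.K4H66.OL Pool.Agent.R446.KR
open scoped ComplexConjugate FourierTransform ContDiff ENNReal Convolution Matrix

noncomputable section

variable {φ : ℝ → ℂ} {k : ℕ}

/-- small quantities off small sets -/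
theorem SmE_exc (hk : 2 ≤ k) {F : ℝ → ℝ} (h : ∀ ε : ℝ, 0 < ε → SmE k ε F) {ε : ℝ} (hε : 0 < ε) :
    ∃ C X0 : ℝ, 0 ≤ C ∧ 4 ≤ X0 ∧ ∀ X : ℝ, X0 ≤ X → ∃ E : Set ℝ, MeasurableSet E ∧ E ⊆ Icc X (2 * X) ∧
      (volume : Measure ℝ).real E ≤ C * (√X * Real.log X) ∧ ∀ T ∈ Icc X (2 * X), T ∉ E →
        |F T| ≤ ε * M (zr k 0) (2 * T) := by
  obtain ⟨c, hc, hl⟩ := low_bound hk
  obtain ⟨T1, hT1⟩ := eventually_atTop.1 hl
  have g := mo_gr k
  set e1 : ℝ := ε / (4 * (1 + c⁻¹)) with he1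
  have he10 : 0 < e1 := by positivity
  obtain ⟨C1, T0, hC1, hT0, h1⟩ := h e1 he10
  set η : ℝ := ε / (4 * (C1 + 1)) with hη
  have hηp : 0 < η := by positivity
  have hη1 : C1 * η ≤ ε / 4 := by
    rw [hη, mul_div_assoc', div_le_iff₀ (by positivity)]
    nlinarith
  obtain ⟨C, hC, h2⟩ := exc2 g hηp
  obtain ⟨T2, hT2⟩ := eventually_atTop.1 ((NN_inf (k ^ 2)).eventually_ge_atTop (4 * (C1 * (1 + η)) / (ε * c)))
  refine ⟨C, max (max (max T0 T2) T1) 4, hC, le_max_right _ _, fun X hX => ?_⟩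
  have x0 : max (max T0 T2) T1 ≤ X := (le_max_left _ _).trans hX
  have x1 : T0 ≤ X := ((le_max_left _ _).trans (le_max_left _ _)).trans x0
  have x2 : T2 ≤ X := ((le_max_right _ _).trans (le_max_left _ _)).trans x0
  have x3 : T1 ≤ X := (le_max_right _ _).trans x0
  have x4 : 4 ≤ X := (le_max_right _ _).trans hX
  obtain ⟨E, d1, d2, d3, d4⟩ := h2 X x4
  refine ⟨E, d1, d2, d3, fun T hT hTE => ?_⟩
  have a1 := h1 T (x1.trans hT.1)
  have a2 := d4 T hT hTE
  have a3 := hT2 T (x2.trans hT.1)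
  have a4 := mul_le_mul_of_nonneg_left a2 hC1
  have a5 := hT1 T (x3.trans hT.1)
  have a6 := g.mono (show T ≤ 2 * T by linarith [hT.1])
  have a7 := g.nn (2 * T) (by linarith [hT.1])
  have hN := NN_pos (k ^ 2) (show 1 < T by linarith [hT.1])
  have a8 : NN (k ^ 2) T ≤ c⁻¹ * M (zr k 0) (2 * T) := by
    rw [inv_mul_eq_div, le_div_iff₀ hc]
    linarith
  rw [div_le_iff₀ (by positivity)] at a3
  have a9 : 4 * (C1 * (1 + η)) ≤ ε * M (zr k 0) (2 * T) := by
    have : NN (k ^ 2) T * (ε * c) = ε * (c * NN (k ^ 2) T) := by ring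
    rw [this] at a3
    refine a3.trans ?_
    gcongr
    linarith
  have a10 : e1 * (M (zr k 0) (2 * T) + NN (k ^ 2) T) ≤ ε / 4 * M (zr k 0) (2 * T) := by
    calc e1 * (M (zr k 0) (2 * T) + NN (k ^ 2) T) ≤ e1 * (M (zr k 0) (2 * T) + c⁻¹ * M (zr k 0) (2 * T)) := by gcongr
      _ = ε / 4 * M (zr k 0) (2 * T) := by rw [he1]; field_simp
  have a11 : C1 * η * M (zr k 0) (2 * T) ≤ ε / 4 * M (zr k 0) (2 * T) := mul_le_mul_of_nonneg_right hη1 a7
  rw [Rr_eq] at a4
  nlinarith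

/-- the functional equation of the characteristic polynomial -/
lemma det_fe {N : ℕ} (U : Matrix.unitaryGroup (Fin N) ℂ) {x : ℂ} (hx : x * conj x = 1) :
    (1 - x • (U : Matrix (Fin N) (Fin N) ℂ)).det =
      (-x) ^ N * (U : Matrix (Fin N) (Fin N) ℂ).det * conj ((1 - x • (U : Matrix (Fin N) (Fin N) ℂ)).det) := by
  have hU : (U : Matrix (Fin N) (Fin N) ℂ) * (U : Matrix (Fin N) (Fin N) ℂ)ᴴ = 1 :=
    Matrix.mem_unitaryGroup_iff.1 U.2
  have h1 : (1 - x • (U : Matrix (Fin N) (Fin N) ℂ)) =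
      ((-x) • (U : Matrix (Fin N) (Fin N) ℂ)) * (1 - conj x • (U : Matrix (Fin N) (Fin N) ℂ)ᴴ) := by
    rw [mul_sub, mul_one, Matrix.smul_mul, Matrix.mul_smul, hU, smul_smul, neg_mul, hx, neg_smul, neg_smul, one_smul]
    abel
  have h2 := congrArg Matrix.det h1
  rw [Matrix.det_mul, Matrix.det_smul, Fintype.card_fin, det_conj, Complex.conj_conj] at h2
  exact h2

lemma det_unit {N : ℕ} (U : Matrix.unitaryGroup (Fin N) ℂ) :
    (U : Matrix (Fin N) (Fin N) ℂ).det * conj ((U : Matrix (Fin N) (Fin N) ℂ).det) = 1 := by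
  have hU : (U : Matrix (Fin N) (Fin N) ℂ) * (U : Matrix (Fin N) (Fin N) ℂ)ᴴ = 1 :=
    Matrix.mem_unitaryGroup_iff.1 U.2
  have h := congrArg Matrix.det hU
  rw [Matrix.det_mul, Matrix.det_conjTranspose, Matrix.det_one] at h
  exact h

lemma ig_real (k : ℕ) {N : ℕ} (U : Matrix.unitaryGroup (Fin N) ℂ) {x : ℂ} (hx : x * conj x = 1) :
    conj ((conj x) ^ (k * N) * ig k N x (U : Matrix (Fin N) (Fin N) ℂ)) =
      (conj x) ^ (k * N) * ig k N x (U : Matrix (Fin N) (Fin N) ℂ) := by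
  unfold ig
  rw [det_conj]
  obtain ⟨a, ha⟩ : ∃ a, a = (1 - x • (U : Matrix (Fin N) (Fin N) ℂ)).det := ⟨_, rfl⟩
  obtain ⟨b, hb⟩ : ∃ b, b = (1 - conj x • (U : Matrix (Fin N) (Fin N) ℂ)).det := ⟨_, rfl⟩
  obtain ⟨d, hd⟩ : ∃ d, d = (U : Matrix (Fin N) (Fin N) ℂ).det := ⟨_, rfl⟩
  have e1 := det_fe U hx
  have e2 := det_fe U (x := conj x) (by rw [Complex.conj_conj, mul_comm]; exact hx)
  have e3 := det_unit U
  rw [← ha, ← hd] at e1
  rw [← hb, ← hd] at e2
  rw [← hd] at e3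
  rw [← ha, ← hb]
  have key : conj ((conj x) ^ N * (a * conj b)) = (conj x) ^ N * (a * conj b) := by
    rw [map_mul, map_mul, map_pow, Complex.conj_conj, Complex.conj_conj]
    have e4 : a * conj b = ((-x) ^ N * d * conj a) * conj ((-conj x) ^ N * d * conj b) := by
      rw [← e1, ← e2]
    rw [e4]
    simp only [map_mul, map_pow, map_neg, Complex.conj_conj]
    have e5 : (conj x) ^ N * ((-x) ^ N * d * conj a * ((-x) ^ N * conj d * b)) =
        ((-1) ^ N * (-1) ^ N) * ((x * conj x) ^ N) * x ^ N * (d * conj d) * (conj a * b) := by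
      rw [neg_pow x, mul_pow]; ring
    rw [e5, e3, hx, ← mul_pow, neg_mul_neg, one_mul, one_pow]
    ring
  have e6 : (conj x) ^ (k * N) * (a ^ k * conj b ^ k) = ((conj x) ^ N * (a * conj b)) ^ k := by
    rw [mul_pow, mul_pow, ← pow_mul, mul_comm N k]
  have e7 : (conj (b ^ k)) = (conj b) ^ k := map_pow _ _ _
  rw [e6, map_pow, key]

/-- the rotated matrix integral is real -/
lemma Wk_real (k : ℕ) {N : ℕ} (hN : 1 ≤ N) (α : ℝ) : conj (ro k α * Wk k α N) = ro k α * Wk k α N := by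
  have hNc : (N : ℂ) ≠ 0 := by exact_mod_cast (by omega : N ≠ 0)
  set x : ℂ := cexp (-(I * α / N)) with hx
  have hxc : conj x = cexp (I * α / N) := by
    rw [hx, ← Complex.exp_conj]
    congr 1
    rw [map_neg, map_div₀, map_mul, Complex.conj_I, Complex.conj_ofReal, map_natCast]
    ring
  have hxx : x * conj x = 1 := by
    rw [hxc, hx, ← Complex.exp_add, neg_add_cancel, Complex.exp_zero]
  have hro : ro k α = (conj x) ^ (k * N) := by
    rw [hxc, ← Complex.exp_nat_mul]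
    unfold ro
    congr 1
    push_cast
    field_simp
  have e : ro k α * Wk k α N = ((N : ℂ) ^ (k ^ 2))⁻¹ * ∫ U : Matrix.unitaryGroup (Fin N) ℂ,
      (conj x) ^ (k * N) * ig k N x (U : Matrix (Fin N) (Fin N) ℂ) ∂(haarU N) := by
    rw [integral_const_mul, ← hro]
    unfold Wk ig
    ring
  rw [e, map_mul, map_inv₀, map_pow, map_natCast, ← integral_conj]
  congr 1
  exact integral_congr_ae (Eventually.of_forall fun U => ig_real k U hxx)

end

end Pool.Agent.K4H66.HL
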